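import Pool.Agent.P.MP_d0c5d0_lc.ToTM

/-! A deterministic machine as a query game. -/

namespace Pool.Agent.P.MP_d0c5d0_lc

open Classical Function

/-- each move either asks the word on the query tape and erases it, or ignores the oracle -/
def IsGame {Cf : Type} (st : Set (List Bool) → Cf → Cf) (qt : Cf → List Bool) : Prop :=
  ∀ c, (∀ O, qt (st O c) = [] ∧ ∀ O', (qt c ∈ O ↔ qt c ∈ O') → st O c = st O' c) ∨
    ∀ O, (qt (st O c)).length ≤ (qt c).length + 1 ∧ ∀ O', st O c = st O' c

/-- the step function of a machine: use some allowed action, stay when there is none -/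
noncomputable def gameSt {α β : Type} (M : TM α β) (x : List α) (O : Set (List Bool)) (c : M.Cfg) :
    M.Cfg :=
  if h : (M.δ c.1 (inp x c.2.ih) c.2.rd).Nonempty then
    (nxt O c.2 h.some, c.2.upd x.length h.some.1) else c

theorem game_step {α β : Type} {M : TM α β} (hM : M.Det) {x : List α} {O : Set (List Bool)}
    {c c' : M.Cfg} (h : M.Step O x c c') : gameSt M x O c = c' := by
  obtain ⟨a, ha, rfl⟩ := h
  have n : (M.δ c.1 (inp x c.2.ih) c.2.rd).Nonempty := ⟨a, ha⟩
  rw [gameSt, dif_pos n, hM _ _ _ n.some_mem ha]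

theorem game_run {α β : Type} {M : TM α β} (hM : M.Det) {x : List α} {O : Set (List Bool)}
    {c c' : M.Cfg} {t : ℕ} (h : M.Run O x c t c') : (gameSt M x O)^[t] c = c' := by
  induction h with
  | nil c => rfl
  | cons h1 _ ih => rw [iterate_succ_apply, game_step hM h1, ih]

theorem game_ex {α β : Type} (M : TM α β) (hM : M.Det) (x : List α) :
    ∃ st : Set (List Bool) → M.Cfg → M.Cfg, IsGame st (fun c => c.2.qt) ∧
      ∀ O t T c, M.Ends O x t c → t ≤ T → (st O)^[T] M.init = c := by
  refine ⟨gameSt M x, fun c => ?_, fun O t T c h ht => ?_⟩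
  · by_cases n : (M.δ c.1 (inp x c.2.ih) c.2.rd).Nonempty
    · simp only [gameSt, dif_pos n]
      by_cases q : n.some.1.qo = Qop.ask
      · refine Or.inl fun O => ⟨?_, fun O' e => ?_⟩
        · simp only [Dat.upd, q]
        · simp only [nxt, e]
      · refine Or.inr fun O => ⟨upd_qt_le _ _ _, fun O' => ?_⟩
        simp only [nxt, q, false_and, if_false]
    · simp only [gameSt, dif_neg n]
      exact Or.inr fun O => ⟨Nat.le_succ _, fun _ => trivial⟩
  · obtain ⟨d, rfl⟩ := Nat.exists_eq_add_of_le' ht
    rw [iterate_add_apply, game_run hM h.1]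
    refine iterate_fixed ?_ d
    rw [gameSt, dif_neg (by rw [h.2]; exact Set.not_nonempty_empty)]

end Pool.Agent.P.MP_d0c5d0_lc
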