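import Pool.Agent.P.MP_d0c5d0_lc.AdvA
import Pool.Agent.P.MP_d0c5d0_lc.Game

/-! The adversary against deterministic machines. -/

namespace Pool.Agent.P.MP_d0c5d0_lc

open Classical Function

/-- numerical side conditions -/
structure Num (R : Par) (j K m n T q r : ℕ) : Prop where
  g : R.g = fun n => n ^ j
  m1 : 1 ≤ m
  tK : T < n ^ K
  rr : ∀ a, a * m ^ (j + 1) ≤ T → a ≤ r
  qq : ∀ τ : List Bool, τ.length ^ (j + 1) ≤ T → (R.sys τ).Q.card ≤ q
  qr : (q + 1) ^ (r + 1) ≤ 2 ^ m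
  tr : T < m ^ (j + 1) ∨ ∀ a, R.tr a = [] ∨ R.tr a = [false]
  yy : 2 ^ r * (T + r * q + 2 ^ (2 * m)) < 2 ^ n

section

variable {R : Par} {ω : World} {x : List Bool} {j K m T q r : ℕ} {Cf : Type}
  (st : Set (List Bool) → Cf → Cf) (qt : Cf → List Bool) (c₀ : Cf)

structure Inv (R : Par) (ω : World) (x : List Bool) (j K m q t : ℕ) (σ : St) (cnt : List Bool → ℕ)
    (c : Cf) : Prop where
  good : Good R ω K x m σ
  big : ∀ τ : List Bool, m ≤ τ.length → τ ∉ σ.Cm → cnt τ < τ.length ∧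
    2 ^ (4 * τ.length + 2) ≤ (2 ^ (2 * m) + 1) * 2 ^ cnt τ * (q + 1) ^ σ.Cm.card * (σ.P τ).card
  com : ∀ τ ∈ σ.Cm, m ≤ τ.length ∧ τ.length ≤ cnt τ
  cost : ∀ U : Finset (List Bool), ∑ τ ∈ U, cnt τ * τ.length ^ j + (qt c).length ≤ t
  ys : 2 ^ x.length ≤ 2 ^ σ.Cm.card * (σ.Y.card + t + σ.Cm.card * q + 2 ^ (2 * m))
  run : ∀ π y b, σ.In π y → (st (R.O (Wd ω K x π y b)))^[t] c₀ = c

variable {st qt c₀}

theorem adv_card {Cm : Finset (List Bool)} {cnt : List Bool → ℕ} (hN : Num R j K m x.length T q r)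
    (h1 : ∀ τ ∈ Cm, m ≤ τ.length ∧ τ.length ≤ cnt τ) (h2 : ∑ τ ∈ Cm, cnt τ * τ.length ^ j ≤ T) :
    Cm.card ≤ r := by
  refine hN.rr _ (le_trans ?_ h2)
  rw [← smul_eq_mul, ← Finset.sum_const]
  refine Finset.sum_le_sum fun τ hτ => ?_
  rw [pow_succ, mul_comm]
  exact Nat.mul_le_mul ((h1 τ hτ).1.trans (h1 τ hτ).2) (Nat.pow_le_pow_left (h1 τ hτ).1 _)

theorem adv_size (hN : Num R j K m x.length T q r) {l c a e p : ℕ} (hl : m ≤ l) (hc : c ≤ l)
    (ha : a + e ≤ r + 1) (h : 2 ^ (4 * l + 2) ≤ (2 ^ (2 * m) + 1) * 2 ^ c * (q + 1) ^ a * p) :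
    2 * (q + 1) ^ e ≤ p := by
  have h1 : 2 ^ (2 * m) + 1 ≤ 2 ^ (2 * l + 1) := by
    have := Nat.pow_le_pow_right (show 0 < 2 by norm_num) (show 2 * m ≤ 2 * l by omega)
    have := Nat.one_le_two_pow (n := 2 * l)
    rw [pow_succ]; omega
  have h2 : 2 ^ c ≤ 2 ^ l := Nat.pow_le_pow_right (by norm_num) hc
  have h3 : (q + 1) ^ a * (q + 1) ^ e ≤ 2 ^ l := by
    rw [← pow_add]
    exact (Nat.pow_le_pow_right (by omega) ha).trans
      (hN.qr.trans (Nat.pow_le_pow_right (by norm_num) hl))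
  have h4 : (2 ^ (2 * m) + 1) * 2 ^ c * (q + 1) ^ a * (2 * (q + 1) ^ e) ≤ 2 ^ (4 * l + 2) :=
    calc _ = (2 ^ (2 * m) + 1) * 2 ^ c * ((q + 1) ^ a * (q + 1) ^ e) * 2 := by ring
      _ ≤ 2 ^ (2 * l + 1) * 2 ^ l * 2 ^ l * 2 := by gcongr
      _ = _ := by ring
  exact Nat.le_of_mul_le_mul_left (h4.trans h) (by positivity)

/-- answering one question -/
theorem adv_ask (hN : Num R j K m x.length T q r) {t : ℕ} (ht : t < T) {σ cnt c}
    (I : Inv st qt c₀ R ω x j K m q t σ cnt c) :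
    ∃ (σ' : St) (cnt' : List Bool → ℕ), Good R ω K x m σ' ∧ (∀ π y, σ'.In π y → σ.In π y) ∧
      (∀ π y b π' y' b', σ'.In π y → σ'.In π' y' →
        (qt c ∈ R.O (Wd ω K x π y b) ↔ qt c ∈ R.O (Wd ω K x π' y' b'))) ∧
      (∀ τ : List Bool, m ≤ τ.length → τ ∉ σ'.Cm → cnt' τ < τ.length ∧ 2 ^ (4 * τ.length + 2) ≤
        (2 ^ (2 * m) + 1) * 2 ^ cnt' τ * (q + 1) ^ σ'.Cm.card * (σ'.P τ).card) ∧
      (∀ τ ∈ σ'.Cm, m ≤ τ.length ∧ τ.length ≤ cnt' τ) ∧
      (∀ U : Finset (List Bool), ∑ τ ∈ U, cnt' τ * τ.length ^ j ≤ t) ∧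
      2 ^ x.length ≤ 2 ^ σ'.Cm.card * (σ'.Y.card + (t + 1) + σ'.Cm.card * q + 2 ^ (2 * m)) := by
  set w := qt c with hw
  have hwl : w.length ≤ t := by have := I.cost ∅; simpa using this
  have hr : σ.Cm.card ≤ r := adv_card hN I.com (by have := I.cost σ.Cm; omega)
  set Y₁ := σ.Y.filter fun y => bet y ∉ ({w} : Finset (List Bool)) with hY₁
  have hY : σ.Y.card ≤ Y₁.card + 1 := card_drop_bet σ.Y {w}
  have hys : 2 ^ x.length ≤ 2 ^ σ.Cm.card * (Y₁.card + (t + 1) + σ.Cm.card * q + 2 ^ (2 * m)) :=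
    I.ys.trans (Nat.mul_le_mul_left _ (by omega))
  have hfr : ∀ y ∈ Y₁, ∀ y' ∈ Y₁, ∀ b b', fr ω K x y b w = fr ω K x y' b' w := by
    intro y hy y' hy' b b'
    refine fr_eq ?_ ?_ (Or.inr fun i hi => ?_)
    · have := (Finset.mem_filter.1 hy).2; simpa [eq_comm] using this
    · have := (Finset.mem_filter.1 hy').2; simpa [eq_comm] using this
    · have := hN.tK; rw [hi, hard_len] at hwl; omega
  by_cases hc : ∃ τ k u, w = cell τ k u ∧ R.g τ.length ≤ k ∧ m ≤ τ.length ∧ τ ∉ σ.Cm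
  swap
  · have G1 : Good R ω K x m ⟨σ.P, Y₁, σ.Cm⟩ :=
      I.good.shrink (fun _ => subset_rfl) (fun _ _ => rfl) (Finset.filter_subset _ _)
    refine ⟨⟨σ.P, Y₁, σ.Cm⟩, cnt, G1, fun π y h => ⟨h.1, Finset.filter_subset _ _ h.2⟩,
      fun π y b π' y' b' h h' => G1.agree h h' (hfr y h.2 y' h'.2 b b') fun τ k u a b c d =>
        absurd ⟨τ, k, u, a, b, c, d⟩ hc, I.big, I.com, fun U => ?_, hys⟩
    have := I.cost U; omega
  obtain ⟨τ₀, k, u, hcell, hk, hm, h0⟩ := hc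
  obtain ⟨P₀, hs, hcard, hp1, hp2⟩ := resolve (σ.P τ₀) {u} _ fun p hp => (I.good.adm τ₀ p hp).1
  rw [Finset.card_singleton] at hcard
  set cnt' := update cnt τ₀ (cnt τ₀ + 1) with hcnt
  have hb0 : 2 ^ (4 * τ₀.length + 2) ≤
      (2 ^ (2 * m) + 1) * 2 ^ (cnt τ₀ + 1) * (q + 1) ^ σ.Cm.card * P₀.card :=
    (I.big τ₀ hm h0).2.trans (by
      calc _ ≤ (2 ^ (2 * m) + 1) * 2 ^ cnt τ₀ * (q + 1) ^ σ.Cm.card * ((1 + 1) * P₀.card) := by gcongr
        _ = _ := by ring)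
  have h2 : 2 ≤ P₀.card := by
    simpa using adv_size hN (e := 0) hm (I.big τ₀ hm h0).1 (by omega) hb0
  have hpat : Pat P₀ u := ⟨hp1 u (by simp), hp2 h2 u (by simp)⟩
  have hu : ∀ τ, update σ.P τ₀ P₀ τ ⊆ σ.P τ := by
    intro τ
    by_cases h : τ = τ₀
    · subst h; simpa using hs
    · rw [update_of_ne h]
  have G1 : Good R ω K x m ⟨update σ.P τ₀ P₀, Y₁, σ.Cm⟩ := I.good.shrink hu (fun τ hτ => by
    rw [update_of_ne]
    rintro rfl
    rcases hτ with h | h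
    · omega
    · exact h0 h) (Finset.filter_subset _ _)
  have hin : ∀ π y, St.In ⟨update σ.P τ₀ P₀, Y₁, σ.Cm⟩ π y → σ.In π y :=
    fun π y h => ⟨fun τ => hu τ (h.1 τ), Finset.filter_subset _ _ h.2⟩
  have hag : ∀ π y b π' y' b', St.In ⟨update σ.P τ₀ P₀, Y₁, σ.Cm⟩ π y →
      St.In ⟨update σ.P τ₀ P₀, Y₁, σ.Cm⟩ π' y' →
      (w ∈ R.O (Wd ω K x π y b) ↔ w ∈ R.O (Wd ω K x π' y' b')) :=
    fun π y b π' y' b' h h' => G1.agree h h' (hfr y h.2 y' h'.2 b b') fun τ k' u' a _ _ _ => by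
      obtain ⟨rfl, -, rfl⟩ := cell_inj (hcell.symm.trans a)
      simpa using hpat
  have hcost : ∀ U : Finset (List Bool), ∑ τ ∈ U, cnt' τ * τ.length ^ j ≤ t := by
    intro U
    have h3 := I.cost U
    have h4 : τ₀.length ^ j ≤ w.length := by
      rw [hcell, cell_len]; rw [hN.g] at hk; dsimp only at hk; omega
    have h5 : ∑ τ ∈ U, cnt' τ * τ.length ^ j ≤ ∑ τ ∈ U, (cnt τ * τ.length ^ j +
        if τ = τ₀ then τ₀.length ^ j else 0) := Finset.sum_le_sum fun τ _ => by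
      by_cases h : τ = τ₀
      · subst h; simp [hcnt, add_mul]
      · simp [hcnt, h]
    rw [Finset.sum_add_distrib, Finset.sum_ite_eq'] at h5
    rw [← hw] at h3
    split_ifs at h5 <;> omega
  have hbig : ∀ τ : List Bool, m ≤ τ.length → τ ∉ σ.Cm → τ ≠ τ₀ → cnt' τ < τ.length ∧
      2 ^ (4 * τ.length + 2) ≤ (2 ^ (2 * m) + 1) * 2 ^ cnt' τ * (q + 1) ^ σ.Cm.card *
        (update σ.P τ₀ P₀ τ).card := by
    intro τ a b h
    rw [hcnt, update_of_ne h, update_of_ne h]; exact I.big τ a b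
  have hcom : ∀ τ ∈ σ.Cm, m ≤ τ.length ∧ τ.length ≤ cnt' τ := by
    intro τ hτ
    rw [hcnt, update_of_ne (by rintro rfl; exact h0 hτ)]; exact I.com τ hτ
  by_cases hlt : cnt τ₀ + 1 < τ₀.length
  · refine ⟨_, cnt', G1, hin, hag, fun τ a b => ?_, hcom, hcost, hys⟩
    by_cases h : τ = τ₀
    · subst h; simpa [hcnt] using ⟨hlt, hb0⟩
    · exact hbig τ a b h
  have hT : τ₀.length ^ (j + 1) ≤ T := by
    have := hcost {τ₀}
    rw [Finset.sum_singleton, hcnt, update_self] at this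
    rw [pow_succ, mul_comm]
    exact (Nat.mul_le_mul_right _ (by omega)).trans (this.trans ht.le)
  have htr := hN.tr.resolve_left (by have := Nat.pow_le_pow_left hm (j + 1); omega)
  obtain ⟨p, hp⟩ : P₀.Nonempty := Finset.card_pos.1 (by omega)
  obtain ⟨σ', G', hCm, hin', hY', hP'⟩ := commit_ex G1 htr (τ₀ := τ₀) (p := p) (by simpa using hp)
    hm h0 (hN.qq τ₀ hT) fun τ a b h => by
      have := adv_size hN (e := 1) a (hbig τ a b h).1.le (by omega) (hbig τ a b h).2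
      rw [pow_one] at this
      show q + 1 < (update σ.P τ₀ P₀ τ).card
      omega
  have hcd : σ'.Cm.card = σ.Cm.card + 1 := by rw [hCm, Finset.card_insert_of_notMem h0]
  refine ⟨σ', cnt', G', fun π y h => hin π y (hin' π y h),
    fun π y b π' y' b' h h' => hag _ _ _ _ _ _ (hin' _ _ h) (hin' _ _ h'), fun τ a b => ?_,
    fun τ hτ => ?_, hcost, ?_⟩
  · have b' := b
    rw [hCm, Finset.mem_insert, not_or] at b'
    refine ⟨(hbig τ a b'.2 b'.1).1, (hbig τ a b'.2 b'.1).2.trans ?_⟩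
    have := hP' τ a b
    calc _ ≤ (2 ^ (2 * m) + 1) * 2 ^ cnt' τ * (q + 1) ^ σ.Cm.card * ((q + 1) * (σ'.P τ).card) := by
          gcongr
      _ = _ := by rw [hcd]; ring
  · rw [hCm] at hτ
    rcases Finset.mem_insert.1 hτ with rfl | hτ
    · exact ⟨hm, by rw [hcnt, update_self]; omega⟩
    · exact hcom τ hτ
  · refine hys.trans ?_
    rw [hcd, pow_succ, mul_assoc]
    refine Nat.mul_le_mul_left _ ?_
    dsimp only at hY'
    rw [add_mul]
    generalize 2 ^ (2 * m) = z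
    generalize σ.Cm.card * q = v
    omega

theorem adv_step (hN : Num R j K m x.length T q r) (hG : IsGame st qt) {t : ℕ} (ht : t < T) {σ cnt c}
    (I : Inv st qt c₀ R ω x j K m q t σ cnt c) :
    ∃ σ' cnt' c', Inv st qt c₀ R ω x j K m q (t + 1) σ' cnt' c' := by
  rcases hG c with h | h
  · obtain ⟨σ', cnt', G, hin, hag, hb, hc, hcost, hy⟩ := adv_ask hN ht I
    refine ⟨σ', cnt', st {w | ∃ π y b, σ'.In π y ∧ w ∈ R.O (Wd ω K x π y b)} c, G, hb, hc,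
      fun U => ?_, hy, fun π y b hπ => ?_⟩
    · rw [(h _).1]; have := hcost U; simp; omega
    · rw [iterate_succ_apply', I.run π y b (hin π y hπ)]
      exact (h _).2 _ ⟨fun hw => ⟨π, y, b, hπ, hw⟩,
        fun ⟨π', y', b', h', hw⟩ => (hag _ _ _ _ _ _ hπ h').2 hw⟩
  · refine ⟨σ, cnt, st ∅ c, I.good, I.big, I.com, fun U => ?_,
      I.ys.trans (Nat.mul_le_mul_left _ (by omega)), fun π y b hπ => ?_⟩
    · have := I.cost U; have := (h ∅).1; omega
    · rw [iterate_succ_apply', I.run π y b hπ]; exact (h _).2 _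

theorem adv_core (hN : Num R j K m x.length T q r) (hG : IsGame st qt) (h0 : qt c₀ = [])
    (hω : R.AdmW ω) (hx : ∀ i, hard K x i ∉ R.Z m) :
    ∃ σ π y, Good R ω K x m σ ∧ σ.In π y ∧
      (st (R.O (Wd ω K x π y true)))^[T] c₀ = (st (R.O (Wd ω K x π y false)))^[T] c₀ := by
  have key : ∀ t ≤ T, ∃ σ cnt c, Inv st qt c₀ R ω x j K m q t σ cnt c := by
    intro t ht
    induction t with
    | zero =>
      obtain ⟨σ, G, h1, h2, h3⟩ := start_ex hω hx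
      refine ⟨σ, fun _ => 0, c₀, G, fun τ a _ => ⟨by have := hN.m1; omega, by simpa [h1] using h3 τ a⟩,
        by simp [h1], by simp [h0], by simpa [h1] using h2, fun _ _ _ _ => rfl⟩
    | succ t ih =>
      obtain ⟨σ, cnt, c, I⟩ := ih (by omega)
      exact adv_step hN hG (by omega) I
  obtain ⟨σ, cnt, c, I⟩ := key T le_rfl
  have hr : σ.Cm.card ≤ r := adv_card hN I.com (by have := I.cost σ.Cm; omega)
  have hP : ∀ τ, (σ.P τ).Nonempty := by
    intro τ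
    by_cases a : τ.length < m
    · rw [I.good.short τ a]; simp
    by_cases b : τ ∈ σ.Cm
    · obtain ⟨p, hp⟩ := I.good.one τ b; rw [hp]; simp
    · have := adv_size hN (e := 0) (not_lt.1 a) (I.big τ (not_lt.1 a) b).1.le (by omega)
        (I.big τ (not_lt.1 a) b).2
      rw [pow_zero] at this
      exact Finset.card_pos.1 (by omega)
  obtain ⟨y, hy⟩ : σ.Y.Nonempty := by
    rw [← Finset.card_pos]
    by_contra h
    have h1 := I.ys
    rw [show σ.Y.card = 0 by omega, zero_add] at h1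
    exact absurd (h1.trans (by gcongr; norm_num)) (not_le.2 hN.yy)
  choose π hπ using hP
  exact ⟨σ, π, y, I.good, ⟨hπ, hy⟩, by rw [I.run π y _ ⟨hπ, hy⟩, I.run π y _ ⟨hπ, hy⟩]⟩

end

theorem adv_exp (k s : ℕ) : ∀ᶠ m : ℕ in Filter.atTop, s * (8 * m) ^ k ≤ 2 ^ m := by
  have h := tendsto_pow_const_div_const_pow_of_one_lt (k + 1) (r := 2) (by norm_num)
  filter_upwards [h.eventually (gt_mem_nhds one_pos), Filter.eventually_ge_atTop (s * 8 ^ k)]
    with m hm h1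
  rw [div_lt_one (by positivity)] at hm
  have h2 : m ^ (k + 1) < 2 ^ m := by exact_mod_cast hm
  calc s * (8 * m) ^ k = s * 8 ^ k * m ^ k := by rw [mul_pow]; ring
    _ ≤ m ^ (k + 1) := by rw [pow_succ, mul_comm (m ^ k)]; gcongr
    _ ≤ _ := h2.le

theorem adv_num (R : Par) (j K k s N : ℕ) (hK : k < K) (hg : R.g = fun n => n ^ j)
    (hk : k ≤ j ∨ (k ≤ j + 1 ∧ ∀ a, R.tr a = [] ∨ R.tr a = [false])) :
    ∃ m q r, N < m ∧ Num R j K m (4 * m) (s * (4 * m + 1) ^ k) q r := by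
  set r := s * 8 ^ (j + 1) with hr
  obtain ⟨m, h1, h2⟩ := ((adv_exp k s).and (Filter.eventually_ge_atTop
    (N + s * 8 ^ k + 32 * (s + 1) * (r + 1) ^ 2 + 2 * r + 3))).exists
  have hm : 1 ≤ m := by omega
  have hT : s * (4 * m + 1) ^ k ≤ s * 8 ^ k * m ^ k := by
    rw [mul_assoc, ← mul_pow]; gcongr; omega
  have hk' : k ≤ j + 1 := by omega
  have hmk : 0 < m ^ k := by positivity
  have hlt : s * (4 * m + 1) ^ k < m ^ (k + 1) := by
    refine hT.trans_lt ?_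
    rw [pow_succ, mul_comm (m ^ k)]; gcongr; omega
  set a := Nat.sqrt ((s + 1) * (8 * m)) with ha
  have h3 : (a + 1) * (r + 1) ≤ m := by
    have h4 : a * a ≤ (s + 1) * (8 * m) := Nat.sqrt_le _
    have h5 : 2 * (a * (r + 1)) ≤ m := by
      by_contra h
      have h6 : m * m < (2 * (a * (r + 1))) * (2 * (a * (r + 1))) := Nat.mul_self_lt_mul_self (by omega)
      have h7 : (2 * (a * (r + 1))) * (2 * (a * (r + 1))) ≤ 32 * (s + 1) * (r + 1) ^ 2 * m :=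
        calc _ = 4 * (a * a) * (r + 1) ^ 2 := by ring
          _ ≤ 4 * ((s + 1) * (8 * m)) * (r + 1) ^ 2 := by gcongr
          _ = _ := by ring
      have h8 : 32 * (s + 1) * (r + 1) ^ 2 * m ≤ m * m := by gcongr; omega
      omega
    rw [add_mul]; omega
  have hT2 : s * (4 * m + 1) ^ k ≤ 2 ^ m := le_trans (by gcongr; omega) h1
  refine ⟨m, 2 ^ a, r, by omega, hg, hm, ?_, fun b hb => ?_, fun τ hτ => ?_, ?_, ?_, ?_⟩
  · exact hlt.trans_le ((Nat.pow_le_pow_left (by omega) _).trans (Nat.pow_le_pow_right (by omega) hK))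
  · have : b * m ^ (j + 1) ≤ r * m ^ (j + 1) := hb.trans (hT.trans (by rw [hr]; gcongr; norm_num))
    exact Nat.le_of_mul_le_mul_right this (by positivity)
  · refine (R.small τ).trans (Nat.pow_le_pow_right (by norm_num) (Nat.sqrt_le_sqrt ?_))
    refine (Nat.pow_le_pow_iff_left (show j + 1 ≠ 0 by omega)).1 (hτ.trans ?_)
    rw [mul_pow]
    refine Nat.mul_le_mul ((Nat.le_succ s).trans (Nat.le_self_pow (by omega) _)) ?_
    exact (Nat.pow_le_pow_left (by omega) _).trans (Nat.pow_le_pow_right (by omega) hk')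
  · calc (2 ^ a + 1) ^ (r + 1) ≤ (2 ^ (a + 1)) ^ (r + 1) := by
          gcongr; have := Nat.one_le_two_pow (n := a); rw [pow_succ]; omega
      _ ≤ 2 ^ m := by rw [← pow_mul]; gcongr; norm_num
  · exact hk.imp (fun h => hlt.trans_le (Nat.pow_le_pow_right hm (by omega))) And.right
  · have h4 : r * 2 ^ a ≤ 2 ^ m :=
      calc r * 2 ^ a ≤ 2 ^ r * 2 ^ a := by gcongr; exact Nat.lt_two_pow_self.le
        _ ≤ 2 ^ m := by rw [← pow_add]; gcongr; norm_num; nlinarith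
    have h5 : 2 ^ m ≤ 2 ^ (2 * m) := Nat.pow_le_pow_right (by norm_num) (by omega)
    calc _ ≤ 2 ^ r * (4 * 2 ^ (2 * m)) := by gcongr; omega
      _ = 2 ^ (r + 2 + 2 * m) := by ring
      _ < 2 ^ (4 * m) := Nat.pow_lt_pow_right (by norm_num) (by omega)

theorem adv (R : Par) (j K k s : ℕ) (hK : k < K) (hj : 1 ≤ j) (hg : R.g = fun n => n ^ j)
    (hk : k ≤ j ∨ (k ≤ j + 1 ∧ ∀ a, R.tr a = [] ∨ R.tr a = [false]))
    (ω : World) (hω : R.AdmW ω) (N : ℕ) :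
    ∃ x : List Bool, ∀ (Cf : Type) (st : Set (List Bool) → Cf → Cf) (qt : Cf → List Bool) (c₀ : Cf),
      IsGame st qt → qt c₀ = [] → ∃ ω₁ ω₂, R.AdmW ω₁ ∧ R.AdmW ω₂ ∧ Near N ω ω₁ ∧ Near N ω ω₂ ∧
        (st (R.O ω₁))^[s * (x.length + 1) ^ k] c₀ = (st (R.O ω₂))^[s * (x.length + 1) ^ k] c₀ ∧
        bet (hardF (R.O ω₁) K x) ∈ R.O ω₁ ∧ bet (hardF (R.O ω₂) K x) ∉ R.O ω₂ := by
  have _ := hj
  obtain ⟨m, q, r, hm, hN⟩ := adv_num R j K k s N hK hg hk
  obtain ⟨x, hx, hx'⟩ := fresh_ex (R.Z m) K (4 * m)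
    ((Z_card R m).trans_lt (Nat.pow_lt_pow_right (by norm_num) (by omega)))
  refine ⟨x, fun Cf st qt c₀ hG h0 => ?_⟩
  rw [← hx] at hN
  obtain ⟨σ, π, y, G, hin, h⟩ := adv_core hN hG h0 hω hx'
  refine ⟨_, _, G.admW hin true, G.admW hin false, G.near hin _ hm (by omega),
    G.near hin _ hm (by omega), h, ?_, ?_⟩
  · rw [hardF_Wd π (G.ylen y hin.2), bet_Wd]
  · rw [hardF_Wd π (G.ylen y hin.2), bet_Wd]; simp

end Pool.Agent.P.MP_d0c5d0_lc
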