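import Pool.Agent.P.MP_d0c5d0_lc.Count

/-! Families of worlds kept by the adversary. -/

namespace Pool.Agent.P.MP_d0c5d0_lc

open Classical Function

variable (R : Par) (ω : World) (K : ℕ) (x : List Bool)

/-- free bits: the long cells of `x` spell `y`, the short cell of `y` is `b` -/
noncomputable def fr (y : List Bool) (b : Bool) (w : List Bool) : Bool :=
  if ∃ i, w = hard K x i then decide (∃ i, w = hard K x i ∧ y[i]? = some true)
  else if w = bet y then b else (ω w).2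

noncomputable def Wd (π : List Bool → List Bool) (y : List Bool) (b : Bool) : World :=
  fun w => (π w, fr ω K x y b w)

/-- candidate passwords, candidate values, committed names -/
structure St where
  P : List Bool → Finset (List Bool)
  Y : Finset (List Bool)
  Cm : Finset (List Bool)

def St.In (σ : St) (π : List Bool → List Bool) (y : List Bool) : Prop := (∀ τ, π τ ∈ σ.P τ) ∧ y ∈ σ.Y

structure Good (m : ℕ) (σ : St) : Prop where
  adm : ∀ τ, ∀ p ∈ σ.P τ, R.Adm τ p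
  short : ∀ τ : List Bool, τ.length < m → σ.P τ = {(ω τ).1}
  ylen : ∀ y ∈ σ.Y, y.length = x.length
  one : ∀ τ ∈ σ.Cm, ∃ p, σ.P τ = {p}
  val : ∀ τ : List Bool, (τ.length < m ∨ τ ∈ σ.Cm) → ∀ π y b π' y' b', σ.In π y → σ.In π' y' →
    R.tr (R.ans (Wd ω K x π y b) τ) = R.tr (R.ans (Wd ω K x π' y' b') τ)

/-- the question `u` is answered alike by all of `P` and reveals no stored value -/
def Pat (P : Finset (List Bool)) (u : List Bool) : Prop :=
  (∀ p ∈ P, ∀ p' ∈ P, (u <+: enc p ↔ u <+: enc p')) ∧ ∀ p ∈ P, ¬ enc p <+: u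

variable {R ω K x} {m : ℕ} {σ : St}

theorem Pat.sub {P P' : Finset (List Bool)} {u} (h : Pat P u) (h' : P' ⊆ P) : Pat P' u :=
  ⟨fun p hp p' hp' => h.1 p (h' hp) p' (h' hp'), fun p hp => h.2 p (h' hp)⟩

theorem fr_eq {y y' b b' w} (h1 : w ≠ bet y) (h2 : w ≠ bet y') (h : y = y' ∨ ∀ i, w ≠ hard K x i) :
    fr ω K x y b w = fr ω K x y' b' w := by
  unfold fr
  rw [if_neg h1, if_neg h2]
  rcases h with rfl | h
  · rfl
  · rw [if_neg (by simpa using h), if_neg (by simpa using h)]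

theorem Good.admW (G : Good R ω K x m σ) {π y} (h : σ.In π y) (b) : R.AdmW (Wd ω K x π y b) :=
  fun τ => G.adm τ _ (h.1 τ)

theorem Good.same (G : Good R ω K x m σ) {π y π' y'} (h : σ.In π y) (h' : σ.In π' y') {τ : List Bool}
    (hτ : τ.length < m ∨ τ ∈ σ.Cm) : π τ = π' τ := by
  have h1 := h.1 τ
  have h2 := h'.1 τ
  rcases hτ with hτ | hτ
  · rw [G.short τ hτ, Finset.mem_singleton] at h1 h2; rw [h1, h2]
  · obtain ⟨p, hp⟩ := G.one τ hτ
    rw [hp, Finset.mem_singleton] at h1 h2; rw [h1, h2]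

theorem Good.agree (G : Good R ω K x m σ) {π y b π' y' b' w} (h : σ.In π y) (h' : σ.In π' y')
    (hf : fr ω K x y b w = fr ω K x y' b' w)
    (hc : ∀ τ k u, w = cell τ k u → R.g τ.length ≤ k → m ≤ τ.length → τ ∉ σ.Cm → Pat (σ.P τ) u) :
    w ∈ R.O (Wd ω K x π y b) ↔ w ∈ R.O (Wd ω K x π' y' b') := by
  refine orc_agree (fun _ => hf) fun τ k u hw hk => ?_
  by_cases hτ : τ.length < m ∨ τ ∈ σ.Cm
  · show u <+: enc (π τ) ++ _ ↔ u <+: enc (π' τ) ++ _
    rw [G.same h h' hτ, G.val τ hτ π y b π' y' b' h h']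
  · have := hc τ k u hw hk (by omega) (fun h => hτ (Or.inr h))
    show u <+: enc (π τ) ++ _ ↔ u <+: enc (π' τ) ++ _
    rw [pre_app_iff (this.2 _ (h.1 τ)), pre_app_iff (this.2 _ (h'.1 τ))]
    exact this.1 _ (h.1 τ) _ (h'.1 τ)

/-- shrinking the candidate sets -/
theorem Good.shrink (G : Good R ω K x m σ) {P' : List Bool → Finset (List Bool)} {Y'}
    (h1 : ∀ τ, P' τ ⊆ σ.P τ) (h2 : ∀ τ : List Bool, τ.length < m ∨ τ ∈ σ.Cm → P' τ = σ.P τ)
    (h3 : Y' ⊆ σ.Y) : Good R ω K x m ⟨P', Y', σ.Cm⟩ where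
  adm τ p hp := G.adm τ p (h1 τ hp)
  short τ hτ := (h2 τ (Or.inl hτ)).trans (G.short τ hτ)
  ylen y hy := G.ylen y (h3 hy)
  one τ hτ := by rw [show St.P _ τ = P' τ from rfl, h2 τ (Or.inr hτ)]; exact G.one τ hτ
  val τ hτ π y b π' y' b' h h' := G.val τ hτ π y b π' y' b' ⟨fun τ => h1 τ (h.1 τ), h3 h.2⟩
    ⟨fun τ => h1 τ (h'.1 τ), h3 h'.2⟩

theorem resolve_all (P : List Bool → Finset (List Bool)) (hP : ∀ τ, ∀ p ∈ P τ, R.Adm τ p)
    (S : Finset (List Bool)) (E : List Bool → Prop) :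
    ∃ P' : List Bool → Finset (List Bool), (∀ τ, P' τ ⊆ P τ) ∧ (∀ τ, E τ → P' τ = P τ) ∧
      ∀ τ, ¬ E τ → (P τ).card ≤ (S.card + 1) * (P' τ).card ∧
        (∀ k u, cell τ k u ∈ S → ∀ p ∈ P' τ, ∀ p' ∈ P' τ, (u <+: enc p ↔ u <+: enc p')) ∧
        (2 ≤ (P' τ).card → ∀ k u, cell τ k u ∈ S → Pat (P' τ) u) := by
  let uc : List Bool → List Bool → List Bool := fun τ w =>
    if h : ∃ q : ℕ × List Bool, w = cell τ q.1 q.2 then h.choose.2 else []
  have huc : ∀ τ k u, uc τ (cell τ k u) = u := by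
    intro τ k u
    have h : ∃ q : ℕ × List Bool, cell τ k u = cell τ q.1 q.2 := ⟨(k, u), rfl⟩
    simp only [uc, dif_pos h]
    exact (cell_inj h.choose_spec).2.2.symm
  choose F h1 h2 h3 h4 using fun τ => resolve (P τ) (S.image (uc τ)) _ fun p hp => (hP τ p hp).1
  refine ⟨fun τ => if E τ then P τ else F τ, fun τ => ?_, fun τ hτ => if_pos hτ, fun τ hτ => ?_⟩
  · dsimp only
    split_ifs
    · exact subset_rfl
    · exact h1 τ
  · have hm : ∀ k u, cell τ k u ∈ S → u ∈ S.image (uc τ) := fun k u h =>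
      Finset.mem_image.2 ⟨_, h, huc τ k u⟩
    simp only [if_neg hτ]
    exact ⟨(h2 τ).trans (Nat.mul_le_mul_right _ (Nat.succ_le_succ Finset.card_image_le)),
      fun k u h => h3 τ u (hm k u h), fun h k u hu => ⟨h3 τ u (hm k u hu), h4 τ h u (hm k u hu)⟩⟩

theorem card_drop_bet (Y S : Finset (List Bool)) :
    Y.card ≤ (Y.filter fun y => bet y ∉ S).card + S.card := by
  rw [← Finset.card_filter_add_card_filter_not (s := Y) (fun y => bet y ∉ S)]
  refine Nat.add_le_add_left (Finset.card_le_card_of_injOn bet (fun y hy => ?_)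
    fun _ _ _ _ h => bet_inj h) _
  simpa using (Finset.mem_filter.1 hy).2

/-- the starting family -/
theorem start_ex (hω : R.AdmW ω) (hx : ∀ i, hard K x i ∉ R.Z m) :
    ∃ σ : St, Good R ω K x m σ ∧ σ.Cm = ∅ ∧ 2 ^ x.length ≤ σ.Y.card + 2 ^ (2 * m) ∧
      ∀ τ : List Bool, m ≤ τ.length → 2 ^ (4 * τ.length + 2) ≤ (2 ^ (2 * m) + 1) * (σ.P τ).card := by
  choose A hA1 hA2 using adm_ex R
  obtain ⟨W, hW1, hW2⟩ := words_ex x.length
  let P0 : List Bool → Finset (List Bool) := fun τ => if τ.length < m then {(ω τ).1} else A τ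
  have hP0 : ∀ τ, ∀ p ∈ P0 τ, R.Adm τ p := by
    intro τ p hp
    simp only [P0] at hp
    split_ifs at hp
    · rw [Finset.mem_singleton.1 hp]; exact hω τ
    · exact hA2 τ p hp
  obtain ⟨P, h1, h2, h3⟩ := resolve_all P0 hP0 (R.Z m) fun τ => τ.length < m
  have hs : ∀ τ : List Bool, τ.length < m → P τ = {(ω τ).1} := fun τ hτ => (h2 τ hτ).trans (if_pos hτ)
  have hz := Z_card R m
  refine ⟨⟨P, W.filter fun y => bet y ∉ R.Z m, ∅⟩, ⟨fun τ p hp => hP0 τ p (h1 τ hp), hs,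
    fun y hy => (hW2 y).1 (Finset.mem_filter.1 hy).1, by simp, ?_⟩, rfl, ?_, fun τ hτ => ?_⟩
  · intro τ hτ π y b π' y' b' h h'
    rw [short_agree (R := R) (ω := Wd ω K x π y b) (ω' := Wd ω K x π' y' b') (m := m)
      (fun τ => hP0 τ _ (h1 τ (h.1 τ))) (fun τ => hP0 τ _ (h1 τ (h'.1 τ))) (fun τ hτ => ?_)
      (fun w hw _ => ?_) (fun τ k u hw hτ => ?_) (by simpa using hτ)]
    · have a := h.1 τ
      have a' := h'.1 τ
      rw [show St.P _ τ = P τ from rfl, hs τ hτ, Finset.mem_singleton] at a a'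
      exact a.trans a'.symm
    · refine fr_eq ?_ ?_ (Or.inr fun i hi => hx i (hi ▸ hw))
      · rintro rfl; exact (Finset.mem_filter.1 h.2).2 hw
      · rintro rfl; exact (Finset.mem_filter.1 h'.2).2 hw
    · exact (h3 τ (by omega)).2.1 k u hw _ (h.1 τ) _ (h'.1 τ)
  · have := card_drop_bet W (R.Z m)
    dsimp only; omega
  · have h4 := (h3 τ (by omega)).1
    have h5 := hA1 τ
    simp only [P0, if_neg (show ¬ τ.length < m by omega)] at h4
    exact h5.trans (h4.trans (Nat.mul_le_mul_right _ (by omega)))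

/-- fixing the password and the stored value of one more name -/
theorem commit_ex (G : Good R ω K x m σ) (htr : ∀ a, R.tr a = [] ∨ R.tr a = [false]) {τ₀ p : List Bool}
    (hp : p ∈ σ.P τ₀) (hm : m ≤ τ₀.length) (h0 : τ₀ ∉ σ.Cm) {q : ℕ} (hq : (R.sys τ₀).Q.card ≤ q)
    (hbig : ∀ τ : List Bool, m ≤ τ.length → τ ∉ σ.Cm → τ ≠ τ₀ → q + 1 < (σ.P τ).card) :
    ∃ σ' : St, Good R ω K x m σ' ∧ σ'.Cm = insert τ₀ σ.Cm ∧ (∀ π y, σ'.In π y → σ.In π y) ∧
      σ.Y.card ≤ 2 * σ'.Y.card + q ∧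
      ∀ τ : List Bool, m ≤ τ.length → τ ∉ σ'.Cm → (σ.P τ).card ≤ (q + 1) * (σ'.P τ).card := by
  have hu : ∀ τ, update σ.P τ₀ {p} τ ⊆ σ.P τ := by
    intro τ
    by_cases h : τ = τ₀
    · subst h; simpa using hp
    · rw [update_of_ne h]
  obtain ⟨P, h1, h2, h3⟩ := resolve_all (update σ.P τ₀ {p}) (fun τ p hp => G.adm τ p (hu τ hp))
    (R.sys τ₀).Q fun τ => τ.length < m ∨ τ ∈ σ.Cm ∨ τ = τ₀
  have hP0 : P τ₀ = {p} := by rw [h2 τ₀ (by simp), update_self]
  have h4 : ∀ τ : List Bool, m ≤ τ.length → τ ∉ σ.Cm → τ ≠ τ₀ →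
      (σ.P τ).card ≤ (q + 1) * (P τ).card := by
    intro τ a b c
    have := (h3 τ (by simp [b, c]; omega)).1
    rw [update_of_ne c] at this
    exact this.trans (Nat.mul_le_mul_right _ (by omega))
  set Y₁ := σ.Y.filter fun y => bet y ∉ (R.sys τ₀).Q with hY₁
  have G1 : Good R ω K x m ⟨P, Y₁, σ.Cm⟩ := G.shrink (fun τ => (h1 τ).trans (hu τ))
    (fun τ hτ => by
      rw [h2 τ (by tauto), update_of_ne]
      rintro rfl
      rcases hτ with h | h
      · omega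
      · exact h0 h) (Finset.filter_subset _ _)
  have key : ∀ π π' y b b', St.In ⟨P, Y₁, σ.Cm⟩ π y → St.In ⟨P, Y₁, σ.Cm⟩ π' y →
      R.ans (Wd ω K x π y b) τ₀ = R.ans (Wd ω K x π' y b') τ₀ := by
    intro π π' y b b' h h'
    rw [ans_eq (G1.admW h b), ans_eq (G1.admW h' b')]
    refine (R.sys τ₀).dep _ _ fun w hw => ?_
    have hb : w ≠ bet y := by rintro rfl; exact (Finset.mem_filter.1 h.2).2 hw
    refine G1.agree h h' (fr_eq hb hb (Or.inl rfl)) ?_
    rintro τ k u rfl - a b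
    by_cases c : τ = τ₀
    · subst c
      rw [show St.P _ τ = P τ from rfl, hP0]
      refine ⟨by simp, fun p' hp' => ?_⟩
      rw [Finset.mem_singleton.1 hp']
      exact (G.adm τ p hp).2 τ le_rfl k u hw
    · refine (h3 τ (by simp [show τ ∉ σ.Cm from b, c]; omega)).2.2 ?_ k u hw
      have h5 := h4 τ a b c
      have h6 := hbig τ a b c
      by_contra h7
      have : (q + 1) * (P τ).card ≤ (q + 1) * 1 := Nat.mul_le_mul_left _ (by omega)
      omega
  let e : List Bool → Prop := fun y => ∀ π b, St.In ⟨P, Y₁, σ.Cm⟩ π y →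
    R.tr (R.ans (Wd ω K x π y b) τ₀) = []
  obtain ⟨Y₂, hs, hc, v, hv⟩ : ∃ Y₂ ⊆ Y₁, Y₁.card ≤ 2 * Y₂.card ∧ ∃ v, ∀ y ∈ Y₂, ∀ π b,
      St.In ⟨P, Y₁, σ.Cm⟩ π y → R.tr (R.ans (Wd ω K x π y b) τ₀) = v := by
    have hsum := Finset.card_filter_add_card_filter_not (s := Y₁) e
    by_cases hle : (Y₁.filter fun y => ¬ e y).card ≤ (Y₁.filter e).card
    · exact ⟨_, Finset.filter_subset e _, by omega, [], fun y hy => (Finset.mem_filter.1 hy).2⟩
    · refine ⟨_, Finset.filter_subset (fun y => ¬ e y) _, by omega, [false], fun y hy π b h => ?_⟩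
      have := (Finset.mem_filter.1 hy).2
      simp only [e, not_forall] at this
      obtain ⟨π', b', h', hne⟩ := this
      rw [key π π' y b b' h h']
      exact (htr _).resolve_left hne
  have hin : ∀ π y, St.In ⟨P, Y₂, insert τ₀ σ.Cm⟩ π y → St.In ⟨P, Y₁, σ.Cm⟩ π y :=
    fun π y h => ⟨h.1, hs h.2⟩
  refine ⟨⟨P, Y₂, insert τ₀ σ.Cm⟩, ⟨G1.adm, G1.short, fun y hy => G1.ylen y (hs hy), ?_, ?_⟩, rfl,
    fun π y h => ⟨fun τ => hu τ (h1 τ (h.1 τ)), Finset.filter_subset _ _ (hs h.2)⟩, ?_, ?_⟩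
  · intro τ hτ
    rcases Finset.mem_insert.1 hτ with rfl | hτ
    · exact ⟨p, hP0⟩
    · exact G1.one τ hτ
  · intro τ hτ π y b π' y' b' h h'
    by_cases c : τ = τ₀
    · subst c; rw [hv y h.2 π b (hin _ _ h), hv y' h'.2 π' b' (hin _ _ h')]
    · exact G1.val τ (by simpa [c] using hτ) π y b π' y' b' (hin _ _ h) (hin _ _ h')
  · have := card_drop_bet σ.Y (R.sys τ₀).Q
    rw [← hY₁] at this
    dsimp only; omega
  · intro τ a b
    simp only [Finset.mem_insert, not_or] at b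
    exact h4 τ a b.2 b.1

theorem hardF_Wd (π) {y : List Bool} (hy : y.length = x.length) (b) :
    hardF (R.O (Wd ω K x π y b)) K x = y := by
  refine List.ext_getElem (by rw [hardF_len, hy]) fun i h1 h2 => ?_
  have : hard K x i ∈ R.O (Wd ω K x π y b) ↔ y[i] = true := by
    rw [Par.O, mem_orc_free (by simp [hard])]
    simp only [Wd, fr, if_pos (⟨i, rfl⟩ : ∃ i', hard K x i = hard K x i'), decide_eq_true_eq]
    constructor
    · rintro ⟨i', h3, h4⟩
      obtain ⟨-, rfl⟩ := hard_inj rfl h3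
      rw [List.getElem?_eq_getElem h2] at h4; exact Option.some.inj h4
    · exact fun h => ⟨i, rfl, by rw [List.getElem?_eq_getElem h2, h]⟩
  simp [hardF, this]

theorem bet_Wd (π) (y : List Bool) (b) : bet y ∈ R.O (Wd ω K x π y b) ↔ b = true := by
  rw [Par.O, mem_orc_free (by simp [bet])]
  simp [Wd, fr, (hard_ne_bet K x y _).symm]

theorem Good.near (G : Good R ω K x m σ) {π y} (h : σ.In π y) (b) {N : ℕ} (hN : N < m)
    (hm : m ≤ x.length) : Near N ω (Wd ω K x π y b) := by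
  intro w hw
  have h1 := h.1 w
  rw [G.short w (by omega), Finset.mem_singleton] at h1
  have h2 : ¬ ∃ i, w = hard K x i := by rintro ⟨i, rfl⟩; rw [hard_len] at hw; omega
  have h3 : w ≠ bet y := by
    rintro rfl
    have := G.ylen y h.2
    simp [bet] at hw; omega
  simp [Wd, fr, h1, h2, h3]

end Pool.Agent.P.MP_d0c5d0_lc
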