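import Pool.Agent.P.MP_d0c5d0_lc.Host

/-! Binary counters on own tapes of a logarithmic space host. -/

namespace Pool.Agent.P.MP_d0c5d0_lc

open Classical Function

variable {α β Γ ι κ : Type}

/-- successor in bijective base 2 (`false` = digit 1, `true` = digit 2, lowest digit first) -/
def incL (l : List Bool) : List Bool :=
  List.rec [false] (fun b l r => Bool.casesOn (motive := fun _ => List Bool) b (true :: l) (false :: r)) l
/-- the tape holding the number `n` -/
def cn (n : ℕ) : ℤ → Option Bool := lay (incL^[n] [])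
/-- all own tapes are counters with values `v`, heads on cell 0 -/
def HS.cs (s : HS β Γ ι κ Bool) (v : κ → ℕ) : HS β Γ ι κ Bool :=
  {s with f := fun k => cn (v k), p := fun _ => 0}

theorem cs_zero (bl : Γ) : (hs0 bl : HS β Γ ι κ Bool).cs (fun _ => 0) = hs0 bl := by
  simp [HS.cs, hs0, cn, lay_nil]

theorem cs_ok {O} {x : List α} {B : ℕ} {s : HS β Γ ι κ Bool} (h : ∀ i, |s.hd i| ≤ (B : ℤ)) (v) :
    (s.cs v).ok (cS O x B) := ok_cS.2 ⟨h, fun _ => by simp [HS.cs]⟩

/-- value of a digit list -/
def cntVal (l : List Bool) : ℕ := l.foldr (fun b r => (cond b 2 1) + 2 * r) 0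

theorem cnt_incL_nil : incL [] = [false] := rfl
theorem cnt_incL_false (l : List Bool) : incL (false :: l) = true :: l := rfl
theorem cnt_incL_true (l : List Bool) : incL (true :: l) = false :: incL l := rfl

theorem cnt_val_inc (l : List Bool) : cntVal (incL l) = cntVal l + 1 := by
  induction l with
  | nil => rfl
  | cons b l ih =>
    cases b
    · rw [cnt_incL_false]
      simp only [cntVal, List.foldr_cons, cond_true, cond_false]
      omega
    · rw [cnt_incL_true]
      simp only [cntVal, List.foldr_cons, cond_true, cond_false] at ih ⊢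
      omega

theorem cnt_pow_le (l : List Bool) : 2 ^ l.length ≤ cntVal l + 1 := by
  induction l with
  | nil => exact le_rfl
  | cons b l ih =>
    rw [List.length_cons, pow_succ]
    cases b <;> simp only [cntVal, List.foldr_cons, cond_true, cond_false] at ih ⊢ <;> omega

theorem cnt_val_iter (n : ℕ) : cntVal (incL^[n] []) = n := by
  induction n with
  | zero => rfl
  | succ n ih => rw [iterate_succ_apply', cnt_val_inc, ih]

theorem cnt_len_le (n : ℕ) : (incL^[n] []).length ≤ Nat.log 2 (n + 2) := by
  refine Nat.le_log_of_pow_le (by norm_num) ?_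
  have := cnt_pow_le (incL^[n] [])
  rw [cnt_val_iter] at this
  omega

theorem cnt_inc_cons (l : List Bool) : ∃ b r, incL l = b :: r := by
  rcases l with _ | ⟨b, l⟩
  · exact ⟨_, _, rfl⟩
  · cases b <;> exact ⟨_, _, rfl⟩

theorem cnt_len_inc (l : List Bool) : l.length ≤ (incL l).length := by
  induction l with
  | nil => simp
  | cons b l ih =>
    cases b
    · simp [cnt_incL_false]
    · simpa [cnt_incL_true] using ih

/-- the state with tape `k` and its head replaced -/
noncomputable def cntSt (s : HS β Γ ι κ Bool) (k : κ) (g : ℤ → Option Bool) (z : ℤ) :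
    HS β Γ ι κ Bool := {s with f := update s.f k g, p := update s.p k z}

section prim

variable {bl : Γ} {O : Set (List Bool)} {x : List α} {B : ℕ} {s : HS β Γ ι κ Bool} {k : κ}
  {g : ℤ → Option Bool} {z : ℤ}

theorem cnt_ok (h : s.ok (cS O x B)) (hz : |z| ≤ (B : ℤ)) : (cntSt s k g z).ok (cS O x B) := by
  rw [ok_cS] at h ⊢
  refine ⟨h.1, fun j => ?_⟩
  by_cases hj : j = k
  · subst hj; simpa [cntSt] using hz
  · simpa [cntSt, hj] using h.2 j

theorem cnt_look (h : s.ok (cS O x B)) (hz : |z| ≤ (B : ℤ)) {r : Option Bool} (hr : g z = r) :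
    Pg.Hv (look k) bl (cS O x B) (cntSt s k g z) 1 r (cntSt s k g z) :=
  (hv_look k (cnt_ok h hz)).cast (by simpa [cntSt] using hr) rfl

theorem cnt_wr (h : s.ok (cS O x B)) (hz : |z| ≤ (B : ℤ)) (w : Option Bool)
    {g' : ℤ → Option Bool} (hg : update g z w = g') :
    Pg.Hv (wr k w) bl (cS O x B) (cntSt s k g z) 1 () (cntSt s k g' z) :=
  (hv_wr k w (cnt_ok h hz)).cast rfl (by simp [cntSt, hg])

theorem cnt_mv (h : s.ok (cS O x B)) (hz : |z| ≤ (B : ℤ)) (m : SignType) {z' : ℤ}
    (hm : z + m = z') (hz' : |z'| ≤ (B : ℤ)) :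
    Pg.Hv (mv k m) bl (cS O x B) (cntSt s k g z) 1 () (cntSt s k g z') := by
  have e : ({cntSt s k g z with
      p := update (cntSt s k g z).p k ((cntSt s k g z).p k + m)} : HS β Γ ι κ Bool)
      = cntSt s k g z' := by simp [cntSt, hm]
  exact (hv_mv k m (cnt_ok h hz) (by rw [e]; exact cnt_ok h hz')).cast rfl e

end prim

/-- return the head to cell 0 -/
noncomputable def cntHome (k : κ) : HP α β Γ ι κ Bool Unit :=
  (whl (testT k Option.isSome) (mv k (-1))).seq (mv k 1)

/-- carry loop of the increment -/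
noncomputable def cntInc (k : κ) : HP α β Γ ι κ Bool Unit :=
  Pg.iter (fun _ : Unit => (look k).bind fun r =>
    match r with
    | some true => (wr k (some false)).seq ((mv k 1).seq (ret (Sum.inl ())))
    | some false => (wr k (some true)).seq (ret (Sum.inr ()))
    | none => (wr k (some false)).seq (ret (Sum.inr ()))) ()

/-- borrow loop of the decrement -/
noncomputable def cntDec (k : κ) : HP α β Γ ι κ Bool Unit :=
  Pg.iter (fun _ : Unit => (look k).bind fun r =>
    match r with
    | some true => (wr k (some false)).seq (ret (Sum.inr ()))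
    | some false => (wr k (some true)).seq ((mv k 1).seq ((look k).bind fun r' =>
        match r' with
        | some _ => ret (Sum.inl ())
        | none => (mv k (-1)).seq ((wr k none).seq ((mv k (-1)).seq (ret (Sum.inr ()))))))
    | none => ret (Sum.inr ())) ()

theorem cnt_det_home (k : κ) : (cntHome k : HP α β Γ ι κ Bool Unit).Det :=
  det_seq (det_whl (det_testT _ _) (det_mv _ _)) (det_mv _ _)

theorem cnt_det_inc (k : κ) : (cntInc k : HP α β Γ ι κ Bool Unit).Det := by
  refine det_iter (fun _ => det_bind (det_look k) fun r => ?_) _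
  rcases r with _ | _ | _
  · exact det_seq (det_wr _ _) (det_ret _)
  · exact det_seq (det_wr _ _) (det_ret _)
  · exact det_seq (det_wr _ _) (det_seq (det_mv _ _) (det_ret _))

theorem cnt_det_dec (k : κ) : (cntDec k : HP α β Γ ι κ Bool Unit).Det := by
  refine det_iter (fun _ => det_bind (det_look k) fun r => ?_) _
  rcases r with _ | _ | _
  · exact det_ret _
  · refine det_seq (det_wr _ _) (det_seq (det_mv _ _) (det_bind (det_look k) fun r' => ?_))
    rcases r' with _ | _
    · exact det_seq (det_mv _ _) (det_seq (det_wr _ _) (det_seq (det_mv _ _) (det_ret _)))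
    · exact det_ret _
  · exact det_seq (det_wr _ _) (det_ret _)

section loops

variable {bl : Γ} {O : Set (List Bool)} {x : List α} {B : ℕ} {s : HS β Γ ι κ Bool} {k : κ}

theorem cnt_back (h : s.ok (cS O x B)) (l : List Bool) (hB : l.length + 1 ≤ B) (n : ℕ)
    (hn : n ≤ l.length) : ∃ t, Pg.Hv (whl (testT k Option.isSome) (mv k (-1))) bl (cS O x B)
      (cntSt s k (lay l) ((n : ℤ) - 1)) t () (cntSt s k (lay l) (-1)) := by
  induction n with
  | zero =>
    refine ⟨_, (hv_whl_stop ((hv_testT k _ (cnt_ok h ?_)).cast ?_ rfl)).cast rfl (by simp)⟩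
    · rw [abs_le]; omega
    · simp [cntSt, lay]
  | succ n ih =>
    obtain ⟨t, ht⟩ := ih (by omega)
    have h1 : |((n + 1 : ℕ) : ℤ) - 1| ≤ (B : ℤ) := by rw [abs_le]; omega
    refine ⟨_, hv_whl_more ((hv_testT k _ (cnt_ok h h1)).cast ?_ rfl)
      (cnt_mv h h1 (-1) (by simp [sub_eq_add_neg]) (by rw [abs_le]; omega)) ht⟩
    have h2 : n < l.length := by omega
    simp [cntSt, lay_nat, h2]

theorem cnt_home (h : s.ok (cS O x B)) (l : List Bool) (hB : l.length + 1 ≤ B) (n : ℕ)
    (hn : n ≤ l.length) : ∃ t, Pg.Hv (cntHome k) bl (cS O x B)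
      (cntSt s k (lay l) ((n : ℤ) - 1)) t () (cntSt s k (lay l) 0) := by
  obtain ⟨t, ht⟩ := cnt_back (bl := bl) (k := k) h l hB n hn
  exact ⟨_, hv_seq ht (cnt_mv h (by rw [abs_le]; omega) 1 (by simp) (by simp))⟩

theorem cnt_inc (h : s.ok (cS O x B)) (l a : List Bool) (hB : a.length + l.length + 1 ≤ B) :
    ∃ t, ∃ n : ℕ, n ≤ (a ++ incL l).length ∧ Pg.Hv (cntInc k) bl (cS O x B)
      (cntSt s k (lay (a ++ l)) a.length) t () (cntSt s k (lay (a ++ incL l)) ((n : ℤ) - 1)) := by
  induction l generalizing a with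
  | nil =>
    have h1 : |(a.length : ℤ)| ≤ (B : ℤ) := by rw [abs_le]; omega
    refine ⟨_, a.length + 1, by simp [cnt_incL_nil], (hv_iter_done (hv_bind
      (cnt_look h h1 (r := none) (by rw [List.append_nil, lay_len]))
      (hv_seq (cnt_wr h h1 _ (g' := lay (a ++ [false]))
        (by rw [List.append_nil, update_lay_end])) (hv_ret _ (cnt_ok h h1))))).cast rfl ?_⟩
    simp [cnt_incL_nil]
  | cons b l ih =>
    rw [List.length_cons] at hB
    have h1 : |(a.length : ℤ)| ≤ (B : ℤ) := by rw [abs_le]; omega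
    cases b
    · refine ⟨_, a.length + 1, by simp [cnt_incL_false], (hv_iter_done (hv_bind
        (cnt_look h h1 (lay_mid a l false))
        (hv_seq (cnt_wr h h1 _ (update_lay_mid a l false true))
          (hv_ret _ (cnt_ok h h1))))).cast rfl ?_⟩
      simp [cnt_incL_false]
    · obtain ⟨t, n, hn, ht⟩ := ih (a ++ [false]) (by simp; omega)
      simp only [List.append_assoc, List.singleton_append] at hn ht
      have h2 : |((a ++ [false]).length : ℤ)| ≤ (B : ℤ) := by rw [abs_le]; simp; omega
      exact ⟨_, n, hn, hv_iter_more (hv_bind (cnt_look h h1 (lay_mid a l true))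
        (hv_seq (cnt_wr h h1 _ (update_lay_mid a l true false))
          (hv_seq (cnt_mv h h1 1 (by simp) h2) (hv_ret _ (cnt_ok h h2))))) ht⟩

theorem cnt_dec (h : s.ok (cS O x B)) (l a : List Bool) (hB : a.length + l.length + 1 ≤ B) :
    ∃ t, ∃ n : ℕ, n ≤ (a ++ l).length ∧ Pg.Hv (cntDec k) bl (cS O x B)
      (cntSt s k (lay (a ++ incL l)) a.length) t () (cntSt s k (lay (a ++ l)) ((n : ℤ) - 1)) := by
  induction l generalizing a with
  | nil =>
    have h1 : |(a.length : ℤ)| ≤ (B : ℤ) := by rw [abs_le]; omega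
    have h2 : |((a ++ [true]).length : ℤ)| ≤ (B : ℤ) := by rw [abs_le]; simp at hB ⊢; omega
    have h3 : |(a.length : ℤ) - 1| ≤ (B : ℤ) := by rw [abs_le]; omega
    refine ⟨_, a.length, by simp, (hv_iter_done (hv_bind
      (cnt_look h h1 (lay_mid a [] false))
      (hv_seq (cnt_wr h h1 _ (update_lay_mid a [] false true))
        (hv_seq (cnt_mv h h1 1 (by simp) h2) (hv_bind (cnt_look h h2 (lay_len _))
          (hv_seq (cnt_mv h h2 (-1) (by simp) h1)
            (hv_seq (cnt_wr h h1 _ (update_lay_erase a true))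
              (hv_seq (cnt_mv h h1 (-1) (by simp [sub_eq_add_neg]) h3)
                (hv_ret _ (cnt_ok h h3)))))))))).cast rfl ?_⟩
    simp
  | cons b l ih =>
    rw [List.length_cons] at hB
    have h1 : |(a.length : ℤ)| ≤ (B : ℤ) := by rw [abs_le]; omega
    cases b
    · refine ⟨_, a.length + 1, by simp, (hv_iter_done (hv_bind
        (cnt_look h h1 (lay_mid a l true))
        (hv_seq (cnt_wr h h1 _ (update_lay_mid a l true false))
          (hv_ret _ (cnt_ok h h1))))).cast rfl ?_⟩
      simp
    · obtain ⟨t, n, hn, ht⟩ := ih (a ++ [true]) (by simp; omega)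
      simp only [List.append_assoc, List.singleton_append] at hn ht
      have h2 : |((a ++ [true]).length : ℤ)| ≤ (B : ℤ) := by rw [abs_le]; simp; omega
      obtain ⟨c, r, hc⟩ := cnt_inc_cons l
      have h3 : lay (a ++ true :: incL l) ((a ++ [true]).length : ℤ) = some c := by
        have := lay_mid (a ++ [true]) r c
        rwa [List.append_assoc, List.singleton_append, ← hc] at this
      exact ⟨_, n, hn, hv_iter_more (hv_bind (cnt_look h h1 (lay_mid a (incL l) false))
        (hv_seq (cnt_wr h h1 _ (update_lay_mid a (incL l) false true))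
          (hv_seq (cnt_mv h h1 1 (by simp) h2) (hv_bind (cnt_look h h2 h3)
            (hv_ret _ (cnt_ok h h2)))))) ht⟩

end loops

theorem cnt_st_cs (s : HS β Γ ι κ Bool) (v : κ → ℕ) (k : κ) (n : ℕ) :
    cntSt (s.cs v) k (lay (incL^[n] [])) 0 = s.cs (update v k n) := by
  simp only [cntSt, HS.cs, HS.mk.injEq, true_and, and_true]
  constructor
  · funext j
    by_cases hj : j = k
    · subst hj; simp [cn]
    · simp [hj]
  · funext j
    by_cases hj : j = k
    · subst hj; simp
    · simp [hj]

/-- increment; decrement with zero test (returns true iff the value was positive) -/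
theorem cnt_ex (α β Γ ι : Type) {κ : Type} (k : κ) :
    ∃ (inc : HP α β Γ ι κ Bool Unit) (dec : HP α β Γ ι κ Bool Bool), inc.Det ∧ dec.Det ∧
      ∀ (bl : Γ) (O : Set (List Bool)) (x : List α) (B : ℕ) (s : HS β Γ ι κ Bool) (v : κ → ℕ),
        (∀ i, |s.hd i| ≤ (B : ℤ)) → Nat.log 2 (v k + 2) + 2 ≤ B →
        (∃ t, Pg.Hv inc bl (cS O x B) (s.cs v) t () (s.cs (update v k (v k + 1)))) ∧
        (∃ t, Pg.Hv dec bl (cS O x B) (s.cs v) t (decide (0 < v k))
          (s.cs (update v k (v k - 1)))) := by
  refine ⟨(cntInc k).seq (cntHome k), (look k).bind fun r =>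
    Option.casesOn (motive := fun _ => HP α β Γ ι κ Bool Bool) r (ret false)
      (fun _ => (cntDec k).seq ((cntHome k).seq (ret true))),
    det_seq (cnt_det_inc k) (cnt_det_home k), det_bind (det_look k) fun r => ?_, ?_⟩
  · cases r
    · exact det_ret _
    · exact det_seq (cnt_det_dec k) (det_seq (cnt_det_home k) (det_ret _))
  intro bl O x B s v hs hB
  have h : (s.cs v).ok (cS O x B) := cs_ok hs v
  have e0 : cntSt (s.cs v) k (lay (incL^[v k] [])) 0 = s.cs v := by
    rw [cnt_st_cs, update_eq_self]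
  have h0 : |(0 : ℤ)| ≤ (B : ℤ) := by simp
  have l0 := cnt_len_le (v k)
  constructor
  · obtain ⟨t, n, hn, ht⟩ := cnt_inc (bl := bl) (k := k) h (incL^[v k] []) [] (by simp; omega)
    simp only [List.nil_append, List.length_nil, Nat.cast_zero] at hn ht
    rw [e0, ← iterate_succ_apply' incL] at ht
    rw [← iterate_succ_apply' incL] at hn
    have l1 : (incL^[(v k).succ] []).length ≤ Nat.log 2 (v k + 2) := by
      refine Nat.le_log_of_pow_le (by norm_num) ?_
      have := cnt_pow_le (incL^[(v k).succ] [])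
      rw [cnt_val_iter] at this
      omega
    obtain ⟨t', ht'⟩ := cnt_home (bl := bl) (k := k) h _ (by omega) n hn
    exact ⟨_, (hv_seq ht ht').cast rfl (cnt_st_cs s v k _)⟩
  · rcases hv : v k with _ | m
    · rw [hv] at e0
      have h1 := cnt_look (bl := bl) (k := k) (g := lay (incL^[0] [])) h h0 (r := none)
        (by simp [lay])
      rw [e0] at h1
      refine ⟨_, (hv_bind h1 (hv_ret false h)).cast (by simp) ?_⟩
      rw [Nat.zero_sub, ← hv, update_eq_self]
    · rw [hv, iterate_succ_apply'] at e0 l0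
      rw [hv] at hB
      have l1 := cnt_len_inc (incL^[m] [])
      obtain ⟨t, n, hn, ht⟩ := cnt_dec (bl := bl) (k := k) h (incL^[m] []) [] (by simp; omega)
      simp only [List.nil_append, List.length_nil, Nat.cast_zero] at hn ht
      obtain ⟨t', ht'⟩ := cnt_home (bl := bl) (k := k) h _ (by omega) n hn
      obtain ⟨c, r, hc⟩ := cnt_inc_cons (incL^[m] [])
      have h1 := cnt_look (bl := bl) (k := k) (g := lay (incL (incL^[m] []))) h h0
        (r := some c) (by rw [hc]; simp [lay])
      have h2 := hv_bind (K := fun r =>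
        Option.casesOn (motive := fun _ => HP α β Γ ι κ Bool Bool) r (ret false)
          (fun _ => (cntDec k).seq ((cntHome k).seq (ret true)))) h1
        (hv_seq ht (hv_seq ht' (hv_ret true ht'.ok1)))
      rw [e0] at h2
      exact ⟨_, h2.cast (by simp) (cnt_st_cs s v k _)⟩

end Pool.Agent.P.MP_d0c5d0_lc
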