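import Pool.Agent.P.MP_d0c5d0_lc.Defs

/-! Codes and oracle cells. -/

namespace Pool.Agent.P.MP_d0c5d0_lc

open Classical List

variable {α β : Type}

/-- self-delimiting code of a bit string -/
def enc (u : List Bool) : List Bool := u.flatMap (fun b => [true, b]) ++ [false]
/-- code of a letter -/
def cod1 (idx : α → ℕ) (a : α) : List Bool := replicate (idx a) true ++ [false]
/-- code of a word -/
def code (idx : α → ℕ) (x : List α) : List Bool := x.flatMap (cod1 idx)
/-- name of the pair (machine number `e`, input `x`) -/
def tau (e : ℕ) (idx : α → ℕ) (x : List α) : List Bool := replicate e true ++ false :: code idx x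
/-- coding cells -/
def cell (τ : List Bool) (m : ℕ) (u : List Bool) : List Bool :=
  true :: (enc τ ++ (replicate m true ++ false :: u))
/-- long free cells -/
def hard (K : ℕ) (x : List Bool) (i : ℕ) : List Bool :=
  false :: true :: (x ++ (replicate i true ++ false :: replicate (x.length ^ K) true))
/-- short free cells -/
def bet (y : List Bool) : List Bool := false :: false :: y
/-- the word read off the long free cells -/
noncomputable def hardF (O : Set (List Bool)) (K : ℕ) (x : List Bool) : List Bool :=
  (List.range x.length).map fun i => decide (hard K x i ∈ O)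
/-- the graph of `f` -/
def Graph (f : List α → List β) : Set (List (α ⊕ β)) :=
  {z | ∃ x, z = x.map Sum.inl ++ (f x).map Sum.inr}
/-- the oracle stores `f x` behind a password in the cells of `tau e idx x` with padding `n ^ j` -/
def Coded (O : Set (List Bool)) (j e : ℕ) (idx : α → ℕ) (idy : β → ℕ) (f : List α → List β) : Prop :=
  ∀ x, ∃ p : List Bool, p.length ≤ 4 * (tau e idx x).length + 3 ∧
    ∀ u, cell (tau e idx x) ((tau e idx x).length ^ j) u ∈ O ↔ u <+: enc p ++ code idy (f x)
/-- the indicator of a language as a function to words over `Unit` -/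
noncomputable def ind (A : Set (List α)) (x : List α) : List Unit := if x ∈ A then [()] else []

theorem enc_nil : enc [] = [false] := rfl
theorem enc_cons (b : Bool) (u : List Bool) : enc (b :: u) = true :: b :: enc u := rfl
theorem enc_len (u : List Bool) : (enc u).length = 2 * u.length + 1 := by
  induction u with
  | nil => rfl
  | cons b u ih => rw [enc_cons]; simp [ih]; omega

theorem enc_app_inj {p p' u u' : List Bool} (h : enc p ++ u = enc p' ++ u') : p = p' ∧ u = u' := by
  induction p generalizing p' with
  | nil => cases p' with
    | nil => simpa [enc_nil] using h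
    | cons b p' => simp [enc_nil, enc_cons] at h
  | cons a p ih => cases p' with
    | nil => simp [enc_nil, enc_cons] at h
    | cons b p' =>
      simp only [enc_cons, cons_append, cons.injEq, true_and] at h
      obtain ⟨h1, h2⟩ := ih h.2
      exact ⟨by rw [h.1, h1], h2⟩

theorem enc_pre_inj {p p' u : List Bool} (h : enc p <+: u) (h' : enc p' <+: u) : p = p' := by
  obtain ⟨a, rfl⟩ := h; obtain ⟨b, hb⟩ := h'
  exact (enc_app_inj hb).1.symm

theorem rep_inj {m m' : ℕ} {u u' : List Bool}
    (h : replicate m true ++ false :: u = replicate m' true ++ false :: u') : m = m' ∧ u = u' := by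
  induction m generalizing m' with
  | zero => cases m' with
    | zero => simpa using h
    | succ m' => simp [replicate_succ] at h
  | succ m ih => cases m' with
    | zero => simp [replicate_succ] at h
    | succ m' =>
      simp only [replicate_succ, cons_append, cons.injEq, true_and] at h
      exact ⟨by rw [(ih h).1], (ih h).2⟩

theorem cell_inj {τ τ' u u' : List Bool} {m m' : ℕ} (h : cell τ m u = cell τ' m' u') :
    τ = τ' ∧ m = m' ∧ u = u' := by
  simp only [cell, cons.injEq, true_and] at h
  obtain ⟨h1, h2⟩ := enc_app_inj h
  exact ⟨h1, rep_inj h2⟩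

theorem cell_len (τ u : List Bool) (m : ℕ) :
    (cell τ m u).length = 2 * τ.length + m + u.length + 3 := by
  simp [cell, enc_len]; omega

theorem cell_head (τ u : List Bool) (m : ℕ) : (cell τ m u).head? = some true := rfl

theorem code_nil (idx : α → ℕ) : code idx [] = [] := rfl
theorem code_cons (idx : α → ℕ) (a : α) (x : List α) :
    code idx (a :: x) = replicate (idx a) true ++ false :: code idx x := by simp [code, cod1]
theorem code_append (idx : α → ℕ) (x y : List α) : code idx (x ++ y) = code idx x ++ code idx y := by
  simp [code]

theorem code_pre {idx : α → ℕ} (hi : Function.Injective idx) {x y : List α} :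
    code idx x <+: code idx y ↔ x <+: y := by
  refine ⟨fun h => ?_, fun ⟨z, hz⟩ => ⟨code idx z, by rw [← code_append, hz]⟩⟩
  induction x generalizing y with
  | nil => exact nil_prefix
  | cons a x ih =>
    obtain ⟨z, hz⟩ := h
    cases y with
    | nil => simp [code_cons, code_nil] at hz
    | cons b y =>
      rw [code_cons, code_cons, append_assoc, cons_append] at hz
      obtain ⟨h1, h2⟩ := rep_inj hz
      rw [hi h1]
      exact (cons_prefix_cons).2 ⟨rfl, ih ⟨z, h2⟩⟩

theorem code_inj {idx : α → ℕ} (hi : Function.Injective idx) {x y : List α}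
    (h : code idx x = code idx y) : x = y :=
  ((code_pre hi).1 (h ▸ prefix_rfl)).eq_of_length_le
    ((code_pre hi).1 (h ▸ prefix_rfl : code idx y <+: code idx x)).length_le

theorem code_len_ge (idx : α → ℕ) (x : List α) : x.length ≤ (code idx x).length := by
  induction x with
  | nil => simp
  | cons a x ih => rw [code_cons]; simp; omega

theorem code_len_le (idx : α → ℕ) {c : ℕ} (hc : ∀ a, idx a ≤ c) (x : List α) :
    (code idx x).length ≤ (c + 1) * x.length := by
  induction x with
  | nil => simp [code_nil]
  | cons a x ih => have := hc a; rw [code_cons]; simp [Nat.mul_succ]; omega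

theorem tau_len (e : ℕ) (idx : α → ℕ) (x : List α) :
    (tau e idx x).length = e + 1 + (code idx x).length := by simp [tau]; omega

theorem hard_len (K : ℕ) (x : List Bool) (i : ℕ) :
    (hard K x i).length = x.length + i + x.length ^ K + 3 := by simp [hard]; omega

theorem hard_inj {K : ℕ} {x x' : List Bool} {i i' : ℕ} (hl : x.length = x'.length)
    (h : hard K x i = hard K x' i') : x = x' ∧ i = i' := by
  simp only [hard, cons.injEq, true_and] at h
  obtain ⟨h1, h2⟩ := append_inj h hl
  exact ⟨h1, (rep_inj h2).1⟩

theorem hard_ne_bet (K : ℕ) (x y : List Bool) (i : ℕ) : hard K x i ≠ bet y := by simp [hard, bet]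
theorem bet_inj {y y' : List Bool} (h : bet y = bet y') : y = y' := by simpa [bet] using h
theorem hardF_len (O : Set (List Bool)) (K : ℕ) (x : List Bool) : (hardF O K x).length = x.length := by
  simp [hardF]

theorem idx_bdd [Finite α] (idx : α → ℕ) : ∃ c, ∀ a, idx a ≤ c :=
  let ⟨c, hc⟩ := (Set.finite_range idx).bddAbove; ⟨c, fun a => hc ⟨a, rfl⟩⟩

end Pool.Agent.P.MP_d0c5d0_lc
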