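import Pool.Agent.P.MP_d0c5d0_lc.Orc

/-! Counting passwords. -/

namespace Pool.Agent.P.MP_d0c5d0_lc

open Classical Function

theorem count_words (n : ℕ) :
    ∃ W : Finset (List Bool), W.card = 2 ^ n ∧ ∀ w, w ∈ W ↔ w.length = n := by
  refine ⟨Finset.univ.image (List.ofFn : (Fin n → Bool) → List Bool), ?_, fun w => ?_⟩
  · rw [Finset.card_image_of_injective _ List.ofFn_injective]
    simp
  · simp only [Finset.mem_image, Finset.mem_univ, true_and]
    refine ⟨fun ⟨f, hf⟩ => hf ▸ List.length_ofFn, ?_⟩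
    rintro rfl
    exact ⟨w.get, List.ofFn_get w⟩

theorem Z_card (R : Par) (m : ℕ) : (R.Z m).card ≤ 2 ^ (2 * m) := by
  obtain ⟨W, hW, hm⟩ := count_words m
  have h1 : (List.finite_length_lt Bool m).toFinset.card ≤ 2 ^ m := by
    rw [← hW]
    refine Finset.card_le_card_of_injOn
      (fun τ => List.replicate (m - 1 - τ.length) true ++ false :: τ) (fun τ hτ => ?_)
      fun _ _ _ _ h => (rep_inj h).2
    have : τ.length < m := by simpa using hτ
    refine (hm _).2 ?_
    simp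
    omega
  rw [two_mul, pow_add]
  refine (Finset.card_biUnion_le_card_mul _ _ (2 ^ m) fun τ hτ => (R.small τ).trans ?_).trans
    (Nat.mul_le_mul_right _ h1)
  have : τ.length < m := by simpa using hτ
  exact Nat.pow_le_pow_right two_pos ((Nat.sqrt_le_self _).trans this.le)

/-- words of a given length -/
theorem words_ex (n : ℕ) : ∃ W : Finset (List Bool), W.card = 2 ^ n ∧ ∀ w, w ∈ W ↔ w.length = n :=
  count_words n

theorem adm_ex (R : Par) (τ : List Bool) :
    ∃ P : Finset (List Bool), 2 ^ (4 * τ.length + 2) ≤ P.card ∧ ∀ p ∈ P, R.Adm τ p := by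
  obtain ⟨W, hW, hm⟩ := words_ex (4 * τ.length + 3)
  refine ⟨W.filter (R.Adm τ), ?_, fun p hp => (Finset.mem_filter.1 hp).2⟩
  have h1 : (W.filter fun p => ¬ R.Adm τ p).card ≤ (R.Z (τ.length + 1)).card := by
    refine Finset.card_le_card_of_forall_subsingleton
      (fun p w => ∃ m u, w = cell τ m u ∧ enc p <+: u) (fun p hp => ?_) ?_
    · obtain ⟨h1, h2⟩ := Finset.mem_filter.1 hp
      by_contra h
      exact h2 ⟨(hm p).1 h1, fun τ' hτ m u hc hu =>
        h ⟨_, mem_Z.2 ⟨τ', Nat.lt_succ_of_le hτ, hc⟩, m, u, rfl, hu⟩⟩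
    · rintro w - p ⟨-, m, u, rfl, hu⟩ p' ⟨-, m', u', e, hu'⟩
      exact enc_pre_inj hu ((cell_inj e).2.2 ▸ hu')
  have h2 := Finset.card_filter_add_card_filter_not (s := W) (R.Adm τ)
  have h3 := Z_card R (τ.length + 1)
  have h4 : 2 ^ (2 * (τ.length + 1)) ≤ 2 ^ (4 * τ.length + 2) :=
    Nat.pow_le_pow_right two_pos (by omega)
  rw [hW, pow_succ] at h2
  omega

/-- one class of passwords answers all questions of `U` alike; a class with two passwords reveals none -/
theorem resolve (P U : Finset (List Bool)) (l : ℕ) (hP : ∀ p ∈ P, p.length = l) :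
    ∃ P' ⊆ P, P.card ≤ (U.card + 1) * P'.card ∧
      (∀ u ∈ U, ∀ p ∈ P', ∀ p' ∈ P', (u <+: enc p ↔ u <+: enc p')) ∧
      (2 ≤ P'.card → ∀ u ∈ U, ∀ p ∈ P', ¬ enc p <+: u) := by
  have hk : ∀ p : List Bool, ∃ k ∈ insert [] (U.image (List.take (2 * l + 1))), k <+: enc p ∧
      ∀ u ∈ U, u.take (2 * l + 1) <+: enc p → u.take (2 * l + 1) <+: k := by
    intro p
    obtain ⟨k, h1, h2⟩ := Finset.exists_max_image
      ((insert [] (U.image (List.take (2 * l + 1)))).filter (· <+: enc p)) List.length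
      ⟨[], Finset.mem_filter.2 ⟨Finset.mem_insert_self _ _, List.nil_prefix⟩⟩
    obtain ⟨h3, h4⟩ := Finset.mem_filter.1 h1
    exact ⟨k, h3, h4, fun u hu h5 => List.prefix_of_prefix_length_le h5 h4 (h2 _
      (Finset.mem_filter.2 ⟨Finset.mem_insert_of_mem (Finset.mem_image_of_mem _ hu), h5⟩))⟩
  choose key k1 k2 k3 using hk
  obtain ⟨k, -, hk⟩ := Finset.exists_max_image (insert [] (U.image (List.take (2 * l + 1))))
    (fun k => (P.filter fun p => key p = k).card) (Finset.insert_nonempty _ _)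
  have main : ∀ u ∈ U, ∀ p ∈ P.filter fun p => key p = k, ∀ p' ∈ P.filter fun p => key p = k,
      u.take (2 * l + 1) <+: enc p → u.take (2 * l + 1) <+: enc p' := fun u hu p hp p' hp' h =>
    (k3 p u hu h).trans (by
      rw [(Finset.mem_filter.1 hp).2, ← (Finset.mem_filter.1 hp').2]
      exact k2 p')
  have main2 : ∀ u ∈ U, ∀ p ∈ P.filter fun p => key p = k, ∀ p' ∈ P.filter fun p => key p = k,
      u <+: enc p → u <+: enc p' := by
    intro u hu p hp p' hp' h
    have h1 := h.length_le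
    rw [enc_len, hP p (Finset.mem_filter.1 hp).1] at h1
    have h2 := main u hu p hp p' hp'
    rw [List.take_of_length_le h1] at h2
    exact h2 h
  refine ⟨P.filter fun p => key p = k, Finset.filter_subset _ _, ?_,
    fun u hu p hp p' hp' => ⟨main2 u hu p hp p' hp', main2 u hu p' hp' p hp⟩,
    fun h2 u hu p hp h => ?_⟩
  · refine (Finset.card_le_mul_card_image_of_maps_to (fun p _ => k1 p) _ hk).trans ?_
    rw [mul_comm]
    exact Nat.mul_le_mul_right _ ((Finset.card_insert_le _ _).trans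
      (Nat.succ_le_succ Finset.card_image_le))
  · obtain ⟨p', hp', hne⟩ := Finset.exists_mem_ne h2 p
    have h3 := main u hu p hp p' hp'
    rw [← hP p (Finset.mem_filter.1 hp).1, ← enc_len, ← List.prefix_iff_eq_take.1 h] at h3
    exact hne (enc_pre_inj List.prefix_rfl (h3 List.prefix_rfl))

/-- an input whose long cells avoid a small set -/
theorem fresh_ex (S : Finset (List Bool)) (K n : ℕ) (h : S.card < 2 ^ n) :
    ∃ x : List Bool, x.length = n ∧ ∀ i, hard K x i ∉ S := by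
  obtain ⟨W, hW, hm⟩ := words_ex n
  by_contra hc
  refine h.not_ge (hW ▸ Finset.card_le_card_of_forall_subsingleton
    (fun x w => ∃ i, w = hard K x i) (fun x hx => ?_) ?_)
  · by_contra h1
    exact hc ⟨x, (hm x).1 hx, fun i hi => h1 ⟨_, hi, i, rfl⟩⟩
  · rintro w - x ⟨hx, i, rfl⟩ x' ⟨hx', i', e⟩
    exact (hard_inj (((hm x).1 hx).trans ((hm x').1 hx').symm) e).1

/-- finite extension argument -/
theorem fusion (R : Par) (Rq : ℕ → World → Prop)
    (h : ∀ e ω N, R.AdmW ω → ∃ ω' N', R.AdmW ω' ∧ Near N ω ω' ∧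
      ∀ ω'', R.AdmW ω'' → Near N' ω' ω'' → Rq e ω'') : ∃ ω, R.AdmW ω ∧ ∀ e, Rq e ω := by
  have h0 : ∀ τ, ∃ p, R.Adm τ p := fun τ => by
    obtain ⟨P, h1, h2⟩ := adm_ex R τ
    obtain ⟨p, hp⟩ := Finset.card_pos.1 ((Nat.two_pow_pos _).trans_le h1)
    exact ⟨p, h2 p hp⟩
  choose p hp using h0
  have h1 : ∀ (e : ℕ) (c : {ω // R.AdmW ω} × ℕ), ∃ c' : {ω // R.AdmW ω} × ℕ, c.2 < c'.2 ∧
      Near c.2 c.1.1 c'.1.1 ∧ ∀ ω'', R.AdmW ω'' → Near c'.2 c'.1.1 ω'' → Rq e ω'' := by
    intro e c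
    obtain ⟨ω', N', a1, a2, a3⟩ := h e c.1.1 c.2 c.1.2
    exact ⟨(⟨ω', a1⟩, max N' (c.2 + 1)), lt_max_of_lt_right (Nat.lt_succ_self _), a2,
      fun ω'' b1 b2 => a3 ω'' b1 fun w hw => b2 w (le_max_of_le_left hw)⟩
  choose F f1 f2 f3 using h1
  obtain ⟨s, hs⟩ : ∃ s : ℕ → {ω // R.AdmW ω} × ℕ, ∀ e, s (e + 1) = F e (s e) :=
    ⟨fun n => Nat.rec (⟨fun τ => (p τ, true), hp⟩, 0) F n, fun _ => rfl⟩
  have mono : StrictMono fun e => (s e).2 := strictMono_nat_of_lt_succ fun e => by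
    rw [hs]
    exact f1 e _
  have near : ∀ e e', e ≤ e' → Near (s e).2 (s e).1.1 (s e').1.1 := by
    intro e e' he
    induction he with
    | refl => exact fun _ _ => rfl
    | step he ih =>
      intro w hw
      rw [ih w hw, Nat.succ_eq_add_one, hs]
      exact f2 _ _ w (hw.trans (mono.monotone he))
  refine ⟨fun w => (s w.length).1.1 w, fun τ => (s τ.length).1.2 τ, fun e => f3 e (s e) _
    (fun τ => (s τ.length).1.2 τ) fun w hw => ?_⟩
  rw [← hs] at hw ⊢
  rcases le_total (e + 1) w.length with q | q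
  · exact near _ _ q w hw
  · exact (near _ _ q w (mono.id_le _)).symm

end Pool.Agent.P.MP_d0c5d0_lc
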