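import Pool.Agent.P.MP_d0c5d0_lc.Host

/-! Running a machine on a virtual input stored on an own tape. -/

namespace Pool.Agent.P.MP_d0c5d0_lc

open Classical Function

variable {α β α' Γ ι κ X : Type}

/-- the tapes `j i` are blank for `M`, own tape `v` holds the input `w` with its end markers -/
def VInit (M : TM α' Empty) (j : M.ι → ι) (get : Γ → M.Γ) (v : κ) (vw : Option X → In α')
    (s : HS β Γ ι κ X) (w : List α') : Prop :=
  (∀ i z, get (s.tp (j i) z) = M.blank) ∧ (∀ i, s.hd (j i) = 0) ∧ s.p v = 0 ∧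
    (∀ h : ℕ, h ≤ w.length + 1 → vw (s.f v h) = inp w h) ∧ s.qt = []

/-- what a virtual run leaves unchanged -/
def VFr {ι' : Type} (j : ι' → ι) (v : κ) (s s' : HS β Γ ι κ X) : Prop :=
  s'.ih = s.ih ∧ s'.f = s.f ∧ s'.out = s.out ∧ (∀ k, k ≠ v → s'.p k = s.p k) ∧
    ∀ i, i ∉ Set.range j → s'.tp i = s.tp i ∧ s'.hd i = s.hd i

/-- move of the virtual input head -/
def vrunMv (i : In α') (m : SignType) : SignType :=
  In.casesOn i (if m = -1 then 0 else m) (if m = 1 then 0 else m) (fun _ => m)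

/-- host effect simulating one step -/
noncomputable def vrunEff {G I : Type} (j : I → ι) (put : G → Γ) (v : κ) (i : In α')
    (g : ι ⊕ κ → Γ × Option X) (e : Eff Empty G I) : Eff β (Γ × Option X) (ι ⊕ κ) where
  wr := Sum.elim (fun k => (extend j (fun i => put (e.wr i)) (fun k => (g (Sum.inl k)).1) k, none))
    (fun k => g (Sum.inr k))
  mv := Sum.elim (extend j e.mv (fun _ => 0)) (update (fun _ => 0) v (vrunMv i e.im))
  im := 0
  out := none
  qo := e.qo

/-- host state after one simulated step -/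
noncomputable def vrunNx {G I : Type} (j : I → ι) (put : G → Γ) (v : κ) (i : In α')
    (s : HS β Γ ι κ X) (e : Eff Empty G I) : HS β Γ ι κ X where
  ih := s.ih
  tp := fun k => update (s.tp k) (s.hd k)
    (extend j (fun i => put (e.wr i)) (fun k => s.tp k (s.hd k)) k)
  hd := fun k => s.hd k + ((extend j e.mv (fun _ => 0) k : SignType) : ℤ)
  f := s.f
  p := update s.p v (s.p v + (vrunMv i e.im : ℤ))
  out := s.out
  qt := Qop.casesOn (motive := fun _ => List Bool) e.qo s.qt (fun b => s.qt ++ [b]) []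

theorem vrun_upd {G I : Type} (j : I → ι) (put : G → Γ) (v : κ) (i : In α') (bl : Γ) (n : ℕ)
    (s : HS β Γ ι κ X) (e : Eff Empty G I) :
    (s.dat bl).upd n (vrunEff j put v i (s.dat bl).rd e) = (vrunNx j put v i s e).dat bl := by
  simp only [Dat.upd, HS.dat, vrunEff, vrunNx, Dat.mk.injEq]
  refine ⟨by simp, ?_, ?_, by simp, trivial⟩
  · funext k z
    rcases k with k | k
    · by_cases hz : z = s.hd k
      · subst hz; simp [Dat.rd]
      · simp [hz]
    · by_cases hz : z = s.p k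
      · subst hz; simp [Dat.rd]
      · simp [hz]
  · funext k
    rcases k with k | k
    · simp
    · by_cases hk : k = v
      · subst hk; simp
      · simp [hk]

/-- the host state `s` represents the tapes `c` -/
def vrunR {G I : Type} (j : I → ι) (get : Γ → G) (v : κ) (vw : Option X → In α') (w : List α')
    (c : Dat Empty G I) (s : HS β Γ ι κ X) : Prop :=
  (∀ i z, get (s.tp (j i) z) = c.tp i z) ∧ (∀ i, s.hd (j i) = c.hd i) ∧ s.p v = c.ih ∧
    (∀ h : ℕ, h ≤ w.length + 1 → vw (s.f v h) = inp w h) ∧ s.qt = c.qt ∧ c.ih ≤ w.length + 1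

theorem vrun_mv (w : List α') (h : ℕ) (hh : h ≤ w.length + 1) (m : SignType) :
    (h : ℤ) + (vrunMv (inp w h) m : ℤ) =
      ((if m = 1 then min (h + 1) (w.length + 1) else if m = -1 then h - 1 else h : ℕ) : ℤ) := by
  rcases h with _ | h
  · rw [inp_zero]
    cases m <;> simp [vrunMv]
  · rcases Nat.lt_or_ge h w.length with h1 | h1
    · rw [inp_lt _ h1]
      cases m <;> simp [vrunMv]
      omega
    · obtain rfl : h = w.length := by omega
      rw [inp_end]
      cases m <;> simp [vrunMv]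

theorem vrun_step {G I : Type} {j : I → ι} (hj : Injective j) {get : Γ → G} {put : G → Γ}
    (hgp : ∀ a, get (put a) = a) {v : κ} {vw : Option X → In α'} {w : List α'}
    {c : Dat Empty G I} {s : HS β Γ ι κ X} (h : vrunR j get v vw w c s) (e : Eff Empty G I) :
    vrunR j get v vw w (c.upd w.length e) (vrunNx j put v (inp w c.ih) s e) := by
  obtain ⟨h1, h2, h3, h4, h5, h6⟩ := h
  refine ⟨fun i z => ?_, fun i => ?_, ?_, h4, ?_, upd_ih_le _ h6⟩
  · simp only [vrunNx, Dat.upd, hj.extend_apply, h2]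
    by_cases hz : z = c.hd i
    · subst hz; simp [hgp]
    · simp [hz, h1]
  · simp only [vrunNx, Dat.upd, hj.extend_apply, h2]
  · simp only [vrunNx, Dat.upd, update_self, h3]
    exact vrun_mv w c.ih h6 e.im
  · simp only [vrunNx, Dat.upd, h5]

theorem vrun_fr_refl {I : Type} (j : I → ι) (v : κ) (s : HS β Γ ι κ X) : VFr j v s s :=
  ⟨rfl, rfl, rfl, fun _ _ => rfl, fun _ _ => ⟨rfl, rfl⟩⟩

theorem vrun_fr_trans {I : Type} {j : I → ι} {v : κ} {s s₁ s₂ : HS β Γ ι κ X}
    (h : VFr j v s s₁) (h' : VFr j v s₁ s₂) : VFr j v s s₂ :=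
  ⟨h'.1.trans h.1, h'.2.1.trans h.2.1, h'.2.2.1.trans h.2.2.1,
    fun k hk => (h'.2.2.2.1 k hk).trans (h.2.2.2.1 k hk),
    fun i hi => ⟨(h'.2.2.2.2 i hi).1.trans (h.2.2.2.2 i hi).1,
      (h'.2.2.2.2 i hi).2.trans (h.2.2.2.2 i hi).2⟩⟩

theorem vrun_fr_nx {G I : Type} (j : I → ι) (put : G → Γ) (v : κ) (i : In α')
    (s : HS β Γ ι κ X) (e : Eff Empty G I) : VFr j v s (vrunNx j put v i s e) := by
  refine ⟨rfl, rfl, rfl, fun k hk => ?_, fun k hk => ⟨?_, ?_⟩⟩
  · simp [vrunNx, hk]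
  · simp only [vrunNx]
    rw [extend_apply' _ _ _ (by simpa using hk), update_eq_self]
  · simp only [vrunNx]
    rw [extend_apply' _ _ _ (by simpa using hk)]
    simp

/-- the actions of one simulated step -/
noncomputable def vrunF (β : Type) (M : TM α' Empty) (j : M.ι → ι) (get : Γ → M.Γ) (put : M.Γ → Γ)
    (v : κ) (vw : Option X → In α') (q : M.Q) (g : ι ⊕ κ → Γ × Option X) :
    Set (Eff β (Γ × Option X) (ι ⊕ κ) × (M.Q ⊕ Bool) × (M.Q ⊕ Bool)) :=
  if M.δ q (vw (g (Sum.inr v)).2) (fun i => get (g (Sum.inl (j i))).1) = ∅ then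
    {(nop g, Sum.inr (decide (q ∈ M.acc)), Sum.inr (decide (q ∈ M.acc)))}
  else (fun a => (vrunEff j put v (vw (g (Sum.inr v)).2) g a.1, Sum.inl a.2.1, Sum.inl a.2.2)) ''
    M.δ q (vw (g (Sum.inr v)).2) (fun i => get (g (Sum.inl (j i))).1)

theorem vrun_F {M : TM α' Empty} {j : M.ι → ι} {get : Γ → M.Γ} (put : M.Γ → Γ)
    {v : κ} {vw : Option X → In α'} {w : List α'} (q : M.Q) {c : Dat Empty M.Γ M.ι}
    {s : HS β Γ ι κ X} (bl : Γ) (h : vrunR j get v vw w c s) :
    vrunF β M j get put v vw q (s.dat bl).rd =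
      if M.δ q (inp w c.ih) c.rd = ∅ then
        {(nop (s.dat bl).rd, Sum.inr (decide (q ∈ M.acc)), Sum.inr (decide (q ∈ M.acc)))}
      else (fun a => (vrunEff j put v (inp w c.ih) (s.dat bl).rd a.1, Sum.inl a.2.1,
        Sum.inl a.2.2)) '' M.δ q (inp w c.ih) c.rd := by
  obtain ⟨h1, h2, h3, h4, h5, h6⟩ := h
  have e1 : vw ((s.dat bl).rd (Sum.inr v)).2 = inp w c.ih := by
    show vw (s.f v (s.p v)) = _
    rw [h3]; exact h4 _ h6
  have e2 : (fun i => get ((s.dat bl).rd (Sum.inl (j i))).1) = c.rd := by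
    funext i
    show get (s.tp (j i) (s.hd (j i))) = _
    rw [h1, h2]; rfl
  unfold vrunF
  rw [e1, e2]

theorem vrun_nxt {G I Q : Type} {j : I → ι} {get : Γ → G} (put : G → Γ) {v : κ}
    {vw : Option X → In α'} {w : List α'} {c : Dat Empty G I} {s : HS β Γ ι κ X} (bl : Γ)
    (h : vrunR j get v vw w c s) (O : Set (List Bool)) (i : In α') (g)
    (a : Eff Empty G I × Q × Q) :
    nxt O (s.dat bl) ((vrunEff j put v i g a.1 : Eff β _ _), (Sum.inl a.2.1 : Q ⊕ Bool),
      (Sum.inl a.2.2 : Q ⊕ Bool)) = Sum.inl (nxt O c a) := by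
  have e : (s.dat bl).qt = c.qt := h.2.2.2.2.1
  unfold nxt
  rw [e]
  show (if a.1.qo = Qop.ask ∧ c.qt ∈ O then _ else _) = _
  split_ifs <;> rfl

theorem vrun_ex (α β : Type) (M : TM α' Empty) (j : M.ι → ι) (hj : Injective j) (get : Γ → M.Γ)
    (put : M.Γ → Γ) (hgp : ∀ a, get (put a) = a) (v : κ) (vw : Option X → In α') :
    ∃ P : HP α β Γ ι κ X Bool, (M.Det → P.Det) ∧
      ∀ (bl : Γ) (O : Set (List Bool)) (x : List α) (s : HS β Γ ι κ X) (w : List α'),
        VInit M j get v vw s w →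
        (∀ t c, M.Ends O w t c → ∃ s', VFr j v s s' ∧
          Pg.Hv P bl (cT O x) s (2 * t + 2) (decide (c.1 ∈ M.acc)) s') ∧
        (∀ t e d', P.Ev (cT O x) (s.dat bl) t e d' → ∃ t' c s', M.Ends O w t' c ∧
          e = decide (c.1 ∈ M.acc) ∧ d' = s'.dat bl ∧ VFr j v s s') := by
  have := M.finQ
  let K : M.Q → HP α β Γ ι κ X (M.Q ⊕ Bool) := fun q =>
    Pg.one fun _ g => vrunF β M j get put v vw q g
  refine ⟨Pg.iter K M.start, fun hM => det_iter (fun q => det_one fun _ g => ?_) _, ?_⟩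
  · unfold vrunF
    split_ifs
    · exact Set.subsingleton_singleton
    · exact (hM _ _ _).image _
  intro bl O x s w hs
  have h0 : vrunR j get v vw w M.init.2 s :=
    ⟨hs.1, hs.2.1, hs.2.2.1, hs.2.2.2.1, hs.2.2.2.2, Nat.zero_le _⟩
  refine ⟨fun t c hc => ?_, fun t e d' h => ?_⟩
  · have key : ∀ (c₀ : M.Cfg) (t : ℕ) (c : M.Cfg), M.Run O w c₀ t c →
        M.δ c.1 (inp w c.2.ih) c.2.rd = ∅ → ∀ s : HS β Γ ι κ X, vrunR j get v vw w c₀.2 s →
        ∃ s', VFr j v s s' ∧
          Pg.Hv (Pg.iter K c₀.1) bl (cT O x) s (2 * t + 2) (decide (c.1 ∈ M.acc)) s' := by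
      intro c₀ t c hr
      induction hr with
      | nil c =>
        intro he s hR
        refine ⟨s, vrun_fr_refl _ _ _, hv_iter_done (t := 1) ?_⟩
        have := ev_one (C := cT O x) (d := s.dat bl)
          (f := fun _ g => vrunF β M j get put v vw c.1 g)
          (a := (nop (s.dat bl).rd, Sum.inr (decide (c.1 ∈ M.acc)),
            Sum.inr (decide (c.1 ∈ M.acc)))) (by rw [vrun_F put _ bl hR, if_pos he]; rfl)
          trivial trivial
        rw [nxt_same, upd_nop] at this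
        exact this
      | @cons c c₁ c' t h1 _ ih =>
        intro he s hR
        obtain ⟨a, ha, rfl⟩ := h1
        obtain ⟨s', h2, h3⟩ := ih he _ (vrun_step hj hgp hR a.1)
        refine ⟨s', vrun_fr_trans (vrun_fr_nx j put v _ s a.1) h2,
          (hv_iter_more (t₁ := 1) ?_ h3).mono (by omega)⟩
        have := ev_one (C := cT O x) (d := s.dat bl)
          (f := fun _ g => vrunF β M j get put v vw c.1 g)
          (a := (vrunEff j put v (inp w c.2.ih) (s.dat bl).rd a.1, Sum.inl a.2.1, Sum.inl a.2.2))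
          (by
            rw [vrun_F put _ bl hR, if_neg (Set.Nonempty.ne_empty ⟨a, ha⟩)]
            exact ⟨a, ha, rfl⟩) trivial trivial
        rw [vrun_upd] at this
        erw [vrun_nxt put bl hR] at this
        exact this
    exact key _ t c hc.1 hc.2 s h0
  · refine iter_inv (K := K) (fun r d => Sum.elim
      (fun q => ∃ t' c s', M.Run O w M.init t' c ∧ c.1 = q ∧ vrunR j get v vw w c.2 s' ∧
        d = s'.dat bl ∧ VFr j v s s')
      (fun e => ∃ t' c s', M.Ends O w t' c ∧ e = decide (c.1 ∈ M.acc) ∧ d = s'.dat bl ∧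
        VFr j v s s') r) ?_ ⟨0, M.init, s, .nil _, rfl, h0, rfl, vrun_fr_refl _ _ _⟩ h
    rintro q d t r d' ⟨t', c, s', h1, rfl, hR, rfl, h2⟩ h3
    obtain ⟨a, ha, rfl, rfl⟩ := one_inv h3
    rw [vrun_F put _ bl hR] at ha
    split_ifs at ha with he
    · obtain rfl := ha
      rw [nxt_same, upd_nop]
      exact ⟨t', c, s', ⟨h1, he⟩, rfl, rfl, h2⟩
    · obtain ⟨a, ha, rfl⟩ := ha
      rw [vrun_upd]
      erw [vrun_nxt put bl hR]
      exact ⟨t' + 1, (nxt O c.2 a, c.2.upd w.length a.1), _, h1.snoc ⟨a, ha, rfl⟩, rfl,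
        vrun_step hj hgp hR a.1, rfl, vrun_fr_trans h2 (vrun_fr_nx j put v _ s' a.1)⟩

end Pool.Agent.P.MP_d0c5d0_lc
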