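import Pool.Agent.P.MP_d0c5d0_lc.QW
import Pool.Agent.P.MP_d0c5d0_lc.VRun

/-! Deterministic decoding of a stored value in time O(n^(j+1)). -/

namespace Pool.Agent.P.MP_d0c5d0_lc

open Classical Function

section tape

variable {α β Γ ι κ X : Type} {bl : Γ} {O : Set (List Bool)} {x : List α}

/-- append a word at the end of own tape `k` -/
noncomputable def dcApp (k : κ) (w : List X) : HP α β Γ ι κ X Unit :=
  w.foldr (fun a P => (wr k (some a)).seq ((mv k 1).seq P)) (ret ())

theorem dcode_det_app (k : κ) (w : List X) : (dcApp k w : HP α β Γ ι κ X Unit).Det := by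
  induction w with
  | nil => exact det_ret _
  | cons a w ih => exact det_seq (det_wr _ _) (det_seq (det_mv _ _) ih)

theorem dcode_hv_app (k : κ) (w l : List X) (s : HS β Γ ι κ X) (hf : s.f k = lay l)
    (hp : s.p k = l.length) :
    Pg.Hv (dcApp k w) bl (cT O x) s (4 * w.length + 1) ()
      {s with f := update s.f k (lay (l ++ w)), p := update s.p k ((l ++ w).length : ℕ)} := by
  induction w generalizing s l with
  | nil => exact (hv_ret () (ok_cT _)).cast rfl (by simp [← hf, ← hp])
  | cons a w ih =>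
    refine ((hv_seq (hv_wr k (some a) (ok_cT _)) (hv_seq (hv_mv k 1 (ok_cT _) (ok_cT _))
      (ih (l ++ [a]) _ ?_ ?_))).mono (by simp; omega)).cast rfl (by simp)
    · simp [hf, hp, update_lay_end]
    · simp [hp]

/-- move the head of own tape `k` from the end of its word to cell 0 -/
noncomputable def dcRew [Finite X] (k : κ) : HP α β Γ ι κ X Unit :=
  (mv k (-1)).seq ((whl (testT k Option.isSome) (mv k (-1))).seq (mv k 1))

theorem dcode_det_rew [Finite X] (k : κ) : (dcRew k : HP α β Γ ι κ X Unit).Det :=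
  det_seq (det_mv _ _) (det_seq (det_whl (det_testT _ _) (det_mv _ _)) (det_mv _ _))

theorem dcode_hv_rew [Finite X] (k : κ) (l : List X) (s : HS β Γ ι κ X) (hf : s.f k = lay l)
    (hp : s.p k = l.length) :
    Pg.Hv (dcRew k) bl (cT O x) s (8 * l.length + 10) () {s with p := update s.p k 0} := by
  have := hv_whl (bl := bl) (C := cT O x) (c := testT k Option.isSome) (b := mv k (-1))
    l.length 3 1 (fun i => {s with p := update s.p k ((l.length : ℤ) - 1 - i)})
    (fun i => {s with p := update s.p k ((l.length : ℤ) - 1 - i)})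
    (s' := {s with p := update s.p k (-1)})
    (fun i hi => (hv_testT _ _ (ok_cT _)).cast (by
      have e : (l.length : ℤ) - 1 - i = ((l.length - 1 - i : ℕ) : ℤ) := by omega
      simp only [update_self, hf]
      rw [e, lay_nat, List.getElem?_eq_getElem (by omega)]
      rfl) rfl)
    (fun i hi => (hv_mv k (-1) (ok_cT _) (ok_cT _)).cast rfl (by
      simp only [update_self, update_idem]
      congr 2
      push_cast
      simp
      ring))
    ((hv_testT _ _ (ok_cT _)).cast (by
      simp only [update_self, hf]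
      rw [lay_neg _ (by omega)]
      rfl) (by congr 2; omega))
  refine ((hv_seq ((hv_mv k (-1) (ok_cT _) (ok_cT _)).cast rfl ?_)
    (hv_seq this (hv_mv k 1 (ok_cT _) (ok_cT _)))).mono (by omega)).cast rfl (by simp)
  congr 2
  simp [hp]
  ring

/-- copy the word on own tape `k` to the query tape -/
noncomputable def dcCpy [Finite X] (k : κ) (g : Option X → Bool) : HP α β Γ ι κ X Unit :=
  whl (testT k Option.isSome) ((look k).bind fun o => (push (g o)).seq (mv k 1))

theorem dcode_det_cpy [Finite X] (k : κ) (g) : (dcCpy k g : HP α β Γ ι κ X Unit).Det :=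
  det_whl (det_testT _ _) (det_bind (det_look _) fun _ => det_seq (det_push _) (det_mv _ _))

theorem dcode_hv_cpy [Finite X] (k : κ) (g : Option X → Bool) (l : List X) (s : HS β Γ ι κ X)
    (hf : s.f k = lay l) (hp : s.p k = 0) :
    Pg.Hv (dcCpy k g) bl (cT O x) s (12 * l.length + 6) ()
      {s with p := update s.p k (l.length : ℕ), qt := s.qt ++ l.map fun a => g (some a)} := by
  have := hv_whl (bl := bl) (C := cT O x) (c := testT k Option.isSome)
    (b := (look k).bind fun o => (push (g o)).seq (mv k 1)) l.length 3 5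
    (fun i => {s with p := update s.p k (i : ℕ), qt := s.qt ++ (l.take i).map fun a => g (some a)})
    (fun i => {s with p := update s.p k (i : ℕ), qt := s.qt ++ (l.take i).map fun a => g (some a)})
    (s' := {s with p := update s.p k (l.length : ℕ), qt := s.qt ++ l.map fun a => g (some a)})
    (fun i hi => (hv_testT _ _ (ok_cT _)).cast (by
      simp only [update_self, hf]
      rw [lay_nat, List.getElem?_eq_getElem hi]
      rfl) rfl)
    (fun i hi => (hv_bind (K := fun o => (push (g o)).seq (mv k 1)) (hv_look k (ok_cT _))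
      (hv_seq (hv_push _ (ok_cT _)) (hv_mv k 1 (ok_cT _) (ok_cT _)))).cast rfl (by
        simp only [update_self, update_idem, hf]
        rw [lay_nat, List.take_add_one, List.getElem?_eq_getElem hi]
        simp [-List.take_append_getElem]))
    ((hv_testT _ _ (ok_cT _)).cast (by
      simp only [update_self, hf]
      rw [lay_len]
      rfl) (by simp))
  have e : ∀ s' : HS β Γ ι κ X, s' = ⟨s.ih, s.tp, s.hd, s.f, update s.p k ((0 : ℕ) : ℤ), s.out,
      s.qt ++ (l.take 0).map fun a => g (some a)⟩ → s' = s := by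
    rintro _ rfl
    simp [← hp]
  rw [e _ rfl] at this
  exact this.mono (by omega)

end tape

section main

variable {α Γ ι X : Type} {j : ℕ}

/-- host states of the decoder -/
def dcS (bl : Γ) (x0 : X) (m : ℕ) (a b : List X) (pa pb : ℤ) (q : List Bool) :
    HS Empty Γ ι (Fin j ⊕ Bool) X :=
  ⟨0, fun _ _ => bl, fun _ => 0,
    Sum.elim (fun _ => lay (List.replicate m x0)) (fun k => cond k (lay b) (lay a)),
    Sum.elim (fun _ => 0) (fun k => cond k pb pa), [], q⟩

theorem dcode_upd0 {Y : Type} [DecidableEq (Fin j ⊕ Bool)] (A : Fin j → Y) (b a a' : Y) :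
    update (Sum.elim A fun k : Bool => cond k b a) (Sum.inr false) a' =
      Sum.elim A fun k : Bool => cond k b a' := by
  funext k
  rcases k with k | _ | _ <;> simp

theorem dcode_upd1 {Y : Type} [DecidableEq (Fin j ⊕ Bool)] (A : Fin j → Y) (b a b' : Y) :
    update (Sum.elim A fun k : Bool => cond k b a) (Sum.inr true) b' =
      Sum.elim A fun k : Bool => cond k b' a := by
  funext k
  rcases k with k | _ | _ <;> simp

theorem dcode_hs0 (bl : Γ) (x0 : X) :
    (hs0 bl : HS Empty Γ ι (Fin j ⊕ Bool) X) = dcS bl x0 0 [] [] 0 0 [] := by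
  simp only [hs0, dcS, HS.mk.injEq, true_and, and_true]
  constructor
  · funext k
    rcases k with k | _ | _ <;> simp [lay_nil]
  · funext k
    rcases k with k | _ | _ <;> simp

variable {Y : Type} [Finite Y] {bl : Γ} {O : Set (List Bool)} {x : List α}

/-- both heads at the ends of the words, empty query tape -/
def dcE (bl : Γ) (m : ℕ) (u : List Bool) (v : List (Bool ⊕ Y)) :
    HS Empty Γ ι (Fin j ⊕ Bool) (Bool ⊕ Y) :=
  dcS bl (Sum.inl true) m (u.map Sum.inl) v (u.map (Sum.inl : Bool → Bool ⊕ Y)).length v.length []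

/-- ask whether the word found so far can be extended by `w` -/
noncomputable def dcExt (qw : HP α Empty Γ ι (Fin j ⊕ Bool) (Bool ⊕ Y) Unit) (w : List Bool) :
    HP α Empty Γ ι (Fin j ⊕ Bool) (Bool ⊕ Y) Bool :=
  qw.seq ((dcRew (Sum.inr false)).seq
    ((dcCpy (Sum.inr false) fun o => decide (o = some (Sum.inl true))).seq ((pushes w).seq ask)))

/-- try the candidates in turn -/
noncomputable def dcSrch (qw : HP α Empty Γ ι (Fin j ⊕ Bool) (Bool ⊕ Y) Unit)
    (L : List (List Bool × List (Bool ⊕ Y) × Bool)) :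
    HP α Empty Γ ι (Fin j ⊕ Bool) (Bool ⊕ Y) Bool :=
  L.foldr (fun c P => (dcExt qw c.1).bind fun r => Bool.casesOn (motive := fun _ => _) r P
    ((dcApp (Sum.inr false) (c.1.map Sum.inl)).seq ((dcApp (Sum.inr true) c.2.1).seq (ret c.2.2))))
    (ret false)

theorem dcode_det_srch {qw : HP α Empty Γ ι (Fin j ⊕ Bool) (Bool ⊕ Y) Unit} (h : qw.Det)
    (L : List (List Bool × List (Bool ⊕ Y) × Bool)) : (dcSrch qw L).Det := by
  induction L with
  | nil => exact det_ret _
  | cons c L ih =>
    refine det_bind (det_seq h (det_seq (dcode_det_rew _) (det_seq (dcode_det_cpy _ _)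
      (det_seq (det_pushes _) det_ask)))) fun r => ?_
    cases r
    · exact ih
    · exact det_seq (dcode_det_app _ _) (det_seq (dcode_det_app _ _) (det_ret _))

/-- `qw` writes the word `z` within `T` steps, and the oracle knows the starts of `W` -/
def DcOk (qw : HP α Empty Γ ι (Fin j ⊕ Bool) (Bool ⊕ Y) Unit) (bl : Γ) (O : Set (List Bool))
    (x : List α) (m T : ℕ) (z W : List Bool) : Prop :=
  (∀ a b pa pb, Pg.Hv qw bl (cT O x) (dcS bl (Sum.inl true) m a b pa pb []) T ()
    (dcS bl (Sum.inl true) m a b pa pb z)) ∧ ∀ u, z ++ u ∈ O ↔ u <+: W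

variable {qw : HP α Empty Γ ι (Fin j ⊕ Bool) (Bool ⊕ Y) Unit} {m T : ℕ} {z W : List Bool}

theorem dcode_hv_ext (h : DcOk qw bl O x m T z W) {u R : List Bool} (hW : W = u ++ R)
    (w : List Bool) (v : List (Bool ⊕ Y)) :
    Pg.Hv (dcExt qw w) bl (cT O x) (dcE bl m u v) (T + 20 * W.length + 2 * w.length + 22)
      (decide (w <+: R)) (dcE bl m u v) := by
  have hl : u.length ≤ W.length := by rw [hW]; simp
  refine ((hv_seq (h.1 _ _ _ _) (hv_seq (dcode_hv_rew _ (u.map Sum.inl) _ rfl rfl)
    (hv_seq (dcode_hv_cpy _ _ (u.map Sum.inl) _ rfl (by simp))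
      (hv_seq (hv_pushes w (ok_cT _)) (hv_ask (ok_cT _)))))).mono (by simp; omega)).cast ?_ ?_
  · have e : (u.map (Sum.inl : Bool → Bool ⊕ Y)).map
        (fun a => decide (some a = some (Sum.inl true))) = u := by
      rw [List.map_map]
      conv_rhs => rw [← List.map_id u]
      refine List.map_congr_left fun b _ => ?_
      cases b <;> simp
    rw [e]
    refine decide_eq_decide.mpr ?_
    show z ++ u ++ w ∈ O ↔ _
    rw [List.append_assoc, h.2, hW, List.prefix_append_right_inj]
  · simp only [dcE, dcS, update_idem, dcode_upd0]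

theorem dcode_hv_none (h : DcOk qw bl O x m T z W) {u R : List Bool} (hW : W = u ++ R)
    (v : List (Bool ⊕ Y)) (L : List (List Bool × List (Bool ⊕ Y) × Bool)) {b : ℕ}
    (hb : ∀ c ∈ L, c.1.length ≤ b) (hL : ∀ c ∈ L, ¬ c.1 <+: R) :
    Pg.Hv (dcSrch qw L) bl (cT O x) (dcE bl m u v)
      (L.length * (T + 20 * W.length + 2 * b + 23) + 1) false (dcE bl m u v) := by
  induction L with
  | nil => exact (hv_ret _ (ok_cT _)).mono (by simp)
  | cons c L ih =>
    have h1 := (dcode_hv_ext h hW c.1 v).cast (decide_eq_false (hL c (by simp))) rfl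
    have h2 := hb c (by simp)
    refine (hv_bind h1 (ih (fun c hc => hb c (by simp [hc])) fun c hc => hL c (by simp [hc]))).mono ?_
    rw [List.length_cons, Nat.add_one_mul L.length]
    omega

theorem dcode_hv_some (h : DcOk qw bl O x m T z W) {u R : List Bool} (hW : W = u ++ R)
    (v : List (Bool ⊕ Y)) (L : List (List Bool × List (Bool ⊕ Y) × Bool)) {b : ℕ}
    (hb : ∀ c ∈ L, c.1.length ≤ b) {c : List Bool × List (Bool ⊕ Y) × Bool} (hc : c ∈ L)
    (hR : c.1 <+: R) (h1 : c.2.1.length ≤ 1) (hL : ∀ c' ∈ L, c'.1 <+: R → c' = c) :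
    Pg.Hv (dcSrch qw L) bl (cT O x) (dcE bl m u v)
      (L.length * (T + 20 * W.length + 2 * b + 23) + (4 * b + 9)) c.2.2
      (dcE bl m (u ++ c.1) (v ++ c.2.1)) := by
  induction L with
  | nil => simp at hc
  | cons c' L ih =>
    have h2 := hb c' (by simp)
    by_cases hg : c'.1 <+: R
    · obtain rfl := hL c' (by simp) hg
      have h3 := (dcode_hv_ext h hW c'.1 v).cast (decide_eq_true hg) rfl
      refine ((hv_bind h3 (hv_seq (dcode_hv_app _ (c'.1.map Sum.inl) (u.map Sum.inl) _ rfl rfl)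
        (hv_seq (dcode_hv_app _ c'.2.1 v _ (by simp [dcE, dcS]) (by simp [dcE, dcS]))
          (hv_ret c'.2.2 (ok_cT _))))).mono ?_).cast rfl ?_
      · rw [List.length_cons, Nat.add_one_mul L.length, List.length_map]
        omega
      · simp only [dcE, dcS, dcode_upd0, dcode_upd1, List.map_append]
    · have h3 := (dcode_hv_ext h hW c'.1 v).cast (decide_eq_false hg) rfl
      have hc' : c ∈ L := by
        rcases List.mem_cons.mp hc with rfl | hc
        · exact absurd hR hg
        · exact hc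
      refine (hv_bind h3 (ih (fun c hc => hb c (by simp [hc])) hc'
        fun c hc => hL c (by simp [hc]))).mono ?_
      rw [List.length_cons, Nat.add_one_mul L.length]
      omega

/-- candidates while the password is read -/
def dcL1 (Y : Type) : List (List Bool × List (Bool ⊕ Y) × Bool) :=
  [([true, true], [], true), ([true, false], [], true), ([false], [], false)]

theorem dcode_phase1 (h : DcOk qw bl O x m T z W) (p : List Bool) {u R : List Bool}
    (hW : W = u ++ (enc p ++ R)) (v : List (Bool ⊕ Y)) :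
    Pg.Hv (whl (dcSrch qw (dcL1 Y)) (ret ())) bl (cT O x) (dcE bl m u v)
      ((p.length + 1) * (3 * (T + 20 * W.length + 27) + 22)) () (dcE bl m (u ++ enc p) v) := by
  have hb : ∀ c ∈ dcL1 Y, c.1.length ≤ 2 := by simp [dcL1]
  induction p generalizing u with
  | nil =>
    have h1 := dcode_hv_some h hW v (dcL1 Y) hb (c := ([false], [], false)) (by simp [dcL1])
      (by simp [enc_nil]) (by simp) (by simp [dcL1, enc_nil])
    refine ((hv_whl_stop h1).mono ?_).cast rfl (by simp [enc_nil])
    simp only [dcL1, List.length_cons, List.length_nil]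
    omega
  | cons b p ih =>
    have h1 := dcode_hv_some h hW v (dcL1 Y) hb (c := ([true, b], [], true))
      (by cases b <;> simp [dcL1]) (by simp [enc_cons]) (by simp)
      (by cases b <;> simp [dcL1, enc_cons])
    have h2 := ih (u := u ++ [true, b]) (by rw [hW, enc_cons]; simp)
    refine ((hv_whl_more h1 (hv_ret () (ok_cT _)) (by simpa using h2)).mono ?_).cast rfl
      (by simp [enc_cons])
    simp only [dcL1, List.length_cons, List.length_nil]
    rw [Nat.succ_mul (p.length + 1)]
    omega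

end main

section letters

variable {α β Γ ι : Type} {j : ℕ} [Finite β] {bl : Γ} {O : Set (List Bool)} {x : List α}
  {qw : HP α Empty Γ ι (Fin j ⊕ Bool) (Bool ⊕ In β) Unit} {m T : ℕ} {z W : List Bool}

/-- candidates while the value is read -/
def dcL2 (idy : β → ℕ) (l : List β) : List (List Bool × List (Bool ⊕ In β) × Bool) :=
  l.map fun d => (cod1 idy d, [Sum.inr (In.sym d)], true)

theorem dcode_phase2 {idy : β → ℕ} (hy : Injective idy) {l : List β} (hl : ∀ d, d ∈ l) {b : ℕ}
    (hb : ∀ d, idy d ≤ b) (h : DcOk qw bl O x m T z W) (y : List β) {u : List Bool}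
    (hW : W = u ++ code idy y) (v : List (Bool ⊕ In β)) :
    Pg.Hv (whl (dcSrch qw (dcL2 idy l)) (ret ())) bl (cT O x) (dcE bl m u v)
      ((y.length + 1) * (l.length * (T + 20 * W.length + 2 * (b + 1) + 23) + (4 * b + 18))) ()
      (dcE bl m W (v ++ y.map fun d => Sum.inr (In.sym d))) := by
  have hb' : ∀ c ∈ dcL2 idy l, c.1.length ≤ b + 1 := by
    intro c hc
    obtain ⟨d, -, rfl⟩ := List.mem_map.mp hc
    simpa [cod1] using hb d
  have hlen : (dcL2 idy l).length = l.length := List.length_map _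
  induction y generalizing u v with
  | nil =>
    have h1 := dcode_hv_none h hW v (dcL2 idy l) hb' (by
      intro c hc
      obtain ⟨d, -, rfl⟩ := List.mem_map.mp hc
      simp [cod1, code_nil])
    refine ((hv_whl_stop h1).mono ?_).cast rfl (by simp [hW, code_nil])
    rw [hlen, List.length_nil]
    omega
  | cons a y ih =>
    have e1 : ∀ d, cod1 idy d = code idy [d] := fun d => by simp [code]
    have e2 : code idy (a :: y) = cod1 idy a ++ code idy y := by simp [code]
    have h1 := dcode_hv_some h hW v (dcL2 idy l) hb' (c := (cod1 idy a, [Sum.inr (In.sym a)], true))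
      (List.mem_map.mpr ⟨a, hl a, rfl⟩) (by rw [e2]; exact List.prefix_append _ _) (by simp) (by
        intro c hc hp
        obtain ⟨d, -, rfl⟩ := List.mem_map.mp hc
        rw [e1, code_pre hy] at hp
        obtain rfl : d = a := by simpa using hp
        rfl)
    have h2 := ih (u := u ++ cod1 idy a) (by rw [hW, e2, List.append_assoc])
      (v ++ [Sum.inr (In.sym a)])
    refine ((hv_whl_more h1 (hv_ret () (ok_cT _)) h2).mono ?_).cast rfl (by simp)
    rw [hlen, List.length_cons, Nat.succ_mul (y.length + 1)]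
    omega

/-- how the simulated machine reads the virtual input -/
def dcVw : Option (Bool ⊕ In β) → In β
  | some (Sum.inr i) => i
  | _ => In.rend

omit [Finite β] in
theorem dcode_vw (y : List β) (h : ℕ) :
    dcVw (lay ([Sum.inr In.lend] ++ y.map (fun d => Sum.inr (In.sym d)) ++ [Sum.inr In.rend] :
      List (Bool ⊕ In β)) h) = inp y h := by
  rw [lay_nat]
  cases h with
  | zero => rfl
  | succ h =>
    rw [inp_succ]
    simp only [List.cons_append, List.nil_append, List.getElem?_cons_succ]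
    by_cases hh : h < y.length
    · rw [List.getElem?_append_left (by simpa using hh)]
      simp [hh, dcVw]
    · rw [List.getElem?_append_right (by simpa using hh), List.getElem?_eq_none (l := y) (by omega)]
      cases h - (y.map fun d => (Sum.inr (In.sym d) : Bool ⊕ In β)).length <;> rfl

end letters

theorem dcode_arith {N P Q D T w a b r : ℕ} (hN : 1 ≤ N) (hP : N ≤ P) (hQ : N * P ≤ Q)
    (hT : T ≤ D * P) (hw : w ≤ D * N) (ha : a ≤ D) (hb : b ≤ D) (hr : r ≤ D * N) :
    r * (a * (T + 20 * w + b) + b) ≤ (D * (D * (22 * D) + D)) * Q := by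
  have h1 : w ≤ D * P := hw.trans (Nat.mul_le_mul_left _ hP)
  have h2 : b ≤ D * P := hb.trans (Nat.le_mul_of_pos_right _ (by omega))
  have h3 : T + 20 * w + b ≤ 22 * D * P := by rw [mul_assoc]; omega
  have h4 : a * (T + 20 * w + b) + b ≤ (D * (22 * D) + D) * P := by
    have := Nat.mul_le_mul ha h3
    rw [add_mul, mul_assoc D]
    omega
  calc _ ≤ D * N * ((D * (22 * D) + D) * P) := Nat.mul_le_mul hr h4
    _ = (D * (D * (22 * D) + D)) * (N * P) := by ring
    _ ≤ _ := Nat.mul_le_mul_left _ hQ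

theorem dcode_len {N n Y s τ e cx bx cy b P W r D : ℕ} (hN : N = n + 1) (a0 : Y ≤ s * N)
    (a1 : τ = e + 1 + cx) (a2 : cx ≤ (bx + 1) * n) (a3 : cy ≤ (b + 1) * Y) (hp : P ≤ 4 * τ + 3)
    (a4 : W = 2 * P + 1 + cy) (hD : D = r + 8 * (e + bx + 2) + (b + 2) * (s + 1) + 20) :
    W ≤ D * N ∧ P + 1 ≤ D * N ∧ Y + 2 ≤ D * N := by
  have n1 : 1 ≤ N := by omega
  have b1 : τ ≤ (e + bx + 2) * N := by rw [a1, hN]; nlinarith
  have b2 : cy ≤ (b + 1) * (s * N) := a3.trans (Nat.mul_le_mul_left _ a0)
  have b3 : D * N = r * N + 8 * ((e + bx + 2) * N) + ((b + 1) * (s * N) + s * N + (b + 2) * N) +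
      20 * N := by rw [hD]; ring
  omega

theorem dcode_total {N n Y s τ e cx bx cy b P W D c ll j k t sB : ℕ} (hN : N = n + 1) (hj : 1 ≤ j)
    (hk : j + 1 ≤ k) (a0 : Y ≤ s * N)
    (a1 : τ = e + 1 + cx) (a2 : cx ≤ (bx + 1) * n) (a3 : cy ≤ (b + 1) * Y) (hp : P ≤ 4 * τ + 3)
    (a4 : W = 2 * P + 1 + cy) (hD : D = c + 8 * (e + bx + 2) + (b + 2) * (s + 1) + ll + 4 * b + 30)
    (ht : t ≤ sB * (Y + 1) ^ k) :
    c * N + (5 + ((P + 1) * (3 * (c * N ^ j + 20 * W + 27) + 22) +
      ((Y + 1) * (ll * (c * N ^ j + 20 * W + 2 * (b + 1) + 23) + (4 * b + 18)) +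
        (4 * 1 + 1 + (8 * (Y + 2) + 10 + (2 * t + 2) + 1) + 1) + 1) + 1) + 1) + 1 ≤
      (2 * (D * (D * (22 * D) + D)) + 9 * D + 2 * (sB * D ^ k) + 50) * N ^ k := by
  have n1 : 1 ≤ N := by omega
  have n2 : N ≤ N ^ j := Nat.le_self_pow (by omega) N
  have n3 : N * N ^ j ≤ N ^ k := by
    rw [← pow_succ']; exact Nat.pow_le_pow_right n1 hk
  have n4 : N ≤ N ^ k := Nat.le_self_pow (by omega) N
  obtain ⟨b3, b4, b5⟩ := dcode_len (r := c + ll + 4 * b + 10) (D := D) hN a0 a1 a2 a3 hp a4
    (by omega)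
  have d1 : c ≤ D ∧ 27 ≤ D ∧ ll ≤ D ∧ 4 * b + 25 ≤ D := by omega
  have b6 : c * N ^ j ≤ D * N ^ j := Nat.mul_le_mul_right _ d1.1
  have c1 := dcode_arith (a := 3) (b := 27) n1 n2 n3 b6 b3 (by omega) d1.2.1 b4
  have c2 := dcode_arith (a := ll) (b := 4 * b + 25) (r := Y + 1) n1 n2 n3 b6 b3
    d1.2.2.1 d1.2.2.2 (by omega)
  have c5 : t ≤ sB * D ^ k * N ^ k := by
    rw [mul_assoc, ← mul_pow]
    exact ht.trans (Nat.mul_le_mul_left _ (Nat.pow_le_pow_left (by omega) k))
  have c6 : D * N ≤ D * N ^ k := Nat.mul_le_mul_left _ n4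
  have c7 : c * N ≤ D * N := Nat.mul_le_mul_right _ d1.1
  rw [add_mul _ 50, add_mul _ (2 * (sB * D ^ k)), add_mul _ (9 * D), mul_assoc 2, mul_assoc 9,
    mul_assoc 2]
  clear a0 a1 a2 a3 a4 hp hD ht b3 b4 b6 n3 d1
  generalize c * N ^ j = T at c1 c2 ⊢
  generalize D * (D * (22 * D) + D) * N ^ k = Z at c1 c2 ⊢
  generalize sB * D ^ k * N ^ k = Z' at c5 ⊢
  generalize D * N ^ k = Z'' at c6 ⊢
  generalize N ^ k = Q at n4 ⊢
  have c3 : (P + 1) * (3 * (T + 20 * W + 27) + 22) ≤ Z :=
    (Nat.mul_le_mul_left _ (Nat.add_le_add_left (by norm_num) _)).trans c1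
  have c4 : (Y + 1) * (ll * (T + 20 * W + 2 * (b + 1) + 23) + (4 * b + 18)) ≤ Z :=
    (Nat.mul_le_mul_left _ (Nat.add_le_add (Nat.mul_le_mul_left _ (by clear c1 c2 c3; omega))
      (Nat.add_le_add_left (by norm_num) _))).trans c2
  clear c1 c2
  generalize (P + 1) * (3 * (T + 20 * W + 27) + 22) = U at c3 ⊢
  generalize (Y + 1) * (ll * (T + 20 * W + 2 * (b + 1) + 23) + (4 * b + 18)) = U' at c4 ⊢
  omega

theorem dcode {α β : Type} [Finite α] [Finite β] {O : Set (List Bool)} {j e k : ℕ} {idx : α → ℕ}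
    {idy : β → ℕ} (hy : Injective idy) {f : List α → List β} (hj : 1 ≤ j) (hk : j + 1 ≤ k)
    (hc : Coded O j e idx idy f) (s : ℕ) (hs : ∀ x, (f x).length ≤ s * (x.length + 1))
    {B : Set (List β)} (hB : DTIME O k B) : DTIME O k {x | f x ∈ B} := by
  obtain ⟨M, hM, sB, hrun⟩ := hB
  have := M.finΓ
  have := M.finι
  obtain ⟨prep, qw, c, hd1, hd2, hq⟩ :=
    qw_ex Empty M.Γ M.ι Bool j e hj idx (Sum.inl true : Bool ⊕ In β)
  obtain ⟨V, hd3, hV⟩ := vrun_ex (κ := Fin j ⊕ Bool) α Empty M id injective_id id id (fun _ => rfl)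
    (Sum.inr true) (dcVw (β := β))
  obtain ⟨bx, hbx⟩ := idx_bdd idx
  obtain ⟨b, hb⟩ := idx_bdd idy
  obtain ⟨l, hl⟩ : ∃ l : List β, ∀ d, d ∈ l := by
    have := Fintype.ofFinite β
    exact ⟨Finset.univ.toList, fun d => by simp⟩
  obtain ⟨D, hD⟩ : ∃ D, D = c + 8 * (e + bx + 2) + (b + 2) * (s + 1) + l.length + 4 * b + 30 :=
    ⟨_, rfl⟩
  refine dtime_of (prep.seq ((dcApp (Sum.inr true) [Sum.inr In.lend]).seq
    ((whl (dcSrch qw (dcL1 _)) (ret ())).seq ((whl (dcSrch qw (dcL2 idy l)) (ret ())).seq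
      ((dcApp (Sum.inr true) [Sum.inr In.rend]).seq ((dcRew (Sum.inr true)).seq V))))))
    (M.blank, none) (det_seq hd1 (det_seq (dcode_det_app _ _)
      (det_seq (det_whl (dcode_det_srch hd2 _) (det_ret _))
        (det_seq (det_whl (dcode_det_srch hd2 _) (det_ret _))
          (det_seq (dcode_det_app _ _) (det_seq (dcode_det_rew _) (hd3 hM)))))))
    (2 * (D * (D * (22 * D) + D)) + 9 * D + 2 * (sB * D ^ k) + 50) fun x => ?_
  obtain ⟨p, hp, hO⟩ := hc x
  obtain ⟨t, ht, cf, hE, hacc⟩ := hrun (f x)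
  have hok : DcOk qw M.blank O x (tau e idx x).length (c * (x.length + 1) ^ j)
      (cell (tau e idx x) ((tau e idx x).length ^ j) []) (enc p ++ code idy (f x)) := by
    refine ⟨fun a b pa pb => (hq M.blank O x (dcS M.blank (Sum.inl true) 0 a b pa pb []) rfl).2,
      fun u => ?_⟩
    rw [← hO]
    simp [cell]
  have h1 := (hq M.blank O x (dcS M.blank (Sum.inl true) 0 [] [] 0 0 []) rfl).1
  have h2 : Pg.Hv (dcApp (Sum.inr true) [Sum.inr In.lend]) M.blank (cT O x)
      (dcS M.blank (Sum.inl true) (tau e idx x).length [] [] 0 0 []) 5 ()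
      (dcE (ι := M.ι) (j := j) M.blank (tau e idx x).length [] [Sum.inr (In.lend : In β)]) :=
    (dcode_hv_app _ _ [] _ rfl rfl).cast rfl (by simp only [dcE, dcS, dcode_upd1]; rfl)
  have h3 := dcode_phase1 hok p (u := []) rfl [Sum.inr In.lend]
  have h4 := dcode_phase2 hy hl hb hok (f x) (u := [] ++ enc p) rfl [Sum.inr In.lend]
  have h5 := dcode_hv_app (bl := M.blank) (O := O) (x := x) (Sum.inr true) [Sum.inr In.rend] _
    (dcE (ι := M.ι) (j := j) M.blank (tau e idx x).length (enc p ++ code idy (f x))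
      ([Sum.inr In.lend] ++ (f x).map fun d => Sum.inr (In.sym d))) rfl rfl
  replace h5 := h5.cast rfl (s₂ := dcE M.blank (tau e idx x).length (enc p ++ code idy (f x))
    ([Sum.inr In.lend] ++ (f x).map (fun d => Sum.inr (In.sym d)) ++ [Sum.inr In.rend]))
    (by simp only [dcE, dcS, dcode_upd1])
  have h6 := dcode_hv_rew (bl := M.blank) (O := O) (x := x) (Sum.inr true) _
    (dcE (ι := M.ι) (j := j) M.blank (tau e idx x).length (enc p ++ code idy (f x))
      ([Sum.inr In.lend] ++ (f x).map (fun d => Sum.inr (In.sym d)) ++ [Sum.inr In.rend])) rfl rfl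
  replace h6 := h6.cast rfl (s₂ := dcS M.blank (Sum.inl true) (tau e idx x).length
    ((enc p ++ code idy (f x)).map Sum.inl)
    ([Sum.inr In.lend] ++ (f x).map (fun d => Sum.inr (In.sym d)) ++ [Sum.inr In.rend])
    ((enc p ++ code idy (f x)).map (Sum.inl : Bool → Bool ⊕ In β)).length 0 [])
    (by simp only [dcE, dcS, dcode_upd1])
  obtain ⟨s', h7⟩ : ∃ s', Pg.Hv V M.blank (cT O x) _ (2 * t + 2) (decide (cf.1 ∈ M.acc)) s' :=
    ((hV M.blank O x (dcS M.blank (Sum.inl true) (tau e idx x).length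
      ((enc p ++ code idy (f x)).map Sum.inl)
      ([Sum.inr In.lend] ++ (f x).map (fun d => Sum.inr (In.sym d)) ++ [Sum.inr In.rend])
      ((enc p ++ code idy (f x)).map (Sum.inl : Bool → Bool ⊕ In β)).length 0 []) (f x)
      ⟨fun _ _ => rfl, fun _ => rfl, rfl, fun h _ => dcode_vw (f x) h, rfl⟩).1 t cf hE).imp
      fun _ h => h.2
  refine ⟨decide (cf.1 ∈ M.acc), s'.dat M.blank, ?_, by simpa using hacc⟩
  rw [← hs0_dat, dcode_hs0 M.blank (Sum.inl true)]
  refine (hv_seq h1 (hv_seq h2 (hv_seq h3 (hv_seq h4 (hv_seq h5 (hv_seq h6 h7)))))).mono ?_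
  have a4 : (enc p ++ code idy (f x)).length = 2 * p.length + 1 + (code idy (f x)).length := by
    rw [List.length_append, enc_len]
  have a5 : ([Sum.inr In.lend] ++ (f x).map (fun d => Sum.inr (In.sym d)) ++ [Sum.inr In.rend] :
      List (Bool ⊕ In β)).length = (f x).length + 2 := by simp
  rw [a5]
  exact dcode_total rfl hj hk (hs x) (tau_len e idx x) (code_len_le idx hbx x)
    (code_len_le idy hb (f x)) hp a4 hD ht

end Pool.Agent.P.MP_d0c5d0_lc
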