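import Mathlib

/-! Multitape Turing machines with an oracle: time classes, logarithmic space, log-lin reductions. -/

namespace Pool.Agent.P.MP_d0c5d0_lc

open Classical

/-- what the input head sees: left end marker, right end marker, or an input letter -/
inductive In (α : Type) where
  | lend
  | rend
  | sym (a : α)

/-- the read-only input tape: cell 0 and cell `|x|+1` carry the end markers -/
def inp {α : Type} (x : List α) (h : ℕ) : In α :=
  if h = 0 then In.lend else (x[h - 1]?).elim In.rend In.sym

/-- operation on the write-only query tape: nothing, append a bit, or ask the oracle and erase -/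
inductive Qop where
  | no
  | push (b : Bool)
  | ask

/-- effect of one step: symbols written and moves on the work tapes, move of the input head,
letter written on the output tape, operation on the query tape -/
structure Eff (β Γ ι : Type) where
  wr : ι → Γ
  mv : ι → SignType
  im : SignType
  out : Option β
  qo : Qop

/-- tapes: input head, work tapes and their heads, output tape, query tape -/
structure Dat (β Γ ι : Type) where
  ih : ℕ
  tp : ι → ℤ → Γ
  hd : ι → ℤ
  out : List β
  qt : List Bool

/-- symbols under the work heads -/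
def Dat.rd {β Γ ι : Type} (d : Dat β Γ ι) : ι → Γ := fun i => d.tp i (d.hd i)

/-- apply an effect; `n` is the input length, the input head stays within the end markers -/
noncomputable def Dat.upd {β Γ ι : Type} (n : ℕ) (d : Dat β Γ ι) (e : Eff β Γ ι) : Dat β Γ ι where
  ih := if e.im = 1 then min (d.ih + 1) (n + 1) else if e.im = -1 then d.ih - 1 else d.ih
  tp := fun i => Function.update (d.tp i) (d.hd i) (e.wr i)
  hd := fun i => d.hd i + (e.mv i : ℤ)
  out := d.out ++ e.out.toList
  qt := Qop.casesOn (motive := fun _ => List Bool) e.qo d.qt (fun b => d.qt ++ [b]) []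

/-- next state: the first one when the oracle is asked and says yes, the second one otherwise -/
noncomputable def nxt {β Γ ι Q : Type} (O : Set (List Bool)) (d : Dat β Γ ι)
    (a : Eff β Γ ι × Q × Q) : Q :=
  if a.1.qo = Qop.ask ∧ d.qt ∈ O then a.2.1 else a.2.2

/-- nondeterministic multitape machine with input alphabet `α` and output alphabet `β`:
finite state set `Q`, finite work alphabet `Γ`, finite set `ι` of work tapes -/
structure TM (α β : Type) where
  Q : Type
  Γ : Type
  ι : Type
  finQ : Finite Q
  finΓ : Finite Γ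
  finι : Finite ι
  start : Q
  blank : Γ
  acc : Set Q
  δ : Q → In α → (ι → Γ) → Set (Eff β Γ ι × Q × Q)

namespace TM

variable {α β : Type} (M : TM α β)

/-- configurations -/
abbrev Cfg : Type := M.Q × Dat β M.Γ M.ι

/-- initial configuration -/
def init : M.Cfg := (M.start, ⟨0, fun _ _ => M.blank, fun _ => 0, [], []⟩)

/-- one step on input `x` with oracle `O` -/
def Step (O : Set (List Bool)) (x : List α) (c c' : M.Cfg) : Prop :=
  ∃ a ∈ M.δ c.1 (inp x c.2.ih) c.2.rd, c' = (nxt O c.2 a, c.2.upd x.length a.1)

/-- computation paths with a given number of steps -/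
inductive Run (O : Set (List Bool)) (x : List α) : M.Cfg → ℕ → M.Cfg → Prop where
  | nil (c : M.Cfg) : Run O x c 0 c
  | cons {c c₁ c' : M.Cfg} {t : ℕ} : M.Step O x c c₁ → Run O x c₁ t c' → Run O x c (t + 1) c'

/-- some path from the initial configuration stops after `t` steps in `c` -/
def Ends (O : Set (List Bool)) (x : List α) (t : ℕ) (c : M.Cfg) : Prop :=
  M.Run O x M.init t c ∧ M.δ c.1 (inp x c.2.ih) c.2.rd = ∅

/-- deterministic -/
def Det : Prop := ∀ q i g, (M.δ q i g).Subsingleton

/-- all work heads stay within `O(log n)` cells of their starting cell -/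
def LogSp (O : Set (List Bool)) : Prop :=
  ∃ s : ℕ, ∀ x t c, M.Run O x M.init t c → ∀ i, |c.2.hd i| ≤ (s * (Nat.log 2 (x.length + 1) + 1) : ℕ)

end TM

/-- multiT-DTIME(n^k) with oracle `O` -/
def DTIME (O : Set (List Bool)) (k : ℕ) {α : Type} (A : Set (List α)) : Prop :=
  ∃ M : TM α Empty, M.Det ∧ ∃ s : ℕ, ∀ x, ∃ t ≤ s * (x.length + 1) ^ k, ∃ c,
    M.Ends O x t c ∧ (c.1 ∈ M.acc ↔ x ∈ A)

/-- multiT-NTIME(n^k) with oracle `O` -/
def NTIME (O : Set (List Bool)) (k : ℕ) {α : Type} (A : Set (List α)) : Prop :=
  ∃ M : TM α Empty, ∃ s : ℕ, ∀ x,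
    (x ∈ A → ∃ t ≤ s * (x.length + 1) ^ k, ∃ c, M.Ends O x t c ∧ c.1 ∈ M.acc) ∧
    (∀ t c, M.Ends O x t c → c.1 ∈ M.acc → x ∈ A)

/-- deterministic logarithmic space with oracle `O` -/
def LOG (O : Set (List Bool)) {α : Type} (A : Set (List α)) : Prop :=
  ∃ M : TM α Empty, M.Det ∧ M.LogSp O ∧ ∀ x, ∃ t c, M.Ends O x t c ∧ (c.1 ∈ M.acc ↔ x ∈ A)

/-- functions computed in deterministic logarithmic space with oracle `O` -/
def LogFun (O : Set (List Bool)) {α β : Type} (f : List α → List β) : Prop :=
  ∃ M : TM α β, M.Det ∧ M.LogSp O ∧ ∀ x, ∃ t c, M.Ends O x t c ∧ c.2.out = f x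

/-- log-lin many-one reducibility with oracle `O` -/
def LogLin (O : Set (List Bool)) {α β : Type} (A : Set (List α)) (B : Set (List β)) : Prop :=
  ∃ f : List α → List β, LogFun O f ∧ (∃ s : ℕ, ∀ x, (f x).length ≤ s * (x.length + 1)) ∧
    ∀ x, x ∈ A ↔ f x ∈ B

/-- a class of languages over finite alphabets is closed under log-lin reducibility -/
def Closed (O : Set (List Bool)) (C : ∀ {α : Type}, Set (List α) → Prop) : Prop :=
  ∀ (α β : Type) [Finite α] [Finite β] (A : Set (List α)) (B : Set (List β)),
    LogLin O A B → C B → C A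

/-- the class contains every language (over a finite alphabet) decidable in logarithmic space -/
def HasLog (O : Set (List Bool)) (C : ∀ {α : Type}, Set (List α) → Prop) : Prop :=
  ∀ (α : Type) [Finite α] (A : Set (List α)), LOG O A → C A

end Pool.Agent.P.MP_d0c5d0_lc
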