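import Pool.Agent.P.MP_d0c5d0_lc.Count

/-! Two worlds that no short query separates. -/

namespace Pool.Agent.P.MP_d0c5d0_lc

open Classical Function

theorem nlow (R : Par) (K k s : ℕ) (hK : k < K) (hg : Monotone R.g)
    (hg' : ∀ᶠ n in Filter.atTop, s * (n + 1) ^ k < R.g (n / 4)) (ω : World) (hω : R.AdmW ω) (N : ℕ) :
    ∃ x ω₁ ω₂, R.AdmW ω₁ ∧ R.AdmW ω₂ ∧ Near N ω ω₁ ∧ Near N ω ω₂ ∧
      (∀ w : List Bool, w.length ≤ s * (x.length + 1) ^ k → (w ∈ R.O ω₁ ↔ w ∈ R.O ω₂)) ∧
      (hardF (R.O ω₁) K x).head? = some true ∧ (hardF (R.O ω₂) K x).head? ≠ some true := by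
  obtain ⟨n, h1, h2, h3⟩ := (hg'.and ((Filter.eventually_ge_atTop (N + 1)).and
    (Filter.eventually_ge_atTop (s * 2 ^ k)))).exists
  obtain ⟨x, rfl, hx⟩ := fresh_ex (R.Z (n / 4)) K n
    ((Z_card R _).trans_lt (Nat.pow_lt_pow_right one_lt_two (by omega)))
  set n := x.length with hn
  set c := hard K x 0 with hc
  have lc : c.length = n + 0 + n ^ K + 3 := hard_len K x 0
  have big : s * (n + 1) ^ k ≤ n ^ K :=
    calc s * (n + 1) ^ k ≤ s * (2 * n) ^ k := Nat.mul_le_mul_left _ (Nat.pow_le_pow_left (by omega) _)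
      _ ≤ n * n ^ k := by rw [mul_pow, ← mul_assoc]; exact Nat.mul_le_mul_right _ h3
      _ ≤ n ^ K := by rw [← pow_succ']; exact Nat.pow_le_pow_right (by omega) hK
  have f1 : ∀ b τ, (update ω c ((ω c).1, b) τ).1 = (ω τ).1 := fun b τ => by
    by_cases e : τ = c
    · rw [e, update_self]
    · rw [update_of_ne e]
  have ad : ∀ b, R.AdmW (update ω c ((ω c).1, b)) := fun b τ => by rw [f1]; exact hω τ
  have ne : ∀ b, Near N ω (update ω c ((ω c).1, b)) := fun b w hw =>
    (update_of_ne (by rintro rfl; omega) _ _).symm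
  have hd : ∀ b, (hardF (R.O (update ω c ((ω c).1, b))) K x).head? = some b := fun b => by
    obtain ⟨m, hm⟩ : ∃ m, n = m + 1 := ⟨n - 1, by omega⟩
    rw [hardF, ← hn, hm, List.range_succ_eq_map, List.map_cons, List.head?_cons, ← hc, Par.O,
      mem_orc_free rfl, update_self]
    simp
  refine ⟨x, _, _, ad true, ad false, ne true, ne false, fun w hw => ?_, hd true, by simp [hd]⟩
  rw [← hn] at hw
  refine orc_agree (fun _ => ?_) ?_
  · have : w ≠ c := by rintro rfl; omega
    rw [update_of_ne this, update_of_ne this]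
  · rintro τ m u rfl hm
    rw [cell_len] at hw
    by_cases hτ : τ.length < n / 4
    · rw [f1, f1, short_agree (ad true) (ad false) (fun τ _ => by rw [f1, f1]) (fun v hv _ => by
        have : v ≠ c := by rintro rfl; exact hx 0 hv
        rw [update_of_ne this, update_of_ne this]) (fun τ k u _ _ => by rw [f1, f1]) hτ]
    · have := hg (not_lt.1 hτ)
      omega

end Pool.Agent.P.MP_d0c5d0_lc
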