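import Pool.Agent.P.MP_d0c5d0_lc.ToTM

/-! Standard copies of machines: there are countably many behaviours. -/

namespace Pool.Agent.P.MP_d0c5d0_lc

open Classical Function

variable {α β α' β' : Type}

/-- machines with standard finite types -/
def Std (α β : Type) : Type :=
  Σ n : ℕ × ℕ × ℕ, Fin n.1 × Fin n.2.1 × Set (Fin n.1) ×
    (Fin n.1 → In α → (Fin n.2.2 → Fin n.2.1) →
      Set (Eff β (Fin n.2.1) (Fin n.2.2) × Fin n.1 × Fin n.1))

def Std.tm (S : Std α β) : TM α β :=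
  ⟨Fin S.1.1, Fin S.1.2.1, Fin S.1.2.2, inferInstance, inferInstance, inferInstance,
    S.2.1, S.2.2.1, S.2.2.2.1, S.2.2.2.2⟩

theorem trans_fin_in [Finite α] : Finite (In α) := by
  refine Finite.of_surjective (fun o : Bool ⊕ α =>
    Sum.elim (fun b => if b then In.lend else In.rend) In.sym o) fun i => ?_
  cases i with
  | lend => exact ⟨Sum.inl true, rfl⟩
  | rend => exact ⟨Sum.inl false, rfl⟩
  | sym a => exact ⟨Sum.inr a, rfl⟩

theorem trans_fin_qop : Finite Qop := by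
  refine Finite.of_surjective (fun o : Bool ⊕ Bool =>
    Sum.elim (fun b => if b then Qop.no else Qop.ask) Qop.push o) fun i => ?_
  cases i with
  | no => exact ⟨Sum.inl true, rfl⟩
  | ask => exact ⟨Sum.inl false, rfl⟩
  | push a => exact ⟨Sum.inr a, rfl⟩

theorem trans_fin_eff {Γ ι : Type} [Finite β] [Finite Γ] [Finite ι] : Finite (Eff β Γ ι) := by
  have := trans_fin_qop
  exact Finite.of_surjective
    (fun o : (ι → Γ) × (ι → SignType) × SignType × Option β × Qop =>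
      (⟨o.1, o.2.1, o.2.2.1, o.2.2.2.1, o.2.2.2.2⟩ : Eff β Γ ι))
    fun e => ⟨(e.wr, e.mv, e.im, e.out, e.qo), rfl⟩

theorem std_countable [Finite α] [Finite β] : Countable (Std α β) := by
  have : Finite (In α) := trans_fin_in
  have : ∀ a b : ℕ, Finite (Eff β (Fin a) (Fin b)) := fun _ _ => trans_fin_eff
  have h : ∀ n : ℕ × ℕ × ℕ, Countable (Fin n.1 × Fin n.2.1 × Set (Fin n.1) ×
    (Fin n.1 → In α → (Fin n.2.2 → Fin n.2.1) →
      Set (Eff β (Fin n.2.1) (Fin n.2.2) × Fin n.1 × Fin n.1))) := fun n => Finite.to_countable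
  exact @instCountableSigma _ _ _ h

theorem trans_pre {A B : Type} (e : A ≃ B) (s : Set A) (r : A) : e r ∈ e.symm ⁻¹' s ↔ r ∈ s := by
  rw [Set.mem_preimage, Equiv.symm_apply_apply]

/-- transport of input symbols -/
def trans_in (e : α → α') : In α → In α'
  | In.lend => In.lend
  | In.rend => In.rend
  | In.sym a => In.sym (e a)

theorem trans_inp (e : α ≃ α') (x : List α) (h : ℕ) :
    trans_in e.symm (inp (x.map e) h) = inp x h := by
  unfold inp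
  split_ifs
  · rfl
  · rw [List.getElem?_map]
    cases x[h - 1]? with
    | none => rfl
    | some a => simp [trans_in]

/-- transport of effects -/
def trans_eff {Γ Γ' ι ι' : Type} (eβ : β ≃ β') (eΓ : Γ ≃ Γ') (eι : ι ≃ ι') :
    Eff β Γ ι ≃ Eff β' Γ' ι' where
  toFun e := ⟨fun i => eΓ (e.wr (eι.symm i)), fun i => e.mv (eι.symm i), e.im, e.out.map eβ, e.qo⟩
  invFun e := ⟨fun i => eΓ.symm (e.wr (eι i)), fun i => e.mv (eι i), e.im, e.out.map eβ.symm, e.qo⟩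
  left_inv e := by
    cases e
    simp [Option.map_map]
  right_inv e := by
    cases e
    simp [Option.map_map]

/-- transport of tapes -/
def trans_dat {Γ Γ' ι ι' : Type} (eβ : β ≃ β') (eΓ : Γ ≃ Γ') (eι : ι ≃ ι') :
    Dat β Γ ι ≃ Dat β' Γ' ι' where
  toFun d := ⟨d.ih, fun i z => eΓ (d.tp (eι.symm i) z), fun i => d.hd (eι.symm i), d.out.map eβ, d.qt⟩
  invFun d := ⟨d.ih, fun i z => eΓ.symm (d.tp (eι i) z), fun i => d.hd (eι i), d.out.map eβ.symm, d.qt⟩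
  left_inv d := by
    cases d
    simp [List.map_map]
  right_inv d := by
    cases d
    simp [List.map_map]

theorem trans_upd {Γ Γ' ι ι' : Type} (eβ : β ≃ β') (eΓ : Γ ≃ Γ') (eι : ι ≃ ι') (n : ℕ)
    (d : Dat β Γ ι) (e : Eff β Γ ι) :
    trans_dat eβ eΓ eι (d.upd n e) = (trans_dat eβ eΓ eι d).upd n (trans_eff eβ eΓ eι e) := by
  show Dat.mk _ _ _ _ _ = Dat.mk _ _ _ _ _
  congr 1
  · funext i z
    show eΓ (Function.update (d.tp (eι.symm i)) (d.hd (eι.symm i)) (e.wr (eι.symm i)) z) =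
      Function.update (fun z => eΓ (d.tp (eι.symm i) z)) (d.hd (eι.symm i))
        (eΓ (e.wr (eι.symm i))) z
    simp only [Function.update_apply]
    split_ifs <;> rfl
  · show (d.out ++ e.out.toList).map eβ = d.out.map eβ ++ (e.out.map eβ).toList
    rw [List.map_append]
    cases e.out <;> rfl

/-- the standard copy -/
def trans_std (M : TM α β) (eα : α ≃ α') (eβ : β ≃ β') {a b c : ℕ} (eQ : M.Q ≃ Fin a)
    (eΓ : M.Γ ≃ Fin b) (eι : M.ι ≃ Fin c) : Std α' β' :=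
  ⟨(a, b, c), eQ M.start, eΓ M.blank, eQ.symm ⁻¹' M.acc, fun q i g =>
    ((trans_eff eβ eΓ eι).prodCongr (eQ.prodCongr eQ)).symm ⁻¹'
      M.δ (eQ.symm q) (trans_in eα.symm i) fun j => eΓ.symm (g (eι j))⟩

theorem trans_del (M : TM α β) (eα : α ≃ α') (eβ : β ≃ β') {a b c : ℕ} (eQ : M.Q ≃ Fin a)
    (eΓ : M.Γ ≃ Fin b) (eι : M.ι ≃ Fin c) (x : List α) (q : M.Q) (d : Dat β M.Γ M.ι) :
    (trans_std M eα eβ eQ eΓ eι).tm.δ (eQ q) (inp (x.map eα) (trans_dat eβ eΓ eι d).ih)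
      (trans_dat eβ eΓ eι d).rd =
    ((trans_eff eβ eΓ eι).prodCongr (eQ.prodCongr eQ)).symm ⁻¹' M.δ q (inp x d.ih) d.rd := by
  show ((trans_eff eβ eΓ eι).prodCongr (eQ.prodCongr eQ)).symm ⁻¹'
      M.δ (eQ.symm (eQ q)) (trans_in eα.symm (inp (x.map eα) d.ih))
        (fun j => eΓ.symm (eΓ (d.tp (eι.symm (eι j)) (d.hd (eι.symm (eι j)))))) = _
  simp only [Equiv.symm_apply_apply, trans_inp]
  rfl

theorem trans_nxt {Γ Γ' ι ι' Q Q' : Type} (eβ : β ≃ β') (eΓ : Γ ≃ Γ') (eι : ι ≃ ι') (eQ : Q ≃ Q')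
    (O : Set (List Bool)) (d : Dat β Γ ι) (a : Eff β Γ ι × Q × Q) :
    nxt O (trans_dat eβ eΓ eι d) ((trans_eff eβ eΓ eι).prodCongr (eQ.prodCongr eQ) a) =
      eQ (nxt O d a) := by
  show (if a.1.qo = Qop.ask ∧ d.qt ∈ O then eQ a.2.1 else eQ a.2.2) =
    eQ (if a.1.qo = Qop.ask ∧ d.qt ∈ O then a.2.1 else a.2.2)
  split_ifs <;> rfl

theorem trans_step (M : TM α β) (eα : α ≃ α') (eβ : β ≃ β') {a b c : ℕ} (eQ : M.Q ≃ Fin a)
    (eΓ : M.Γ ≃ Fin b) (eι : M.ι ≃ Fin c) (O : Set (List Bool)) (x : List α) (u v : M.Cfg) :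
    M.Step O x u v ↔ (trans_std M eα eβ eQ eΓ eι).tm.Step O (x.map eα)
      (eQ.prodCongr (trans_dat eβ eΓ eι) u) (eQ.prodCongr (trans_dat eβ eΓ eι) v) := by
  have key : ∀ r : Eff β M.Γ M.ι × M.Q × M.Q,
      eQ.prodCongr (trans_dat eβ eΓ eι) (nxt O u.2 r, u.2.upd x.length r.1) =
        (nxt O (trans_dat eβ eΓ eι u.2) ((trans_eff eβ eΓ eι).prodCongr (eQ.prodCongr eQ) r),
          (trans_dat eβ eΓ eι u.2).upd (x.map eα).length
            ((trans_eff eβ eΓ eι).prodCongr (eQ.prodCongr eQ) r).1) := fun r => by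
    rw [trans_nxt, List.length_map]
    exact Prod.ext rfl (trans_upd eβ eΓ eι _ _ _)
  have hd := trans_del M eα eβ eQ eΓ eι x u.1 u.2
  constructor
  · rintro ⟨r, hr, rfl⟩
    refine ⟨(trans_eff eβ eΓ eι).prodCongr (eQ.prodCongr eQ) r, ?_, key r⟩
    exact hd.ge ((trans_pre _ _ _).2 hr)
  · rintro ⟨r', hr, h⟩
    obtain ⟨r, rfl⟩ := ((trans_eff eβ eΓ eι).prodCongr (eQ.prodCongr eQ)).surjective r'
    have hr' := (trans_pre _ _ _).1 (hd.le hr)
    exact ⟨r, hr', (eQ.prodCongr (trans_dat eβ eΓ eι)).injective (h.trans (key r).symm)⟩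

theorem trans_run {M : TM α β} {N : TM α' β'} (φ : M.Cfg ≃ N.Cfg) {O : Set (List Bool)}
    {x : List α} {y : List α'} (h : ∀ u v, M.Step O x u v → N.Step O y (φ u) (φ v))
    {c c' : M.Cfg} {t : ℕ} (r : M.Run O x c t c') : N.Run O y (φ c) t (φ c') := by
  induction r with
  | nil c => exact TM.Run.nil _
  | cons s _ ih => exact TM.Run.cons (h _ _ s) ih

theorem trans_ex (M : TM α β) (eα : α ≃ α') (eβ : β ≃ β') :
    ∃ (S : Std α' β') (φ : M.Cfg ≃ S.tm.Cfg), (M.Det → S.tm.Det) ∧ φ M.init = S.tm.init ∧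
      (∀ O x c t c', M.Run O x c t c' ↔ S.tm.Run O (x.map eα) (φ c) t (φ c')) ∧
      (∀ O x t c, M.Ends O x t c ↔ S.tm.Ends O (x.map eα) t (φ c)) ∧
      (∀ c, c.1 ∈ M.acc ↔ (φ c).1 ∈ S.tm.acc) ∧ (∀ c, (φ c).2.out = c.2.out.map eβ) ∧
      ∀ c (B : ℤ), (∀ i, |c.2.hd i| ≤ B) ↔ ∀ i, |(φ c).2.hd i| ≤ B := by
  have := M.finQ
  have := M.finΓ
  have := M.finι
  obtain ⟨a, ⟨eQ⟩⟩ := Finite.exists_equiv_fin M.Q
  obtain ⟨b, ⟨eΓ⟩⟩ := Finite.exists_equiv_fin M.Γ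
  obtain ⟨c, ⟨eι⟩⟩ := Finite.exists_equiv_fin M.ι
  let φ : M.Cfg ≃ (trans_std M eα eβ eQ eΓ eι).tm.Cfg := eQ.prodCongr (trans_dat eβ eΓ eι)
  have hi : φ M.init = (trans_std M eα eβ eQ eΓ eι).tm.init := rfl
  have hr : ∀ O x u t v, M.Run O x u t v ↔
      (trans_std M eα eβ eQ eΓ eι).tm.Run O (x.map eα) (φ u) t (φ v) := fun O x u t v => by
    refine ⟨trans_run φ fun u v => (trans_step M eα eβ eQ eΓ eι O x u v).1, fun h => ?_⟩
    have h1 := trans_run (N := M) (y := x) φ.symm (fun u' v' hs => by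
      refine (trans_step M eα eβ eQ eΓ eι O x _ _).2 ?_
      show (trans_std M eα eβ eQ eΓ eι).tm.Step O (x.map eα) (φ (φ.symm u')) (φ (φ.symm v'))
      rwa [φ.apply_symm_apply, φ.apply_symm_apply]) h
    rwa [φ.symm_apply_apply, φ.symm_apply_apply] at h1
  refine ⟨trans_std M eα eβ eQ eΓ eι, φ, fun hM q i g => ?_, hi, hr, fun O x t u => ?_,
    fun u => ?_, fun u => rfl, fun u B => ⟨fun h i => h (eι.symm i), fun h i => ?_⟩⟩
  · exact (hM _ _ _).preimage (Equiv.injective _)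
  · refine and_congr (hi ▸ hr O x _ t u) ?_
    have hd := trans_del M eα eβ eQ eΓ eι x u.1 u.2
    constructor
    · intro h
      refine hd.trans ?_
      rw [h]
      rfl
    · intro h
      have h2 := hd.symm.trans h
      refine Set.eq_empty_of_forall_notMem fun r hr => ?_
      exact h2.le ((trans_pre _ _ _).2 hr)
  · show u.1 ∈ M.acc ↔ eQ.symm (eQ u.1) ∈ M.acc
    rw [Equiv.symm_apply_apply]
  · have h1 : |u.2.hd (eι.symm (eι i))| ≤ B := h (eι i)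
    rwa [Equiv.symm_apply_apply] at h1

theorem enum_ex : ∃ fam : ℕ → TM Bool Empty, ∀ M : TM Bool Empty, ∃ e, (M.Det → (fam e).Det) ∧
    ∀ O x t (b : Prop), (∃ c, M.Ends O x t c ∧ (c.1 ∈ M.acc ↔ b)) ↔
      ∃ c, (fam e).Ends O x t c ∧ (c.1 ∈ (fam e).acc ↔ b) := by
  have : Countable (Std Bool Empty) := std_countable
  have : Nonempty (Std Bool Empty) :=
    ⟨⟨(1, 1, 0), (0 : Fin 1), (0 : Fin 1), ∅, fun _ _ _ => ∅⟩⟩
  obtain ⟨f, hf⟩ := exists_surjective_nat (Std Bool Empty)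
  refine ⟨fun e => (f e).tm, fun M => ?_⟩
  obtain ⟨S, φ, h1, -, -, h2, h3, -⟩ := trans_ex M (Equiv.refl Bool) (Equiv.refl Empty)
  obtain ⟨e, rfl⟩ := hf S
  refine ⟨e, h1, fun O x t b => ?_⟩
  have h4 : ∀ c, M.Ends O x t c ↔ (f e).tm.Ends O x t (φ c) := fun c => by
    have h := h2 O x t c
    rwa [Equiv.coe_refl, List.map_id] at h
  constructor
  · rintro ⟨c, hc, hb⟩
    exact ⟨φ c, (h4 c).1 hc, (h3 c).symm.trans hb⟩
  · rintro ⟨c', hc, hb⟩
    obtain ⟨c, rfl⟩ := φ.surjective c'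
    exact ⟨c, (h4 c).2 hc, (h3 c).trans hb⟩

end Pool.Agent.P.MP_d0c5d0_lc
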