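import Pool.Agent.P.MP_d0c5d0_lc.Adv
import Pool.Agent.P.MP_d0c5d0_lc.NLow
import Pool.Agent.P.MP_d0c5d0_lc.Trans

/-! Diagonalisation. -/

namespace Pool.Agent.P.MP_d0c5d0_lc

open Classical Function

/-- the machine stops within `T` steps and accepts iff `b` -/
def diagOk (M : TM Bool Empty) (O : Set (List Bool)) (x : List Bool) (T : ℕ) (b : Prop) : Prop :=
  ∃ t ≤ T, ∃ c, M.Ends O x t c ∧ (c.1 ∈ M.acc ↔ b)

theorem diag_congr {M : TM Bool Empty} {O O' : Set (List Bool)} {x : List Bool} {T : ℕ} {b : Prop}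
    (hO : ∀ w : List Bool, w.length ≤ T → (w ∈ O ↔ w ∈ O')) (h : diagOk M O x T b) :
    diagOk M O' x T b := by
  obtain ⟨t, ht, c, h1, h2⟩ := h
  exact ⟨t, ht, c, h1.congr hO ht, h2⟩

theorem diag_stab (R : Par) (K : ℕ) (x : List Bool) (T : ℕ) : ∃ N, ∀ ω ω', R.AdmW ω → R.AdmW ω' →
    Near N ω ω' → (∀ w : List Bool, w.length ≤ T → (w ∈ R.O ω' ↔ w ∈ R.O ω)) ∧
      hardF (R.O ω') K x = hardF (R.O ω) K x ∧
      (bet (hardF (R.O ω') K x) ∈ R.O ω' ↔ bet (hardF (R.O ω) K x) ∈ R.O ω) := by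
  obtain ⟨N, hN⟩ := loc R (T + 2 * x.length + x.length ^ K + 3)
  refine ⟨N, fun ω ω' hω hω' h => ?_⟩
  have h0 := hN ω ω' hω hω' h
  have h1 : hardF (R.O ω') K x = hardF (R.O ω) K x := by
    unfold hardF
    refine List.map_congr_left fun i hi => ?_
    have hi' := List.mem_range.1 hi
    rw [decide_eq_decide]
    exact (h0 _ (by rw [hard_len]; omega)).symm
  refine ⟨fun w hw => (h0 w (by omega)).symm, h1, ?_⟩
  rw [h1]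
  refine (h0 _ ?_).symm
  simp only [bet, List.length_cons, hardF_len]
  omega

theorem diag_fusion (R : Par) {ι : Type} [Countable ι] [Nonempty ι] (Rq : ι → World → Prop)
    (h : ∀ e ω N, R.AdmW ω → ∃ ω' N', R.AdmW ω' ∧ Near N ω ω' ∧
      ∀ ω'', R.AdmW ω'' → Near N' ω' ω'' → Rq e ω'') : ∃ ω, R.AdmW ω ∧ ∀ e, Rq e ω := by
  obtain ⟨f, hf⟩ := exists_surjective_nat ι
  obtain ⟨ω, h1, h2⟩ := fusion R (fun n => Rq (f n)) fun n => h (f n)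
  refine ⟨ω, h1, fun e => ?_⟩
  obtain ⟨n, rfl⟩ := hf e
  exact h2 n

theorem diag_D (R : Par) (j K k s : ℕ) (hK : k < K) (hj : 1 ≤ j) (hg : R.g = fun n => n ^ j)
    (hk : k ≤ j ∨ (k ≤ j + 1 ∧ ∀ a, R.tr a = [] ∨ R.tr a = [false]))
    (M : TM Bool Empty) (hM : M.Det) (ω : World) (hω : R.AdmW ω) (N : ℕ) :
    ∃ ω' N', R.AdmW ω' ∧ Near N ω ω' ∧ ∀ ω'', R.AdmW ω'' → Near N' ω' ω'' →
      ∃ x, ¬ diagOk M (R.O ω'') x (s * (x.length + 1) ^ k)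
        (bet (hardF (R.O ω'') K x) ∈ R.O ω'') := by
  obtain ⟨x, hx⟩ := adv R j K k s hK hj hg hk ω hω N
  obtain ⟨st, hst, hrun⟩ := game_ex M hM x
  obtain ⟨ω₁, ω₂, a1, a2, n1, n2, he, b1, b2⟩ := hx M.Cfg st (fun c => c.2.qt) M.init hst rfl
  obtain ⟨N', hN'⟩ := diag_stab R K x (s * (x.length + 1) ^ k)
  have key : ∀ ω', R.AdmW ω' → ¬ diagOk M (R.O ω') x (s * (x.length + 1) ^ k)
      (bet (hardF (R.O ω') K x) ∈ R.O ω') → ∀ ω'', R.AdmW ω'' → Near N' ω' ω'' →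
      ∃ x, ¬ diagOk M (R.O ω'') x (s * (x.length + 1) ^ k)
        (bet (hardF (R.O ω'') K x) ∈ R.O ω'') := by
    intro ω' a' hn ω'' a'' hnear
    obtain ⟨h1, -, h3⟩ := hN' ω' ω'' a' a'' hnear
    refine ⟨x, fun h => hn ?_⟩
    rw [propext h3] at h
    exact diag_congr h1 h
  by_cases h1 : diagOk M (R.O ω₁) x (s * (x.length + 1) ^ k) (bet (hardF (R.O ω₁) K x) ∈ R.O ω₁)
  · refine ⟨ω₂, N', a2, n2, key ω₂ a2 ?_⟩
    rintro ⟨t₂, ht₂, c₂, e₂, f₂⟩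
    obtain ⟨t₁, ht₁, c₁, e₁, f₁⟩ := h1
    rw [hrun _ _ _ _ e₁ ht₁, hrun _ _ _ _ e₂ ht₂] at he
    exact b2 (f₂.1 (he ▸ f₁.2 b1))
  · exact ⟨ω₁, N', a1, n1, key ω₁ a1 h1⟩

theorem diag_N (R : Par) (K k s : ℕ) (hK : k < K) (hg : Monotone R.g)
    (hg' : ∀ᶠ n in Filter.atTop, s * (n + 1) ^ k < R.g (n / 4))
    (M : TM Bool Empty) (ω : World) (hω : R.AdmW ω) (N : ℕ) :
    ∃ ω' N', R.AdmW ω' ∧ Near N ω ω' ∧ ∀ ω'', R.AdmW ω'' → Near N' ω' ω'' →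
      ∃ x, ¬ ((hardF (R.O ω'') K x).head? = some true ↔
        diagOk M (R.O ω'') x (s * (x.length + 1) ^ k) True) := by
  obtain ⟨x, ω₁, ω₂, a1, a2, n1, n2, he, b1, b2⟩ := nlow R K k s hK hg hg' ω hω N
  obtain ⟨N', hN'⟩ := diag_stab R K x (s * (x.length + 1) ^ k)
  have key : ∀ ω', R.AdmW ω' → ¬ ((hardF (R.O ω') K x).head? = some true ↔
      diagOk M (R.O ω') x (s * (x.length + 1) ^ k) True) → ∀ ω'', R.AdmW ω'' → Near N' ω' ω'' →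
      ∃ x, ¬ ((hardF (R.O ω'') K x).head? = some true ↔
        diagOk M (R.O ω'') x (s * (x.length + 1) ^ k) True) := by
    intro ω' a' hn ω'' a'' hnear
    obtain ⟨h1, h2, -⟩ := hN' ω' ω'' a' a'' hnear
    refine ⟨x, fun h => hn ?_⟩
    rw [← h2, h]
    exact ⟨diag_congr h1, diag_congr fun w hw => (h1 w hw).symm⟩
  by_cases h1 : diagOk M (R.O ω₁) x (s * (x.length + 1) ^ k) True
  · exact ⟨ω₂, N', a2, n2, key ω₂ a2 fun h => b2 (h.2 (diag_congr he h1))⟩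
  · exact ⟨ω₁, N', a1, n1, key ω₁ a1 fun h => h1 (h.1 b1)⟩

/-- requirement lists: `D` = exponents `(K, k)` against deterministic time, `Nn` against
nondeterministic time -/
theorem diag (R : Par) (D Nn : Set (ℕ × ℕ))
    (hD : ∀ q ∈ D, ∃ j, q.2 < q.1 ∧ 1 ≤ j ∧ (R.g = fun n => n ^ j) ∧
      (q.2 ≤ j ∨ (q.2 ≤ j + 1 ∧ ∀ a, R.tr a = [] ∨ R.tr a = [false])))
    (hN : ∀ q ∈ Nn, q.2 < q.1 ∧ Monotone R.g ∧
      ∀ s, ∀ᶠ n in Filter.atTop, s * (n + 1) ^ q.2 < R.g (n / 4)) :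
    ∃ ω, R.AdmW ω ∧
      (∀ q ∈ D, ¬ DTIME (R.O ω) q.2 {x | bet (hardF (R.O ω) q.1 x) ∈ R.O ω}) ∧
      ∀ q ∈ Nn, ¬ NTIME (R.O ω) q.2 {x | (hardF (R.O ω) q.1 x).head? = some true} := by
  obtain ⟨fam, hfam⟩ := enum_ex
  obtain ⟨ω, hω, hR⟩ := diag_fusion R (ι := ((ℕ × ℕ) × ℕ × ℕ) ⊕ ((ℕ × ℕ) × ℕ × ℕ))
    (Sum.elim
      (fun e ω => e.1 ∈ D → (fam e.2.1).Det → ∃ x, ¬ diagOk (fam e.2.1) (R.O ω) x
        (e.2.2 * (x.length + 1) ^ e.1.2) (bet (hardF (R.O ω) e.1.1 x) ∈ R.O ω))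
      (fun e ω => e.1 ∈ Nn → ∃ x, ¬ ((hardF (R.O ω) e.1.1 x).head? = some true ↔
        diagOk (fam e.2.1) (R.O ω) x (e.2.2 * (x.length + 1) ^ e.1.2) True))) (by
    rintro (⟨q, i, s⟩ | ⟨q, i, s⟩) ω N hω
    · by_cases h : q ∈ D ∧ (fam i).Det
      · obtain ⟨j, h1, h2, h3, h4⟩ := hD q h.1
        obtain ⟨ω', N', a, b, c⟩ := diag_D R j q.1 q.2 s h1 h2 h3 h4 (fam i) h.2 ω hω N
        exact ⟨ω', N', a, b, fun ω'' a' b' _ _ => c ω'' a' b'⟩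
      · exact ⟨ω, 0, hω, fun _ _ => rfl, fun _ _ _ h1 h2 => absurd ⟨h1, h2⟩ h⟩
    · by_cases h : q ∈ Nn
      · obtain ⟨h1, h2, h3⟩ := hN q h
        obtain ⟨ω', N', a, b, c⟩ := diag_N R q.1 q.2 s h1 h2 (h3 s) (fam i) ω hω N
        exact ⟨ω', N', a, b, fun ω'' a' b' _ => c ω'' a' b'⟩
      · exact ⟨ω, 0, hω, fun _ _ => rfl, fun _ _ _ h1 => absurd h1 h⟩)
  refine ⟨ω, hω, ?_, ?_⟩
  · rintro q hq ⟨M, hM, s, hs⟩
    obtain ⟨i, h1, h2⟩ := hfam M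
    obtain ⟨x, hx⟩ := hR (Sum.inl (q, i, s)) hq (h1 hM)
    obtain ⟨t, ht, hc⟩ := hs x
    exact hx ⟨t, ht, (h2 _ _ _ _).1 hc⟩
  · rintro q hq ⟨M, s, hs⟩
    obtain ⟨i, -, h2⟩ := hfam M
    obtain ⟨x, hx⟩ := hR (Sum.inr (q, i, s)) hq
    refine hx ⟨fun h => ?_, ?_⟩
    · obtain ⟨t, ht, c, h3, h4⟩ := (hs x).1 h
      exact ⟨t, ht, (h2 _ _ _ _).1 ⟨c, h3, iff_true_intro h4⟩⟩
    · rintro ⟨t, -, hc⟩
      obtain ⟨c, h3, h4⟩ := (h2 _ _ _ _).2 hc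
      exact (hs x).2 t c h3 (h4.2 trivial)

end Pool.Agent.P.MP_d0c5d0_lc
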