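import Pool.Agent.P.MP_d0c5d0_lc.Host
import Pool.Agent.P.MP_d0c5d0_lc.Cod

/-! One step of a simulated machine that uses the real input head; deciders as transducers. -/

namespace Pool.Agent.P.MP_d0c5d0_lc

open Classical Function

variable {α β α' β' κ X : Type}

/-- load the tapes of a simulated configuration into a host state -/
def HS.load {Γ ι : Type} (s : HS β Γ ι κ X) (d : Dat β' Γ ι) : HS β Γ ι κ X :=
  {s with ih := d.ih, tp := d.tp, hd := d.hd, qt := d.qt}

/-- the host effect of a simulated effect -/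
noncomputable def simEff {Γ ι : Type} (β : Type) (j : In α') (g : ι ⊕ κ → Γ × Option X)
    (e : Eff β' Γ ι) : Eff β (Γ × Option X) (ι ⊕ κ) :=
  ⟨Sum.elim (fun i => (e.wr i, none)) (fun k => g (Sum.inr k)), Sum.elim e.mv (fun _ => 0),
    if e.im = 1 ∧ j = In.rend then 0 else e.im, none, e.qo⟩

theorem sim_rend {x : List α} {h : ℕ} (hh : h ≤ x.length + 1) :
    inp x h = In.rend ↔ h = x.length + 1 := by
  refine ⟨fun h1 => ?_, fun h1 => h1 ▸ inp_end x⟩
  cases h with
  | zero => rw [inp_zero] at h1; cases h1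
  | succ h =>
    by_contra h2
    rw [inp_lt x (by omega)] at h1
    cases h1

theorem sim_upd {Γ ι : Type} (bl : Γ) {n : ℕ} (x : List α') (d : Dat β' Γ ι) (s : HS β Γ ι κ X)
    (hn : x.length ≤ n) (hd : d.ih ≤ x.length + 1) (e : Eff β' Γ ι) :
    ((s.load d).dat bl).upd n (simEff β (inp x d.ih) ((s.load d).dat bl).rd e) =
      (s.load (d.upd x.length e)).dat bl := by
  simp only [Dat.upd, HS.dat, HS.load, simEff, Dat.mk.injEq, sim_rend hd]
  refine ⟨?_, ?_, ?_, by simp, trivial⟩
  · rcases e.im with _ | _ | _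
    · simp
    · simp
    · by_cases h : d.ih = x.length + 1
      · simp [h]
      · simp [h]; omega
  · funext i z
    rcases i with i | k
    · by_cases hz : z = d.hd i
      · subst hz; simp
      · simp [hz]
    · by_cases hz : z = s.p k
      · subst hz; simp [Dat.rd]
      · simp [hz]
  · funext i
    rcases i with i | k <;> simp

/-- one step of `M`, which sees the host input through `vw`; the host input starts with a copy of the
virtual input `x`.  The output letter of `M` is returned, not written. -/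
theorem sstep_ex (β κ X : Type) [Finite β'] (M : TM α' β') (vw : In α → In α') :
    ∃ P : M.Q → HP α β M.Γ M.ι κ X (Option (M.Q × Option β')), (M.Det → ∀ q, (P q).Det) ∧
      ∀ (bl : M.Γ) (C : Ctx α (M.ι ⊕ κ)) (x : List α') (c : M.Cfg) (s : HS β M.Γ M.ι κ X),
        x.length ≤ C.x.length → (∀ h ≤ x.length + 1, vw (inp C.x h) = inp x h) →
        c.2.ih ≤ x.length + 1 → (s.load c.2).ok C →
        (M.δ c.1 (inp x c.2.ih) c.2.rd = ∅ → Pg.Hv (P c.1) bl C (s.load c.2) 1 none (s.load c.2)) ∧
        ∀ a ∈ M.δ c.1 (inp x c.2.ih) c.2.rd, (s.load (c.2.upd x.length a.1)).ok C →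
          Pg.Hv (P c.1) bl C (s.load c.2) 1 (some (nxt C.O c.2 a, a.1.out))
            (s.load (c.2.upd x.length a.1)) := by
  have := M.finQ
  refine ⟨fun q => Pg.one fun i g =>
    if M.δ q (vw i) (fun j => (g (Sum.inl j)).1) = ∅ then {(nop g, none, none)} else
      (fun a => (simEff β (vw i) g a.1, some (a.2.1, a.1.out), some (a.2.2, a.1.out))) ''
        M.δ q (vw i) (fun j => (g (Sum.inl j)).1), fun hM q => det_one fun i g => ?_,
    fun bl C x c s hx hv hc hok => ?_⟩
  · split_ifs
    · exact Set.subsingleton_singleton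
    · exact (hM _ _ _).image _
  have h1 : vw (inp C.x ((s.load c.2).dat bl).ih) = inp x c.2.ih := hv _ hc
  have h2 : (fun j => (((s.load c.2).dat bl).rd (Sum.inl j)).1) = c.2.rd := rfl
  refine ⟨fun h => ?_, fun a ha hok' => ?_⟩
  · have h3 := ev_one (C := C) (d := (s.load c.2).dat bl) (f := fun i g =>
      if M.δ c.1 (vw i) (fun j => (g (Sum.inl j)).1) = ∅ then {(nop g, none, none)} else
        (fun a => (simEff β (vw i) g a.1, some (a.2.1, a.1.out), some (a.2.2, a.1.out))) ''
          M.δ c.1 (vw i) (fun j => (g (Sum.inl j)).1))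
      (a := (nop ((s.load c.2).dat bl).rd, none, none))
      (by rw [h1, h2, if_pos h]; rfl) hok (by rw [upd_nop]; exact hok)
    rw [nxt_same, upd_nop] at h3
    exact h3
  · have h4 := sim_upd bl x c.2 s hx hc a.1
    have h3 := ev_one (C := C) (d := (s.load c.2).dat bl) (f := fun i g =>
      if M.δ c.1 (vw i) (fun j => (g (Sum.inl j)).1) = ∅ then {(nop g, none, none)} else
        (fun a => (simEff β (vw i) g a.1, some (a.2.1, a.1.out), some (a.2.2, a.1.out))) ''
          M.δ c.1 (vw i) (fun j => (g (Sum.inl j)).1))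
      (a := (simEff β (inp x c.2.ih) ((s.load c.2).dat bl).rd a.1, some (a.2.1, a.1.out),
        some (a.2.2, a.1.out)))
      (by rw [h1, h2, if_neg (Set.Nonempty.ne_empty ⟨a, ha⟩)]; exact ⟨a, ha, rfl⟩) hok
      (by rw [h4]; exact hok')
    have h5 : nxt C.O ((s.load c.2).dat bl)
        (simEff β (inp x c.2.ih) ((s.load c.2).dat bl).rd a.1, some (a.2.1, a.1.out),
          some (a.2.2, a.1.out)) = some (nxt C.O c.2 a, a.1.out) := by
      show (if a.1.qo = Qop.ask ∧ c.2.qt ∈ C.O then _ else _) = _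
      unfold nxt
      split_ifs <;> rfl
    rw [h4, h5] at h3
    exact h3

theorem log_fun {O : Set (List Bool)} {A : Set (List α)} (h : LOG O A) : LogFun O (ind A) := by
  obtain ⟨M, hM, ⟨s, hs⟩, h⟩ := h
  have := M.finQ
  have := M.finΓ
  have := M.finι
  obtain ⟨P, hP, H⟩ := sstep_ex (α := α) Unit Empty Unit M id
  let K : M.Q → HP α Unit M.Γ M.ι Empty Unit (M.Q ⊕ Bool) := fun q => (P q).bind fun r =>
    r.elim (if q ∈ M.acc then (emit ()).seq (ret (Sum.inr true)) else ret (Sum.inr true))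
      fun p => ret (Sum.inl p.1)
  have hK : ∀ q, (K q).Det := fun q => det_bind (hP hM q) fun r => by
    cases r with
    | none =>
      show Pg.Det (if _ then _ else _)
      split_ifs
      · exact det_seq (det_emit _) (det_ret _)
      · exact det_ret _
    | some p => exact det_ret _
  refine logfun_of (P := Pg.iter K M.start) (M.blank, none) (det_iter hK _) s fun x => ?_
  obtain ⟨t, c, ⟨h1, h2⟩, h3⟩ := h x
  have hok : ∀ {t₀ c₀}, M.Run O x M.init t₀ c₀ → ((hs0 M.blank : HS Unit M.Γ M.ι Empty Unit).load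
      c₀.2).ok (cS O x (s * (Nat.log 2 (x.length + 1) + 1))) := fun h =>
    ok_cS.2 ⟨hs x _ _ h, fun k => k.elim⟩
  have key : ∀ {c₀ t c}, M.Run O x c₀ t c → M.δ c.1 (inp x c.2.ih) c.2.rd = ∅ →
      (c.1 ∈ M.acc ↔ x ∈ A) → ∀ t₀, M.Run O x M.init t₀ c₀ →
      ∃ t' s', Pg.Hv (Pg.iter K c₀.1) M.blank (cS O x (s * (Nat.log 2 (x.length + 1) + 1)))
        ((hs0 M.blank).load c₀.2) t' true s' ∧ s'.out = ind A x := by
    intro c₀ t c hr
    induction hr with
    | nil c =>
      intro h2 h3 t₀ h0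
      have h4 := (H M.blank (cS O x _) x c (hs0 M.blank) le_rfl (fun _ _ => rfl)
        (h0.ih_le (Nat.zero_le _)) (hok h0)).1 h2
      by_cases hc : c.1 ∈ M.acc
      · refine ⟨_, _, hv_iter_done (hv_bind h4 (by
          show Pg.Hv (if _ then _ else _) _ _ _ _ _ _
          rw [if_pos hc]
          exact hv_seq (hv_emit () (hok h0)) (hv_ret _ (hok h0)))), ?_⟩
        simp [ind, h3.1 hc, HS.load, hs0]
      · refine ⟨_, _, hv_iter_done (hv_bind h4 (by
          show Pg.Hv (if _ then _ else _) _ _ _ _ _ _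
          rw [if_neg hc]
          exact hv_ret _ (hok h0))), ?_⟩
        simp [ind, mt h3.2 hc, HS.load, hs0]
    | @cons c₀ c₁ c t hst _ ih =>
      intro h2 h3 t₀ h0
      have h5 := h0.snoc hst
      obtain ⟨t', s', h6, h7⟩ := ih h2 h3 _ h5
      obtain ⟨a, ha, rfl⟩ := hst
      have h4 := (H M.blank (cS O x _) x c₀ (hs0 M.blank) le_rfl (fun _ _ => rfl)
        (h0.ih_le (Nat.zero_le _)) (hok h0)).2 a ha (hok h5)
      exact ⟨_, s', hv_iter_more (hv_bind h4 (hv_ret _ (hok h5))) h6, h7⟩
  obtain ⟨t', s', h4, h5⟩ := key h1 h2 h3 0 (.nil _)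
  refine ⟨t', true, s'.dat M.blank, ?_, h5⟩
  rw [← hs0_dat]
  exact h4

end Pool.Agent.P.MP_d0c5d0_lc
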