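import Pool.Agent.P.MP_d0c5d0_lc.Cnt
import Pool.Agent.P.MP_d0c5d0_lc.Sim

/-! The graph of a log-lin function is decidable in logarithmic space. -/

namespace Pool.Agent.P.MP_d0c5d0_lc

open Classical Function

section aux

variable {α β Γ ι κ X E F : Type}

/-- evaluation without a time bound -/
def graphHE (P : HP α β Γ ι κ X E) (bl : Γ) (C : Ctx α (ι ⊕ κ)) (s : HS β Γ ι κ X) (e : E)
    (s' : HS β Γ ι κ X) : Prop := ∃ t, Pg.Hv P bl C s t e s'

variable {bl : Γ} {C : Ctx α (ι ⊕ κ)} {s s' s₁ s₂ : HS β Γ ι κ X}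

theorem graph_bind [Finite E] {P : HP α β Γ ι κ X E} {K : E → HP α β Γ ι κ X F} {e f}
    (h : graphHE P bl C s e s₁) (h' : graphHE (K e) bl C s₁ f s₂) :
    graphHE (P.bind K) bl C s f s₂ :=
  let ⟨_, h⟩ := h; let ⟨_, h'⟩ := h'; ⟨_, hv_bind h h'⟩

theorem graph_seq {P : HP α β Γ ι κ X Unit} {R : HP α β Γ ι κ X F} {f}
    (h : graphHE P bl C s () s₁) (h' : graphHE R bl C s₁ f s₂) :
    graphHE (P.seq R) bl C s f s₂ :=
  let ⟨_, h⟩ := h; let ⟨_, h'⟩ := h'; ⟨_, hv_seq h h'⟩

theorem graph_cast {P : HP α β Γ ι κ X E} {e e'} (h : graphHE P bl C s e s₁) (he : e = e')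
    (hs : s₁ = s₂) : graphHE P bl C s e' s₂ := he ▸ hs ▸ h

theorem graph_whl {c : HP α β Γ ι κ X Bool} {b : HP α β Γ ι κ X Unit} (n : ℕ)
    (σ σ' : ℕ → HS β Γ ι κ X) (hc : ∀ i < n, graphHE c bl C (σ i) true (σ' i))
    (hb : ∀ i < n, graphHE b bl C (σ' i) () (σ (i + 1))) (he : graphHE c bl C (σ n) false s') :
    graphHE (whl c b) bl C (σ 0) () s' := by
  induction n generalizing σ σ' with
  | zero => obtain ⟨_, he⟩ := he; exact ⟨_, hv_whl_stop he⟩
  | succ n ih =>
    obtain ⟨_, h1⟩ := hc 0 (by omega)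
    obtain ⟨_, h2⟩ := hb 0 (by omega)
    obtain ⟨_, h3⟩ := ih (fun i => σ (i + 1)) (fun i => σ' (i + 1))
      (fun i hi => hc _ (by omega)) (fun i hi => hb _ (by omega)) he
    exact ⟨_, hv_whl_more h1 h2 h3⟩

end aux

theorem graph_u0 (h : DecidableEq (Fin 3)) (a b c d : ℕ) :
    @update _ (fun _ => ℕ) h ![a, b, c] 0 d = ![d, b, c] := by
  obtain rfl : h = instDecidableEqFin 3 := Subsingleton.elim _ _
  funext k; fin_cases k <;> simp
theorem graph_u1 (h : DecidableEq (Fin 3)) (a b c d : ℕ) :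
    @update _ (fun _ => ℕ) h ![a, b, c] 1 d = ![a, d, c] := by
  obtain rfl : h = instDecidableEqFin 3 := Subsingleton.elim _ _
  funext k; fin_cases k <;> simp
theorem graph_u2 (h : DecidableEq (Fin 3)) (a b c d : ℕ) :
    @update _ (fun _ => ℕ) h ![a, b, c] 2 d = ![a, b, d] := by
  obtain rfl : h = instDecidableEqFin 3 := Subsingleton.elim _ _
  funext k; fin_cases k <;> simp

/-- input head at `h`, counters `a b c` -/
def graphS {Γ ι : Type} (s : HS Empty Γ ι (Fin 3) Bool) (h a b c : ℕ) :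
    HS Empty Γ ι (Fin 3) Bool := HS.cs {s with ih := h} ![a, b, c]

/-- is the letter from the left alphabet -/
def graphL {α β : Type} : In (α ⊕ β) → Bool
  | In.sym (Sum.inl _) => true
  | _ => false

/-- the view of the simulated machine -/
def graphV {α β : Type} : In (α ⊕ β) → In α
  | In.lend => In.lend
  | In.sym (Sum.inl a) => In.sym a
  | _ => In.rend

section words

variable {α β : Type}

theorem graph_inp_l (x : List α) (r : List (α ⊕ β)) {i : ℕ} (hi : i < x.length) :
    inp (x.map Sum.inl ++ r) (i + 1) = In.sym (Sum.inl x[i]) := by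
  rw [inp_succ, List.getElem?_append_left (by simpa using hi)]
  simp [hi]

theorem graph_inp_r (x : List α) (r : List (α ⊕ β)) (j : ℕ) :
    inp (x.map Sum.inl ++ r) (min (x.length + 1 + j) ((x.map Sum.inl ++ r).length + 1))
      = (r[j]?).elim In.rend In.sym := by
  by_cases h : j < r.length
  · rw [min_eq_left (by simp; omega), show x.length + 1 + j = x.length + j + 1 by omega, inp_succ,
      List.getElem?_append_right (by simp)]
    simp
  · rw [min_eq_right (by simp; omega), inp_end, List.getElem?_eq_none (by omega)]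
    rfl

theorem graph_inp_m (x : List α) {r : List (α ⊕ β)} (hr : ∀ a, r[0]? ≠ some (Sum.inl a)) :
    graphL (inp (x.map Sum.inl ++ r) (x.length + 1)) = false ∧
      graphV (inp (x.map Sum.inl ++ r) (x.length + 1)) = In.rend := by
  have h := graph_inp_r x r 0
  rw [min_eq_left (by simp)] at h
  rw [show x.length + 1 = x.length + 1 + 0 from rfl, h]
  rcases h0 : r[0]? with _ | a | b
  · exact ⟨rfl, rfl⟩
  · exact absurd h0 (hr a)
  · exact ⟨rfl, rfl⟩

theorem graph_view (x : List α) {r : List (α ⊕ β)} (hr : ∀ a, r[0]? ≠ some (Sum.inl a)) :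
    ∀ h ≤ x.length + 1, graphV (inp (x.map Sum.inl ++ r) h) = inp x h := by
  intro h hh
  rcases h with _ | h
  · rw [inp_zero, inp_zero]; rfl
  · by_cases h1 : h < x.length
    · rw [graph_inp_l x r h1, inp_lt x h1]; rfl
    · obtain rfl : h = x.length := by omega
      rw [(graph_inp_m x hr).2, inp_end]

theorem graph_split (z : List (α ⊕ β)) :
    ∃ (x : List α) (r : List (α ⊕ β)), z = x.map Sum.inl ++ r ∧
      ∀ a, r[0]? ≠ some (Sum.inl a) := by
  induction z with
  | nil => exact ⟨[], [], rfl, by simp⟩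
  | cons c z ih =>
    rcases c with a | b
    · obtain ⟨x, r, rfl, hr⟩ := ih
      exact ⟨a :: x, r, rfl, hr⟩
    · exact ⟨[], Sum.inr b :: z, rfl, by simp⟩

theorem graph_inj {x x' : List α} {r r' : List (α ⊕ β)} (hr : ∀ a, r[0]? ≠ some (Sum.inl a))
    (hr' : ∀ a, r'[0]? ≠ some (Sum.inl a)) (h : x.map Sum.inl ++ r = x'.map Sum.inl ++ r') :
    x = x' ∧ r = r' := by
  induction x generalizing x' with
  | nil =>
    rcases x' with _ | ⟨a, x'⟩
    · exact ⟨rfl, h⟩
    · exact absurd (by rw [show r = _ from h]; rfl) (hr a)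
  | cons a x ih =>
    rcases x' with _ | ⟨a', x'⟩
    · exact absurd (by rw [← show _ = r' from h]; rfl) (hr' a)
    · simp only [List.map_cons, List.cons_append, List.cons.injEq, Sum.inl.injEq] at h
      obtain ⟨h1, h2⟩ := ih h.2
      exact ⟨by rw [h.1, h1], h2⟩

theorem graph_mem (f : List α → List β) (x : List α) {r : List (α ⊕ β)}
    (hr : ∀ a, r[0]? ≠ some (Sum.inl a)) :
    x.map Sum.inl ++ r ∈ Graph f ↔ r = (f x).map Sum.inr := by
  constructor
  · rintro ⟨x', h⟩
    obtain ⟨rfl, h2⟩ := graph_inj hr (by intro a; cases f x' <;> simp) h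
    exact h2
  · rintro rfl; exact ⟨x, rfl⟩

theorem graph_out {M : TM α β} {O x} {c c' : M.Cfg} {t : ℕ} (h : M.Run O x c t c') :
    ∃ w, c'.2.out = c.2.out ++ w := by
  induction h with
  | nil c => exact ⟨[], by simp⟩
  | cons h1 _ ih =>
    obtain ⟨a, -, rfl⟩ := h1
    obtain ⟨w, hw⟩ := ih
    exact ⟨a.1.out.toList ++ w, by rw [hw]; simp [Dat.upd]⟩

theorem graph_drop (r : List (α ⊕ β)) (j : ℕ) (c : α ⊕ β) (u : List (α ⊕ β)) :
    r.drop j = c :: u ↔ (r[j]?).elim In.rend In.sym = In.sym c ∧ r.drop (j + 1) = u := by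
  by_cases h : j < r.length
  · rw [List.drop_eq_getElem_cons h, List.getElem?_eq_getElem h, List.cons.injEq]
    simp only [Option.elim, In.sym.injEq]
  · rw [List.drop_eq_nil_of_le (by omega), List.getElem?_eq_none (by omega)]
    simp

theorem graph_drop_nil (r : List (α ⊕ β)) (j : ℕ) :
    r.drop j = [] ↔ (r[j]?).elim In.rend In.sym = In.rend := by
  by_cases h : j < r.length
  · rw [List.getElem?_eq_getElem h]
    simp [h]
  · rw [List.drop_eq_nil_of_le (by omega), List.getElem?_eq_none (by omega)]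
    simp

end words

theorem graph_logb (s₀ s N m : ℕ) (h : m ≤ (s + 3) * (N + 1)) :
    Nat.log 2 m + 2 ≤ (s₀ + s + 6) * (Nat.log 2 (N + 1) + 1) := by
  have h1 : N + 1 < 2 ^ (Nat.log 2 (N + 1) + 1) := Nat.lt_pow_succ_log_self (by norm_num) _
  have h2 : s + 3 ≤ 2 ^ (s + 3) := Nat.lt_two_pow_self.le
  have h3 : m < 2 ^ (s + 3 + (Nat.log 2 (N + 1) + 1)) := by
    rw [pow_add]
    exact lt_of_le_of_lt h (Nat.mul_lt_mul_of_le_of_lt h2 h1 (by positivity))
  have h4 : Nat.log 2 m ≤ s + 3 + (Nat.log 2 (N + 1) + 1) := by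
    rcases Nat.eq_zero_or_pos m with rfl | hm
    · simp
    · exact (Nat.log_lt_of_lt_pow hm.ne' h3).le
  nlinarith [Nat.zero_le (Nat.log 2 (N + 1)), Nat.zero_le s₀, Nat.zero_le s,
    Nat.zero_le (s₀ * Nat.log 2 (N + 1)), Nat.zero_le (s * Nat.log 2 (N + 1))]

/-- compare letter number `j` of the second part of the input with a target -/
theorem graph_check (α β Γ ι : Type) [Finite α] [Finite β] :
    ∃ chk : In (α ⊕ β) → HP (α ⊕ β) Empty Γ ι (Fin 3) Bool Bool, (∀ a, (chk a).Det) ∧
      ∀ (bl : Γ) (O : Set (List Bool)) (x : List α) (r : List (α ⊕ β)) (B j : ℕ)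
        (s : HS Empty Γ ι (Fin 3) Bool) (tg : In (α ⊕ β)), (∀ a, r[0]? ≠ some (Sum.inl a)) →
        (∀ i, |s.hd i| ≤ (B : ℤ)) → s.ih ≤ (x.map Sum.inl ++ r).length + 1 →
        (∀ m, m ≤ (x.map Sum.inl ++ r).length + 1 ∨ m ≤ j → Nat.log 2 (m + 2) + 2 ≤ B) →
        graphHE (chk tg) bl (cS O (x.map Sum.inl ++ r) B) (s.cs ![0, j, 0])
          (decide ((r[j]?).elim In.rend In.sym = tg)) (s.cs ![0, j + 1, 0]) := by
  obtain ⟨i0, d0, hi0, hd0, H0⟩ := cnt_ex (α ⊕ β) Empty Γ ι (0 : Fin 3)
  obtain ⟨i1, d1, hi1, hd1, H1⟩ := cnt_ex (α ⊕ β) Empty Γ ι (1 : Fin 3)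
  obtain ⟨i2, d2, hi2, hd2, H2⟩ := cnt_ex (α ⊕ β) Empty Γ ι (2 : Fin 3)
  refine ⟨fun tg => (whl (testI fun i => decide (i ≠ In.lend)) ((mvI (-1)).seq i0)).seq
    ((mvI 1).seq ((whl (testI graphL) (mvI 1)).seq ((whl d1 ((mvI 1).seq i2)).seq
      (lookI.bind fun i => (whl d2 i1).seq (i1.seq (rewI.seq ((whl d0 (mvI 1)).seq
        (ret (decide (i = tg)))))))))), fun tg => ?_, ?_⟩
  · exact det_seq (det_whl (det_testI _) (det_seq (det_mvI _) hi0)) (det_seq (det_mvI _)
      (det_seq (det_whl (det_testI _) (det_mvI _)) (det_seq (det_whl hd1 (det_seq (det_mvI _) hi2))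
        (det_bind det_lookI fun _ => det_seq (det_whl hd2 hi1) (det_seq hi1 (det_seq det_rewI
          (det_seq (det_whl hd0 (det_mvI _)) (det_ret _))))))))
  intro bl O x r B j s tg hr hb hih hB
  generalize hz : x.map Sum.inl ++ r = z at *
  have hxz : x.length ≤ z.length := by rw [← hz]; simp
  have ok : ∀ h a b c, (graphS s h a b c).ok (cS O z B) := fun h a b c =>
    cs_ok (s := {s with ih := h}) hb _
  have I0 : ∀ h a b c, a ≤ z.length + 1 →
      graphHE i0 bl (cS O z B) (graphS s h a b c) () (graphS s h (a + 1) b c) := by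
    intro h a b c ha
    have := (H0 bl O z B {s with ih := h} ![a, b, c] hb (hB a (Or.inl ha))).1
    rw [graph_u0] at this
    exact this
  have D0 : ∀ h a b c, a ≤ z.length + 1 →
      graphHE d0 bl (cS O z B) (graphS s h a b c) (decide (0 < a)) (graphS s h (a - 1) b c) := by
    intro h a b c ha
    have := (H0 bl O z B {s with ih := h} ![a, b, c] hb (hB a (Or.inl ha))).2
    rw [graph_u0] at this
    exact this
  have I1 : ∀ h a b c, b ≤ j →
      graphHE i1 bl (cS O z B) (graphS s h a b c) () (graphS s h a (b + 1) c) := by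
    intro h a b c ha
    have := (H1 bl O z B {s with ih := h} ![a, b, c] hb (hB b (Or.inr ha))).1
    rw [graph_u1] at this
    exact this
  have D1 : ∀ h a b c, b ≤ j →
      graphHE d1 bl (cS O z B) (graphS s h a b c) (decide (0 < b)) (graphS s h a (b - 1) c) := by
    intro h a b c ha
    have := (H1 bl O z B {s with ih := h} ![a, b, c] hb (hB b (Or.inr ha))).2
    rw [graph_u1] at this
    exact this
  have I2 : ∀ h a b c, c ≤ j →
      graphHE i2 bl (cS O z B) (graphS s h a b c) () (graphS s h a b (c + 1)) := by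
    intro h a b c ha
    have := (H2 bl O z B {s with ih := h} ![a, b, c] hb (hB c (Or.inr ha))).1
    rw [graph_u2] at this
    exact this
  have D2 : ∀ h a b c, c ≤ j →
      graphHE d2 bl (cS O z B) (graphS s h a b c) (decide (0 < c)) (graphS s h a b (c - 1)) := by
    intro h a b c ha
    have := (H2 bl O z B {s with ih := h} ![a, b, c] hb (hB c (Or.inr ha))).2
    rw [graph_u2] at this
    exact this
  have RT : ∀ h a b c, graphHE (mvI 1) bl (cS O z B) (graphS s h a b c) ()
      (graphS s (min (h + 1) (z.length + 1)) a b c) := fun h a b c => ⟨_, hv_right' (ok h a b c)⟩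
  have LT : ∀ h a b c, graphHE (mvI (-1)) bl (cS O z B) (graphS s h a b c) ()
      (graphS s (h - 1) a b c) := fun h a b c => ⟨_, hv_left (ok h a b c)⟩
  have TS : ∀ g h a b c, graphHE (testI g) bl (cS O z B) (graphS s h a b c) (g (inp z h))
      (graphS s h a b c) := fun g h a b c => ⟨_, hv_testI g (ok h a b c)⟩
  have L1 : graphHE (whl (testI fun i => decide (i ≠ In.lend)) ((mvI (-1)).seq i0)) bl (cS O z B)
      (graphS s s.ih 0 j 0) () (graphS s 0 s.ih j 0) :=
    graph_whl s.ih (fun i => graphS s (s.ih - i) i j 0) (fun i => graphS s (s.ih - i) i j 0)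
      (fun i hi => graph_cast (TS _ _ _ _ _) (by
        obtain ⟨m, hm⟩ : ∃ m, s.ih - i = m + 1 := ⟨s.ih - i - 1, by omega⟩
        simp [hm, inp_ne_lend]) rfl)
      (fun i hi => graph_seq (LT _ _ _ _) (I0 _ _ _ _ (by omega)))
      (graph_cast (TS _ _ _ _ _) (by simp [inp_zero]) (by simp))
  have L2 : graphHE (whl (testI graphL) (mvI 1)) bl (cS O z B)
      (graphS s 1 s.ih j 0) () (graphS s (x.length + 1) s.ih j 0) :=
    graph_whl x.length (fun i => graphS s (i + 1) s.ih j 0) (fun i => graphS s (i + 1) s.ih j 0)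
      (fun i hi => graph_cast (TS _ _ _ _ _) (by rw [← hz, graph_inp_l x r hi]; rfl) rfl)
      (fun i hi => graph_cast (RT _ _ _ _) rfl (by rw [min_eq_left (by omega)]))
      (graph_cast (TS _ _ _ _ _) (by rw [← hz]; exact (graph_inp_m x hr).1) rfl)
  have L3 : graphHE (whl d1 ((mvI 1).seq i2)) bl (cS O z B)
      (graphS s (min (x.length + 1 + 0) (z.length + 1)) s.ih j 0) ()
      (graphS s (min (x.length + 1 + j) (z.length + 1)) s.ih 0 j) :=
    graph_whl j (fun i => graphS s (min (x.length + 1 + i) (z.length + 1)) s.ih (j - i) i)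
      (fun i => graphS s (min (x.length + 1 + i) (z.length + 1)) s.ih (j - i - 1) i)
      (fun i hi => graph_cast (D1 _ _ _ _ (by omega)) (by simp; omega) rfl)
      (fun i hi => graph_cast (graph_seq (RT _ _ _ _) (I2 _ _ _ _ (by omega))) rfl (by
        congr 1; omega))
      (graph_cast (D1 _ _ _ _ (by omega)) (by simp) (by simp))
  rw [min_eq_left (by omega)] at L3
  have L4 : ∀ h, graphHE (whl d2 i1) bl (cS O z B) (graphS s h s.ih 0 j) ()
      (graphS s h s.ih j 0) := fun h =>
    graph_whl j (fun i => graphS s h s.ih i (j - i)) (fun i => graphS s h s.ih i (j - i - 1))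
      (fun i hi => graph_cast (D2 _ _ _ _ (by omega)) (by simp; omega) rfl)
      (fun i hi => I1 _ _ _ _ (by omega))
      (graph_cast (D2 _ _ _ _ (by omega)) (by simp) (by simp))
  have L5 : graphHE (whl d0 (mvI 1)) bl (cS O z B) (graphS s 0 s.ih (j + 1) 0) ()
      (graphS s s.ih 0 (j + 1) 0) :=
    graph_whl s.ih (fun i => graphS s i (s.ih - i) (j + 1) 0)
      (fun i => graphS s i (s.ih - i - 1) (j + 1) 0)
      (fun i hi => graph_cast (D0 _ _ _ _ (by omega)) (by simp; omega) rfl)
      (fun i hi => graph_cast (RT _ _ _ _) rfl (by rw [min_eq_left (by omega)]; rfl))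
      (graph_cast (D0 _ _ _ _ (by omega)) (by simp) (by simp))
  have hlet : inp z (min (x.length + 1 + j) (z.length + 1)) = (r[j]?).elim In.rend In.sym := by
    rw [← hz]; exact graph_inp_r x r j
  refine graph_seq L1 (graph_seq (graph_cast (RT _ _ _ _) rfl (by rw [min_eq_left (by omega)]))
    (graph_seq L2 (graph_seq L3 (graph_bind (graph_cast ⟨_, hv_lookI (ok _ _ _ _)⟩ hlet rfl)
      (graph_seq (L4 _) (graph_seq (I1 _ _ _ _ le_rfl) (graph_seq ⟨_, hv_rewI (ok _ _ _ _)⟩
        (graph_seq L5 ⟨_, hv_ret _ (ok _ _ _ _)⟩))))))))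

theorem graph_log {α β : Type} [Finite α] [Finite β] {O : Set (List Bool)} {f : List α → List β}
    (hf : LogFun O f) (s : ℕ) (hs : ∀ x, (f x).length ≤ s * (x.length + 1)) : LOG O (Graph f) := by
  obtain ⟨M, hdet, ⟨s₀, hsp⟩, hM⟩ := hf
  have := M.finQ
  have := M.finΓ
  have := M.finι
  obtain ⟨P, hP, HP'⟩ := sstep_ex Empty (Fin 3) Bool M (graphV (α := α) (β := β))
  obtain ⟨chk, hchk, Hchk⟩ := graph_check α β M.Γ M.ι
  let K : M.Q → HP (α ⊕ β) Empty M.Γ M.ι (Fin 3) Bool (M.Q ⊕ Bool) := fun q =>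
    (P q).bind fun o => o.elim ((chk In.rend).bind fun b => ret (Sum.inr b)) fun p =>
      p.2.elim (ret (Sum.inl p.1)) fun b => (chk (In.sym (Sum.inr b))).bind fun g =>
        ret (if g = true then Sum.inl p.1 else Sum.inr false)
  have hK : ∀ q, (K q).Det := fun q => det_bind (hP hdet q) fun o => by
    rcases o with _ | ⟨q', _ | b⟩
    · exact det_bind (hchk _) fun _ => det_ret _
    · exact det_ret _
    · exact det_bind (hchk _) fun _ => det_ret _
  refine log_of (P := Pg.iter K M.start) (M.blank, none) (det_iter hK _) (s₀ + s + 6) fun z => ?_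
  obtain ⟨x, r, rfl, hr⟩ := graph_split z
  obtain ⟨T, ce, ⟨hrun, hend⟩, hout⟩ := hM x
  have Hc := fun B j s tg => Hchk M.blank O x r B j s tg hr
  have hview := graph_view x hr
  rw [graph_mem f x hr]
  generalize hz : x.map Sum.inl ++ r = z at *
  have hxz : x.length ≤ z.length := by rw [← hz]; simp
  generalize hB : (s₀ + s + 6) * (Nat.log 2 (z.length + 1) + 1) = B
  have hbd : ∀ t c, M.Run O x M.init t c → ∀ i, |c.2.hd i| ≤ (B : ℤ) := by
    intro t c hc i
    refine (hsp x t c hc i).trans (Int.ofNat_le.2 ?_)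
    rw [← hB]
    exact Nat.mul_le_mul (by omega) (Nat.succ_le_succ (Nat.log_mono_right (by omega)))
  have hlog : ∀ j ≤ (f x).length, ∀ m, m ≤ z.length + 1 ∨ m ≤ j →
      Nat.log 2 (m + 2) + 2 ≤ B := by
    intro j hj m hm
    rw [← hB]
    refine graph_logb s₀ s z.length _ ?_
    have h1 := hs x
    have h2 : s * (x.length + 1) ≤ s * (z.length + 1) := Nat.mul_le_mul_left _ (by omega)
    rw [Nat.add_mul]
    omega
  have key : ∀ (t : ℕ) (c : M.Cfg), M.Run O x c t ce → ∀ t₀, M.Run O x M.init t₀ c →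
      ∀ w, f x = c.2.out ++ w → ∃ e s', graphHE (Pg.iter K c.1) M.blank (cS O z B)
        (((hs0 M.blank : HS Empty M.Γ M.ι (Fin 3) Bool).load c.2).cs ![0, c.2.out.length, 0]) e s' ∧
        (e = true ↔ r.drop c.2.out.length = w.map Sum.inr) := by
    intro t
    induction t with
    | zero =>
      intro c hc t₀ h0 w hw
      obtain rfl := hc.zero_inv
      have hih := h0.ih_le (Nat.zero_le _)
      have hok := cs_ok (O := O) (x := z) (s := (hs0 M.blank : HS Empty M.Γ M.ι (Fin 3) Bool).load ce.2)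
        (hbd _ _ h0)
      have h1 := (HP' M.blank (cS O z B) x ce ((hs0 M.blank).cs ![0, ce.2.out.length, 0]) hxz hview hih
        (hok _)).1 hend
      have h2 := Hc B ce.2.out.length ((hs0 M.blank).load ce.2) In.rend (hbd _ _ h0)
        (hih.trans (by omega)) (hlog _ (by rw [hout]))
      obtain ⟨_, h3⟩ := graph_bind (K := fun o : Option (M.Q × Option β) =>
        o.elim ((chk In.rend).bind fun b => ret (Sum.inr b)) fun p =>
          p.2.elim (ret (Sum.inl p.1)) fun b => (chk (In.sym (Sum.inr b))).bind fun g =>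
            ret (if g = true then Sum.inl p.1 else Sum.inr false)) ⟨_, h1⟩
        (graph_bind (K := fun b => ret (Sum.inr b : M.Q ⊕ Bool)) h2 ⟨_, hv_ret _ (hok _)⟩)
      refine ⟨_, _, ⟨_, hv_iter_done h3⟩, ?_⟩
      obtain rfl : w = [] := by simpa [hout] using hw
      rw [List.map_nil, graph_drop_nil, decide_eq_true_iff]
    | succ t ih =>
      intro c hc t₀ h0 w hw
      cases hc with
      | cons hst hc =>
      have h0' := h0.snoc hst
      obtain ⟨w', hw'⟩ := graph_out hc
      rw [hout] at hw'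
      obtain ⟨e, s', ⟨_, h4⟩, h5⟩ := ih _ hc _ h0' w' hw'
      obtain ⟨a, ha, rfl⟩ := hst
      have hih := h0.ih_le (Nat.zero_le _)
      have hih' := h0'.ih_le (Nat.zero_le _)
      have hok := cs_ok (O := O) (x := z) (s := (hs0 M.blank : HS Empty M.Γ M.ι (Fin 3) Bool).load c.2)
        (hbd _ _ h0)
      have hok' := cs_ok (O := O) (x := z)
        (s := (hs0 M.blank : HS Empty M.Γ M.ι (Fin 3) Bool).load (c.2.upd x.length a.1)) (hbd _ _ h0')
      have h1 := (HP' M.blank (cS O z B) x c ((hs0 M.blank).cs ![0, c.2.out.length, 0]) hxz hview hih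
        (hok _)).2 a ha (hok' _)
      have ho : (c.2.upd x.length a.1).out = c.2.out ++ a.1.out.toList := rfl
      dsimp only at h4 h5 hw' hih'
      rw [ho] at h4 h5 hw'
      have hww : w = a.1.out.toList ++ w' := by
        rw [hw', List.append_assoc] at hw
        exact (List.append_cancel_left hw).symm
      rcases hao : a.1.out with _ | b
      · rw [hao] at h1 h4 h5 hww
        simp only [Option.toList_none, List.append_nil, List.nil_append] at h4 h5 hww
        obtain ⟨_, h3⟩ := graph_bind (K := fun o : Option (M.Q × Option β) =>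
          o.elim ((chk In.rend).bind fun b => ret (Sum.inr b)) fun p =>
            p.2.elim (ret (Sum.inl p.1)) fun b => (chk (In.sym (Sum.inr b))).bind fun g =>
              ret (if g = true then Sum.inl p.1 else Sum.inr false)) ⟨_, h1⟩ ⟨_, hv_ret _ (hok' _)⟩
        exact ⟨e, s', ⟨_, hv_iter_more h3 h4⟩, hww ▸ h5⟩
      · rw [hao] at h1 h4 h5 hww
        simp only [Option.toList_some, List.length_append, List.length_singleton,
          List.singleton_append] at h4 h5 hww
        have h2 := Hc B c.2.out.length ((hs0 M.blank).load (c.2.upd x.length a.1))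
          (In.sym (Sum.inr b)) (hbd _ _ h0') (hih'.trans (by omega))
          (hlog _ (by rw [hw]; simp))
        obtain ⟨_, h3⟩ := graph_bind (K := fun o : Option (M.Q × Option β) =>
          o.elim ((chk In.rend).bind fun b => ret (Sum.inr b)) fun p =>
            p.2.elim (ret (Sum.inl p.1)) fun b => (chk (In.sym (Sum.inr b))).bind fun g =>
              ret (if g = true then Sum.inl p.1 else Sum.inr false)) ⟨_, h1⟩
          (graph_bind (K := fun g => ret (if g = true then Sum.inl (nxt O c.2 a) else Sum.inr false :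
            M.Q ⊕ Bool)) h2 ⟨_, hv_ret _ (hok' _)⟩)
        rw [hww, List.map_cons, graph_drop]
        by_cases hg : (r[c.2.out.length]?).elim In.rend In.sym = In.sym (Sum.inr b)
        · rw [if_pos (decide_eq_true hg)] at h3
          exact ⟨e, s', ⟨_, hv_iter_more h3 h4⟩, by rw [h5]; simp [hg]⟩
        · rw [if_neg (by simpa using hg)] at h3
          exact ⟨false, _, ⟨_, hv_iter_done h3⟩, by simp [hg]⟩
  obtain ⟨e, s', ⟨t, h1⟩, h2⟩ := key T M.init hrun 0 (.nil _) (f x) rfl
  refine ⟨t, e, s'.dat M.blank, ?_, h2⟩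
  have h3 : (![0, 0, 0] : Fin 3 → ℕ) = fun _ => 0 := by
    funext k; fin_cases k <;> rfl
  have h4 : ((hs0 M.blank : HS Empty M.Γ M.ι (Fin 3) Bool).load M.init.2).cs
      ![0, M.init.2.out.length, 0] = hs0 M.blank := by
    rw [← cs_zero M.blank, ← h3]; rfl
  rw [h4] at h1
  rw [← hs0_dat]
  exact h1

end Pool.Agent.P.MP_d0c5d0_lc
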