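import Pool.Agent.P.MP_d0c5d0_lc.Cnt
import Pool.Agent.P.MP_d0c5d0_lc.Cod

/-! The long free cells are read in logarithmic space. -/

namespace Pool.Agent.P.MP_d0c5d0_lc

open Classical Function

section

variable {κ E F : Type}

/-- programs with counters only -/
abbrev HardP (κ E : Type) := HP Bool Bool Unit Empty κ Bool E

/-- states with counters only -/
def hardSt (ih : ℕ) (v : κ → ℕ) (o q : List Bool) : HS Bool Unit Empty κ Bool :=
  ⟨ih, fun _ _ => (), fun _ => 0, fun k => cn (v k), fun _ => 0, o, q⟩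

/-- evaluation in some number of steps -/
def HardEv (C : Ctx Bool (Empty ⊕ κ)) (P : HardP κ E) (s : HS Bool Unit Empty κ Bool) (e : E)
    (s' : HS Bool Unit Empty κ Bool) : Prop := ∃ t, P.Hv () C s t e s'

variable {C : Ctx Bool (Empty ⊕ κ)} {s s' s₁ s₂ : HS Bool Unit Empty κ Bool}

theorem HardEv.cast {P : HardP κ E} {e e'} (h : HardEv C P s e s₁) (he : e = e') (hs : s₁ = s₂) :
    HardEv C P s e' s₂ := he ▸ hs ▸ h

theorem HardEv.bind [Finite E] {P : HardP κ E} {K : E → HardP κ F} {e f} (h : HardEv C P s e s₁)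
    (h' : HardEv C (K e) s₁ f s₂) : HardEv C (P.bind K) s f s₂ :=
  let ⟨_, h⟩ := h; let ⟨_, h'⟩ := h'; ⟨_, hv_bind h h'⟩

theorem HardEv.seq {P : HardP κ Unit} {R : HardP κ F} {f} (h : HardEv C P s () s₁)
    (h' : HardEv C R s₁ f s₂) : HardEv C (P.seq R) s f s₂ :=
  let ⟨_, h⟩ := h; let ⟨_, h'⟩ := h'; ⟨_, hv_seq h h'⟩

theorem hard_whl {c : HardP κ Bool} {b : HardP κ Unit} (n : ℕ)
    (σ σ' : ℕ → HS Bool Unit Empty κ Bool) (hc : ∀ i < n, HardEv C c (σ i) true (σ' i))
    (hb : ∀ i < n, HardEv C b (σ' i) () (σ (i + 1))) (he : HardEv C c (σ n) false s') :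
    HardEv C (whl c b) (σ 0) () s' := by
  induction n generalizing σ σ' with
  | zero => exact let ⟨_, h⟩ := he; ⟨_, hv_whl_stop h⟩
  | succ n ih =>
    obtain ⟨_, h1⟩ := hc 0 (by omega)
    obtain ⟨_, h2⟩ := hb 0 (by omega)
    obtain ⟨_, h3⟩ := ih (fun i => σ (i + 1)) (fun i => σ' (i + 1)) (fun i hi => hc _ (by omega))
      (fun i hi => hb _ (by omega)) he
    exact ⟨_, hv_whl_more h1 h2 h3⟩

variable (inc : κ → HardP κ Unit) (dec : κ → HardP κ Bool)

/-- add the input length to a counter -/
noncomputable def hardLoad (k : κ) : HardP κ Unit :=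
  (mvI 1).seq ((whl (testI fun i => decide (i ≠ In.rend)) ((inc k).seq (mvI 1))).seq rewI)

/-- move one counter to another one, appending a word in each round -/
def hardMov (a b : κ) (w : List Bool) : HardP κ Unit := whl (dec a) ((pushes w).seq (inc b))

/-- nested loops -/
noncomputable def hardPad (ks : List κ) : HardP κ Unit :=
  ks.foldr (fun k P => (hardLoad inc k).seq (whl (dec k) P)) (push true)

variable {inc dec}

theorem hard_det_load (hi : ∀ k, (inc k).Det) (k : κ) : (hardLoad inc k).Det :=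
  det_seq (det_mvI _) (det_seq (det_whl (det_testI _) (det_seq (hi k) (det_mvI _))) det_rewI)

theorem hard_det_mov (hi : ∀ k, (inc k).Det) (hd : ∀ k, (dec k).Det) (a b : κ) (w : List Bool) :
    (hardMov inc dec a b w).Det := det_whl (hd a) (det_seq (det_pushes w) (hi b))

theorem hard_det_pad (hi : ∀ k, (inc k).Det) (hd : ∀ k, (dec k).Det) (ks : List κ) :
    (hardPad inc dec ks).Det := by
  induction ks with
  | nil => exact det_push _
  | cons k ks ih => exact det_seq (hard_det_load hi k) (det_whl (hd k) ih)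

/-- what is used about the counters -/
structure HardOk (C : Ctx Bool (Empty ⊕ κ)) (inc : κ → HardP κ Unit) (dec : κ → HardP κ Bool) :
    Prop where
  ok : ∀ ih v o q, (hardSt ih v o q).ok C
  inc : ∀ k ih v o q, v k ≤ C.x.length →
    HardEv C (inc k) (hardSt ih v o q) () (hardSt ih (update v k (v k + 1)) o q)
  dec : ∀ k ih v o q, v k ≤ C.x.length →
    HardEv C (dec k) (hardSt ih v o q) (decide (0 < v k)) (hardSt ih (update v k (v k - 1)) o q)

theorem HardOk.pushes (H : HardOk C inc dec) (w : List Bool) (ih v o q) :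
    HardEv C (pushes w : HardP κ Unit) (hardSt ih v o q) () (hardSt ih v o (q ++ w)) :=
  ⟨_, hv_pushes w (H.ok _ _ _ _)⟩

theorem HardOk.push (H : HardOk C inc dec) (b : Bool) (ih v o q) :
    HardEv C (push b : HardP κ Unit) (hardSt ih v o q) () (hardSt ih v o (q ++ [b])) :=
  ⟨_, hv_push b (H.ok _ _ _ _)⟩

theorem HardOk.emit (H : HardOk C inc dec) (b : Bool) (ih v o q) :
    HardEv C (emit b : HardP κ Unit) (hardSt ih v o q) () (hardSt ih v (o ++ [b]) q) :=
  ⟨_, hv_emit b (H.ok _ _ _ _)⟩

theorem HardOk.ask (H : HardOk C inc dec) (ih v o q) :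
    HardEv C (ask : HardP κ Bool) (hardSt ih v o q) (decide (q ∈ C.O)) (hardSt ih v o []) :=
  ⟨_, hv_ask (H.ok _ _ _ _)⟩

theorem HardOk.copy (H : HardOk C inc dec) (v o q) :
    HardEv C (copyI fun b => [b] : HardP κ Unit) (hardSt 0 v o q) () (hardSt 0 v o (q ++ C.x)) :=
  ⟨_, (hv_copyI _ 1 (fun _ => le_rfl) (H.ok _ _ _ _) rfl).cast rfl (by simp [hardSt])⟩

theorem hard_load (H : HardOk C inc dec) (k : κ) (v : κ → ℕ) (hv : v k = 0) (o q : List Bool) :
    HardEv C (hardLoad inc k) (hardSt 0 v o q) () (hardSt 0 (update v k C.x.length) o q) := by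
  have h := hard_whl (C := C) (c := testI fun i => decide (i ≠ In.rend))
    (b := (inc k).seq (mvI 1)) C.x.length (fun i => hardSt (i + 1) (update v k i) o q)
    (fun i => hardSt (i + 1) (update v k i) o q)
    (s' := hardSt (C.x.length + 1) (update v k C.x.length) o q)
    (fun i hi => ⟨_, (hv_testI _ (H.ok _ _ _ _)).cast (by simp [hardSt, inp_lt _ hi]) rfl⟩)
    (fun i hi => ((H.inc k _ _ o q (by simp; omega)).cast rfl (by rw [update_idem, update_self])).seq
      ⟨_, hv_right (H.ok _ _ _ _) hi⟩)
    ⟨_, (hv_testI _ (H.ok _ _ _ _)).cast (by simp [hardSt, inp_end]) rfl⟩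
  have e : update v k 0 = v := by rw [← hv, update_eq_self]
  simp only [e] at h
  exact HardEv.seq ⟨_, hv_right (H.ok _ _ _ _) (Nat.zero_le _)⟩
    (HardEv.seq h ⟨_, hv_rewI (H.ok _ _ _ _)⟩)

theorem hard_mov (H : HardOk C inc dec) {a b : κ} (hab : a ≠ b) (w : List Bool) (v : κ → ℕ)
    (ha : v a ≤ C.x.length) (hb : v b = 0) (o q : List Bool) :
    HardEv C (hardMov inc dec a b w) (hardSt 0 v o q) ()
      (hardSt 0 (update (update v b (v a)) a 0) o (q ++ (List.replicate (v a) w).flatten)) := by
  have h := hard_whl (C := C) (c := dec a) (b := (pushes w).seq (inc b)) (v a)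
    (fun i => hardSt 0 (update (update v b i) a (v a - i)) o (q ++ (List.replicate i w).flatten))
    (fun i => hardSt 0 (update (update v b i) a (v a - (i + 1))) o
      (q ++ (List.replicate i w).flatten))
    (s' := hardSt 0 (update (update v b (v a)) a 0) o (q ++ (List.replicate (v a) w).flatten))
    (fun i hi => (H.dec a _ _ _ _ (by simp; omega)).cast (by simp; omega)
      (by rw [update_idem, update_self, Nat.sub_sub]))
    (fun i hi => HardEv.seq (H.pushes w _ _ _ _)
      ((H.inc b _ _ _ _ (by simp [hab.symm]; omega)).cast rfl (by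
        rw [update_comm hab, update_idem, update_of_ne hab.symm, update_self,
          List.replicate_succ', List.flatten_append, ← List.append_assoc]
        simp)))
    ((H.dec a _ _ _ _ (by simp)).cast (by simp) (by simp))
  have e : update (update v b 0) a (v a) = v := by rw [← hb, update_eq_self, update_eq_self]
  simp only [Nat.sub_zero, List.replicate_zero, List.flatten_nil, List.append_nil, e] at h
  exact h

theorem hard_pad (H : HardOk C inc dec) (ks : List κ) (hks : ks.Nodup) (v : κ → ℕ)
    (hv : ∀ k ∈ ks, v k = 0) (o q : List Bool) :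
    HardEv C (hardPad inc dec ks) (hardSt 0 v o q) ()
      (hardSt 0 v o (q ++ List.replicate (C.x.length ^ ks.length) true)) := by
  induction ks generalizing v q with
  | nil => exact ⟨_, hv_push true (H.ok _ _ _ _)⟩
  | cons k ks ih =>
    rw [List.nodup_cons] at hks
    have hk := hv k (by simp)
    have h := hard_whl (C := C) (c := dec k) (b := hardPad inc dec ks) C.x.length
      (fun i => hardSt 0 (update v k (C.x.length - i)) o
        (q ++ List.replicate (C.x.length ^ ks.length * i) true))
      (fun i => hardSt 0 (update v k (C.x.length - (i + 1))) o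
        (q ++ List.replicate (C.x.length ^ ks.length * i) true))
      (s' := hardSt 0 v o (q ++ List.replicate (C.x.length ^ (k :: ks).length) true))
      (fun i hi => (H.dec k _ _ _ _ (by simp)).cast (by simp; omega)
        (by rw [update_idem, update_self, Nat.sub_sub]))
      (fun i hi => (ih hks.2 _ (fun k' hk' => by
        rw [update_of_ne (fun e : k' = k => hks.1 (e ▸ hk'))]
        exact hv k' (by simp [hk'])) _).cast rfl (by
          rw [List.append_assoc, ← List.replicate_add, Nat.mul_succ]))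
      ((H.dec k _ _ _ _ (by simp)).cast (by simp) (by
        rw [update_idem, update_self, Nat.sub_self, Nat.zero_sub, ← hk, update_eq_self,
          List.length_cons, pow_succ]))
    simp only [Nat.sub_zero, Nat.mul_zero, List.replicate_zero, List.append_nil] at h
    exact (hard_load H k v hk o q).seq h

end

/-- values of the counters -/
def hardV (K a b c : ℕ) : Fin 3 ⊕ Fin K → ℕ := Sum.elim ![a, b, c] fun _ => 0

theorem hardV_0 (K a b c d : ℕ) {_ : DecidableEq (Fin 3 ⊕ Fin K)} :
    update (hardV K a b c) (Sum.inl 0) d = hardV K d b c := by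
  funext k; rcases k with k | k
  · fin_cases k <;> simp [hardV]
  · simp [hardV]

theorem hardV_1 (K a b c d : ℕ) {_ : DecidableEq (Fin 3 ⊕ Fin K)} :
    update (hardV K a b c) (Sum.inl 1) d = hardV K a d c := by
  funext k; rcases k with k | k
  · fin_cases k <;> simp [hardV]
  · simp [hardV]

theorem hardV_2 (K a b c d : ℕ) {_ : DecidableEq (Fin 3 ⊕ Fin K)} :
    update (hardV K a b c) (Sum.inl 2) d = hardV K a b d := by
  funext k; rcases k with k | k
  · fin_cases k <;> simp [hardV]
  · simp [hardV]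

theorem hard_fun (O : Set (List Bool)) (K : ℕ) : LogFun O (hardF O K) := by
  choose inc dec hi hd hc using fun k : Fin 3 ⊕ Fin K => cnt_ex Bool Bool Unit Empty k
  let ks : List (Fin 3 ⊕ Fin K) := (List.finRange K).map Sum.inr
  let body : HardP (Fin 3 ⊕ Fin K) Unit := (pushes [false, true]).seq ((copyI fun b => [b]).seq
    ((hardMov inc dec (Sum.inl 0) (Sum.inl 1) [true]).seq
      ((hardMov inc dec (Sum.inl 1) (Sum.inl 0) []).seq ((push false).seq
        ((hardPad inc dec ks).seq (ask.bind fun b => (emit b).seq (inc (Sum.inl 0))))))))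
  refine logfun_of (P := ((hardLoad inc (Sum.inl 2)).seq (whl (dec (Sum.inl 2)) body)).seq
    (ret true)) ((), none)
    (det_seq (det_seq (hard_det_load hi _) (det_whl (hd _) (det_seq (det_pushes _)
      (det_seq (det_copyI _) (det_seq (hard_det_mov hi hd _ _ _) (det_seq (hard_det_mov hi hd _ _ _)
        (det_seq (det_push _) (det_seq (hard_det_pad hi hd _) (det_bind det_ask fun b =>
          det_seq (det_emit _) (hi _)))))))))) (det_ret _)) 4 fun x => ?_
  set B := 4 * (Nat.log 2 (x.length + 1) + 1) with hB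
  have hlog : ∀ m ≤ x.length, Nat.log 2 (m + 2) + 2 ≤ B := fun m hm => by
    have h1 : Nat.log 2 (m + 2) ≤ Nat.log 2 ((x.length + 1) * 2) := Nat.log_mono_right (by omega)
    rw [Nat.log_mul_base (by norm_num) (by omega)] at h1
    omega
  have H : HardOk (cS O x B) inc dec :=
    ⟨fun ih v o q => ok_cS.2 ⟨fun i => i.elim, fun _ => by simp [hardSt]⟩,
      fun k ih v o q h => (hc k () O x B (hardSt ih v o q) v (fun i => i.elim) (hlog _ h)).1,
      fun k ih v o q h => (hc k () O x B (hardSt ih v o q) v (fun i => i.elim) (hlog _ h)).2⟩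
  have hb : ∀ i < x.length, ∀ r o, HardEv (cS O x B) body (hardSt 0 (hardV K i 0 r) o []) ()
      (hardSt 0 (hardV K (i + 1) 0 r) (o ++ [decide (hard K x i ∈ O)]) []) := by
    intro i hi r o
    refine (H.pushes _ _ _ _ _).seq ((H.copy _ _ _).seq ?_)
    have m1 := hard_mov H (a := Sum.inl 0) (b := Sum.inl 1) (by simp) [true] (hardV K i 0 r) hi.le
      rfl o
    have m2 := hard_mov H (a := Sum.inl 1) (b := Sum.inl 0) (by simp) [] (hardV K 0 i r) hi.le
      rfl o
    rw [hardV_1, hardV_0] at m1
    rw [hardV_0, hardV_1] at m2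
    refine (m1 _).seq ((m2 _).seq ((H.push _ _ _ _ _).seq ?_))
    refine (hard_pad H ks ((List.nodup_finRange K).map Sum.inr_injective) _ (fun k hk => ?_)
      _ _).seq ?_
    · obtain ⟨j, -, rfl⟩ := List.mem_map.1 hk
      rfl
    refine (H.ask _ _ _ _).bind ((H.emit _ _ _ _ _).seq ?_)
    refine (H.inc (Sum.inl 0) _ _ _ _ hi.le).cast rfl ?_
    rw [hardV_0]
    simp [hardSt, hard, hardV, ks, cS]
  have h := hard_whl (C := cS O x B) (c := dec (Sum.inl 2)) (b := body) x.length
    (fun i => hardSt 0 (hardV K i 0 (x.length - i))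
      ((List.range i).map fun i => decide (hard K x i ∈ O)) [])
    (fun i => hardSt 0 (hardV K i 0 (x.length - (i + 1)))
      ((List.range i).map fun i => decide (hard K x i ∈ O)) [])
    (s' := hardSt 0 (hardV K x.length 0 0) (hardF O K x) [])
    (fun i hi => (H.dec (Sum.inl 2) _ _ _ _ (Nat.sub_le _ _)).cast (by simp [hardV]; omega)
      (by rw [hardV_2]; rfl))
    (fun i hi => (hb i hi _ _).cast rfl (by rw [List.range_succ, List.map_append]; rfl))
    ((H.dec (Sum.inl 2) _ _ _ _ (Nat.sub_le _ _)).cast (by simp [hardV]) (by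
      rw [hardV_2]; simp [hardV, hardF]))
  have h0 := hard_load H (Sum.inl 2) (hardV K 0 0 0) rfl [] []
  rw [hardV_2] at h0
  obtain ⟨t, ht⟩ := (h0.seq h).seq (R := ret true) ⟨_, hv_ret true (H.ok _ _ _ _)⟩
  refine ⟨t, true, (hardSt 0 (hardV K x.length 0 0) (hardF O K x) []).dat (), ?_, rfl⟩
  have e : hardSt 0 (hardV K 0 0 0) [] [] = hs0 () := by
    have : hardV K 0 0 0 = fun _ => 0 := by
      funext k; rcases k with k | k
      · fin_cases k <;> rfl
      · rfl
    rw [this, ← cs_zero]; rfl
  rw [← hs0_dat, ← e]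
  exact ht

end Pool.Agent.P.MP_d0c5d0_lc
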