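import Pool.Agent.P.MP_d0c5d0_lc.ToTM

/-! Host machines: tapes `ι` of a simulated machine (alphabet `Γ`) plus own tapes `κ` (alphabet
`Option X`, blank `none`).  Primitive programs with explicit effect on the host state. -/

namespace Pool.Agent.P.MP_d0c5d0_lc

open Classical Function

/-- host state -/
structure HS (β Γ ι κ X : Type) where
  ih : ℕ
  tp : ι → ℤ → Γ
  hd : ι → ℤ
  f : κ → ℤ → Option X
  p : κ → ℤ
  out : List β
  qt : List Bool

variable {α β Γ ι κ X E F S : Type}

def HS.dat (bl : Γ) (s : HS β Γ ι κ X) : Dat β (Γ × Option X) (ι ⊕ κ) :=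
  ⟨s.ih, Sum.elim (fun i z => (s.tp i z, none)) (fun k z => (bl, s.f k z)), Sum.elim s.hd s.p,
    s.out, s.qt⟩

/-- host programs -/
abbrev HP (α β Γ ι κ X E : Type) := Pg α β (Γ × Option X) (ι ⊕ κ) E

/-- evaluation on host states -/
def Pg.Hv (P : HP α β Γ ι κ X E) (bl : Γ) (C : Ctx α (ι ⊕ κ)) (s : HS β Γ ι κ X) (t : ℕ) (e : E)
    (s' : HS β Γ ι κ X) : Prop := P.Ev C (s.dat bl) t e (s'.dat bl)

/-- the head condition on a host state -/
def HS.ok (C : Ctx α (ι ⊕ κ)) (s : HS β Γ ι κ X) : Prop := C.ok (Sum.elim s.hd s.p)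

/-- initial host state -/
def hs0 (bl : Γ) : HS β Γ ι κ X := ⟨0, fun _ _ => bl, fun _ => 0, fun _ _ => none, fun _ => 0, [], []⟩

theorem hs0_dat (bl : Γ) : (hs0 bl : HS β Γ ι κ X).dat bl = dat0 (bl, none) := by
  simp only [HS.dat, hs0, dat0, Dat.mk.injEq, true_and, and_true]
  constructor <;> (funext i; cases i <;> rfl)

theorem ok_cT {O x} (s : HS β Γ ι κ X) : s.ok (cT O x : Ctx α (ι ⊕ κ)) := trivial

theorem ok_cS {O x} {B : ℕ} {s : HS β Γ ι κ X} :
    s.ok (cS O x B : Ctx α (ι ⊕ κ)) ↔ (∀ i, |s.hd i| ≤ (B : ℤ)) ∧ ∀ k, |s.p k| ≤ (B : ℤ) := by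
  simp [HS.ok, cS, Sum.forall]

theorem HS.dat_inj {bl : Γ} {s s' : HS β Γ ι κ X} (h : s.dat bl = s'.dat bl) : s = s' := by
  obtain ⟨a1, a2, a3, a4, a5, a6, a7⟩ := s
  obtain ⟨b1, b2, b3, b4, b5, b6, b7⟩ := s'
  simp only [HS.dat, Dat.mk.injEq] at h
  obtain ⟨h1, h2, h3, h4, h5⟩ := h
  have e2 : a2 = b2 := by
    funext i z; exact congrArg Prod.fst (congrFun (congrFun h2 (Sum.inl i)) z)
  have e4 : a4 = b4 := by
    funext i z; exact congrArg Prod.snd (congrFun (congrFun h2 (Sum.inr i)) z)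
  have e3 : a3 = b3 := by funext i; exact congrFun h3 (Sum.inl i)
  have e5 : a5 = b5 := by funext i; exact congrFun h3 (Sum.inr i)
  subst h1 e2 e3 e4 e5 h4 h5; rfl

/-- a list written from cell 0 to the right -/
def lay (l : List X) (z : ℤ) : Option X := if 0 ≤ z then l[z.toNat]? else none

theorem lay_nil : lay ([] : List X) = fun _ => none := by funext z; simp [lay]
theorem lay_nat (l : List X) (n : ℕ) : lay l n = l[n]? := by simp [lay]
theorem lay_neg (l : List X) {z : ℤ} (h : z < 0) : lay l z = none := by simp [lay, h.not_ge]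
theorem lay_len (l : List X) : lay l l.length = none := by simp [lay]
theorem lay_mid (a b : List X) (y : X) : lay (a ++ y :: b) a.length = some y := by simp [lay]

theorem update_lay_mid (a b : List X) (y y' : X) :
    update (lay (a ++ y :: b)) a.length (some y') = lay (a ++ y' :: b) := by
  funext z
  by_cases h : z = a.length
  · subst h; rw [update_self, lay_mid]
  · rw [update_of_ne h]
    simp only [lay]; split_ifs with h0
    · rw [List.getElem?_append, List.getElem?_append]
      split_ifs with h1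
      · rfl
      · obtain ⟨m, hm⟩ : ∃ m, z.toNat - a.length = m + 1 := ⟨z.toNat - a.length - 1, by omega⟩
        simp [hm]
    · rfl

theorem update_lay_end (a : List X) (y : X) :
    update (lay a) a.length (some y) = lay (a ++ [y]) := by
  funext z
  by_cases h : z = a.length
  · subst h; rw [update_self, lay_mid]
  · rw [update_of_ne h]
    simp only [lay]; split_ifs with h0
    · rw [List.getElem?_append]
      split_ifs with h1
      · rfl
      · rw [List.getElem?_eq_none (by omega), List.getElem?_eq_none (by simp; omega)]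
    · rfl

theorem update_lay_erase (a : List X) (y : X) :
    update (lay (a ++ [y])) a.length none = lay a := by
  rw [← update_lay_end, update_idem, ← lay_len a, update_eq_self]

/-! ### primitives -/

/-- deterministic single step -/
def act [Finite E] (e : In α → (ι → Γ) → Eff β Γ ι) (y n : In α → (ι → Γ) → E) : Pg α β Γ ι E :=
  Pg.one fun i g => {(e i g, y i g, n i g)}

theorem det_act [Finite E] {e : In α → (ι → Γ) → Eff β Γ ι} {y n : In α → (ι → Γ) → E} :
    (act e y n).Det := det_one fun _ _ => Set.subsingleton_singleton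

/-- return a value -/
def ret [Finite E] (e : E) : Pg α β Γ ι E := act (fun _ g => nop g) (fun _ _ => e) (fun _ _ => e)
/-- nondeterministic choice of a value -/
def guess (E : Type) [Finite E] : Pg α β Γ ι E := Pg.one fun _ g => {a | ∃ e, a = (nop g, e, e)}
/-- read the input tape -/
def lookI [Finite α] : Pg α β Γ ι (In α) :=
  haveI : Finite (In α) := Finite.of_injective (fun i : In α =>
    (In.casesOn i (Sum.inl true) (Sum.inl false) Sum.inr : Bool ⊕ α))
    (by intro a b; cases a <;> cases b <;> simp)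
  act (fun _ g => nop g) (fun i _ => i) (fun i _ => i)
/-- move the input head -/
def mvI (m : SignType) : Pg α β Γ ι Unit :=
  act (fun _ g => ⟨g, fun _ => 0, m, none, Qop.no⟩) (fun _ _ => ()) (fun _ _ => ())
/-- append a bit to the query tape -/
def push (b : Bool) : Pg α β Γ ι Unit :=
  act (fun _ g => ⟨g, fun _ => 0, 0, none, Qop.push b⟩) (fun _ _ => ()) (fun _ _ => ())
/-- ask the oracle -/
def ask : Pg α β Γ ι Bool :=
  act (fun _ g => ⟨g, fun _ => 0, 0, none, Qop.ask⟩) (fun _ _ => true) (fun _ _ => false)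
/-- write a letter on the output tape -/
def emit (b : β) : Pg α β Γ ι Unit :=
  act (fun _ g => ⟨g, fun _ => 0, 0, some b, Qop.no⟩) (fun _ _ => ()) (fun _ _ => ())
/-- read own tape `k` -/
def look [Finite X] (k : κ) : HP α β Γ ι κ X (Option X) :=
  act (fun _ g => nop g) (fun _ g => (g (Sum.inr k)).2) (fun _ g => (g (Sum.inr k)).2)
/-- write `w` on own tape `k` -/
noncomputable def wr (k : κ) (w : Option X) : HP α β Γ ι κ X Unit :=
  act (fun _ g => ⟨update g (Sum.inr k) ((g (Sum.inr k)).1, w), fun _ => 0, 0, none, Qop.no⟩)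
    (fun _ _ => ()) (fun _ _ => ())
/-- move the head of own tape `k` -/
noncomputable def mv (k : κ) (m : SignType) : HP α β Γ ι κ X Unit :=
  act (fun _ g => ⟨g, update (fun _ => 0) (Sum.inr k) m, 0, none, Qop.no⟩)
    (fun _ _ => ()) (fun _ _ => ())
/-- sequencing -/
def Pg.seq (P : Pg α β Γ ι Unit) (R : Pg α β Γ ι E) : Pg α β Γ ι E := P.bind fun _ => R
/-- while `c` returns true do `b` -/
def whl (c : Pg α β Γ ι Bool) (b : Pg α β Γ ι Unit) : Pg α β Γ ι Unit :=
  Pg.iter (fun _ : Unit => c.bind fun r =>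
    Bool.casesOn (motive := fun _ => Pg α β Γ ι (Unit ⊕ Unit)) r (ret (Sum.inr ()))
      (b.seq (ret (Sum.inl ())))) ()
/-- append a word to the query tape -/
def pushes (w : List Bool) : Pg α β Γ ι Unit := w.foldr (fun b P => (push b).seq P) (ret ())

instance finIn [Finite α] : Finite (In α) := Finite.of_injective (fun i : In α =>
    (In.casesOn i (Sum.inl true) (Sum.inl false) Sum.inr : Bool ⊕ α))
    (by intro a b; cases a <;> cases b <;> simp)

theorem det_ret [Finite E] (e : E) : (ret e : Pg α β Γ ι E).Det := det_act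
theorem det_lookI [Finite α] : (lookI : Pg α β Γ ι (In α)).Det := det_act
theorem det_mvI (m) : (mvI m : Pg α β Γ ι Unit).Det := det_act
theorem det_push (b) : (push b : Pg α β Γ ι Unit).Det := det_act
theorem det_ask : (ask : Pg α β Γ ι Bool).Det := det_act
theorem det_emit (b) : (emit b : Pg α β Γ ι Unit).Det := det_act
theorem det_look [Finite X] (k) : (look k : HP α β Γ ι κ X (Option X)).Det := det_act
theorem det_wr (k w) : (wr k w : HP α β Γ ι κ X Unit).Det := det_act
theorem det_mv (k m) : (mv k m : HP α β Γ ι κ X Unit).Det := det_act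
theorem det_seq {P : Pg α β Γ ι Unit} {R : Pg α β Γ ι E} (hP : P.Det) (hR : R.Det) :
    (P.seq R).Det := det_bind hP fun _ => hR
theorem det_whl {c : Pg α β Γ ι Bool} {b : Pg α β Γ ι Unit} (hc : c.Det) (hb : b.Det) :
    (whl c b).Det := det_iter (fun _ => det_bind hc fun r => by
      cases r
      · exact det_ret _
      · exact det_seq hb (det_ret _)) _
theorem det_pushes (w : List Bool) : (pushes w : Pg α β Γ ι Unit).Det := by
  induction w with
  | nil => exact det_ret _
  | cons b w ih => exact det_seq (det_push b) ih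

section hv

variable {bl : Γ} {C : Ctx α (ι ⊕ κ)} {s s' s₁ s₂ : HS β Γ ι κ X} {t t₁ t₂ : ℕ}

theorem Pg.Hv.mono {P : HP α β Γ ι κ X E} {e} (h : P.Hv bl C s t₁ e s') (ht : t₁ ≤ t₂) :
    P.Hv bl C s t₂ e s' := Pg.Ev.mono h ht
theorem Pg.Hv.ok0 {P : HP α β Γ ι κ X E} {e} (h : P.Hv bl C s t e s') : s.ok C := Pg.Ev.ok0 h
theorem Pg.Hv.ok1 {P : HP α β Γ ι κ X E} {e} (h : P.Hv bl C s t e s') : s'.ok C := Pg.Ev.ok1 h
/-- change the final state or the exit value along equalities -/
theorem Pg.Hv.cast {P : HP α β Γ ι κ X E} {e e'} (h : P.Hv bl C s t e s₁) (he : e = e')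
    (hs : s₁ = s₂) : P.Hv bl C s t e' s₂ := he ▸ hs ▸ h
/-- a deterministic program has no other outcome -/
theorem Pg.Hv.only {P : HP α β Γ ι κ X E} (hP : P.Det) {e e' d'} (h : P.Hv bl C s t₁ e s₁)
    (h' : P.Ev C (s.dat bl) t₂ e' d') : e' = e ∧ d' = s₁.dat bl := Pg.Ev.unique hP h' h

theorem hv_bind [Finite E] {P : HP α β Γ ι κ X E} {K : E → HP α β Γ ι κ X F} {e f}
    (h : P.Hv bl C s t₁ e s₁) (h' : (K e).Hv bl C s₁ t₂ f s₂) :
    Pg.Hv (P.bind K) bl C s (t₁ + t₂ + 1) f s₂ := ev_bind h h'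
theorem hv_seq {P : HP α β Γ ι κ X Unit} {R : HP α β Γ ι κ X F} {f}
    (h : P.Hv bl C s t₁ () s₁) (h' : R.Hv bl C s₁ t₂ f s₂) :
    Pg.Hv (P.seq R) bl C s (t₁ + t₂ + 1) f s₂ := ev_bind h h'
theorem hv_iter_done [Finite S] [Finite E] {K : S → HP α β Γ ι κ X (S ⊕ E)} {a e}
    (h : (K a).Hv bl C s t (Sum.inr e) s') : Pg.Hv (Pg.iter K a) bl C s (t + 1) e s' :=
  ev_iter_done h
theorem hv_iter_more [Finite S] [Finite E] {K : S → HP α β Γ ι κ X (S ⊕ E)} {a a' e}
    (h : (K a).Hv bl C s t₁ (Sum.inl a') s₁) (h' : Pg.Hv (Pg.iter K a') bl C s₁ t₂ e s₂) :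
    Pg.Hv (Pg.iter K a) bl C s (t₁ + t₂ + 1) e s₂ := ev_iter_more h h'

theorem hv_act [Finite E] {e : In α → (ι ⊕ κ → Γ × Option X) → Eff β (Γ × Option X) (ι ⊕ κ)}
    {y n : In α → (ι ⊕ κ → Γ × Option X) → E} {r : E}
    (h1 : (s.dat bl).upd C.x.length (e (inp C.x s.ih) (s.dat bl).rd) = s'.dat bl)
    (h2 : nxt C.O (s.dat bl) (e (inp C.x s.ih) (s.dat bl).rd, y (inp C.x s.ih) (s.dat bl).rd,
      n (inp C.x s.ih) (s.dat bl).rd) = r) (h : s.ok C) (h' : s'.ok C) :
    Pg.Hv (act e y n) bl C s 1 r s' := by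
  have := ev_one (C := C) (d := s.dat bl) (f := fun i g => {(e i g, y i g, n i g)}) rfl h
    (by rw [show (s.dat bl).ih = s.ih from rfl, h1]; exact h')
  rw [show (s.dat bl).ih = s.ih from rfl, h1, h2] at this
  exact this

theorem hv_ret [Finite E] (e : E) (h : s.ok C) : Pg.Hv (ret e) bl C s 1 e s :=
  hv_act (upd_nop _ _) (nxt_same _ _ _ _) h h

theorem hv_guess [Finite E] (e : E) (h : s.ok C) : Pg.Hv (guess E) bl C s 1 e s := by
  have := ev_one (C := C) (d := s.dat bl) (f := fun _ g => {a | ∃ e : E, a = (nop g, e, e)})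
    (a := (nop (s.dat bl).rd, e, e)) ⟨e, rfl⟩ h (by rw [upd_nop]; exact h)
  rw [nxt_same, upd_nop] at this
  exact this

theorem guess_inv [Finite E] {e : E} {d d' : Dat β Γ ι} {C : Ctx α ι}
    (h : (guess E).Ev C d t e d') : d' = d := by
  obtain ⟨a, ⟨e', rfl⟩, -, h2⟩ := one_inv h
  rw [h2, upd_nop]

theorem hv_lookI [Finite α] (h : s.ok C) : Pg.Hv lookI bl C s 1 (inp C.x s.ih) s :=
  hv_act (upd_nop _ _) (nxt_same _ _ _ _) h h

theorem hv_look [Finite X] (k : κ) (h : s.ok C) : Pg.Hv (look k) bl C s 1 (s.f k (s.p k)) s :=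
  hv_act (upd_nop _ _) (nxt_same _ _ _ _) h h

theorem upd_keep (n : ℕ) (d : Dat β Γ ι) (m o q) : d.upd n ⟨d.rd, fun _ => 0, m, o, q⟩ =
    ⟨if m = 1 then min (d.ih + 1) (n + 1) else if m = -1 then d.ih - 1 else d.ih, d.tp, d.hd,
      d.out ++ o.toList,
      Qop.casesOn (motive := fun _ => List Bool) q d.qt (fun b => d.qt ++ [b]) []⟩ := by
  simp [Dat.upd, Dat.rd]

theorem hv_right (h : s.ok C) (h1 : s.ih ≤ C.x.length) :
    Pg.Hv (mvI 1) bl C s 1 () {s with ih := s.ih + 1} :=
  hv_act (by rw [upd_keep]; simp [HS.dat, h1]) rfl h h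

theorem hv_right' (h : s.ok C) :
    Pg.Hv (mvI 1) bl C s 1 () {s with ih := min (s.ih + 1) (C.x.length + 1)} :=
  hv_act (by rw [upd_keep]; simp [HS.dat]) rfl h h

theorem hv_left (h : s.ok C) : Pg.Hv (mvI (-1)) bl C s 1 () {s with ih := s.ih - 1} :=
  hv_act (by rw [upd_keep]; simp [HS.dat]) rfl h h

theorem hv_push (b : Bool) (h : s.ok C) :
    Pg.Hv (push b) bl C s 1 () {s with qt := s.qt ++ [b]} :=
  hv_act (by rw [upd_keep]; simp [HS.dat]) rfl h h

theorem hv_emit (b : β) (h : s.ok C) :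
    Pg.Hv (emit b) bl C s 1 () {s with out := s.out ++ [b]} :=
  hv_act (by rw [upd_keep]; simp [HS.dat]) rfl h h

theorem hv_ask (h : s.ok C) : Pg.Hv ask bl C s 1 (decide (s.qt ∈ C.O)) {s with qt := []} :=
  hv_act (by rw [upd_keep]; simp [HS.dat])
    (by by_cases hq : s.qt ∈ C.O <;> simp [nxt, HS.dat, hq]) h h

theorem hv_wr (k : κ) (w : Option X) (h : s.ok C) :
    Pg.Hv (wr k w) bl C s 1 () {s with f := update s.f k (update (s.f k) (s.p k) w)} := by
  refine hv_act ?_ rfl h h
  simp only [Dat.upd, HS.dat, Dat.rd, Dat.mk.injEq]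
  refine ⟨by simp, ?_, by simp, by simp, trivial⟩
  funext i z
  rcases i with i | k'
  · by_cases hz : z = s.hd i
    · subst hz; simp [Dat.rd]
    · simp [hz]
  · by_cases hk : k' = k
    · subst hk
      by_cases hz : z = s.p k'
      · subst hz; simp
      · simp [hz]
    · by_cases hz : z = s.p k'
      · subst hz; simp [Dat.rd, hk]
      · simp [hz, hk]

theorem hv_mv (k : κ) (m : SignType) (h : s.ok C)
    (h' : ({s with p := update s.p k (s.p k + m)} : HS β Γ ι κ X).ok C) :
    Pg.Hv (mv k m) bl C s 1 () {s with p := update s.p k (s.p k + m)} := by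
  refine hv_act ?_ rfl h h'
  simp only [Dat.upd, HS.dat, Dat.rd, Dat.mk.injEq]
  refine ⟨by simp, by simp, ?_, by simp, trivial⟩
  funext i
  rcases i with i | k'
  · simp
  · by_cases hk : k' = k
    · subst hk; simp
    · simp [hk]

theorem hv_pushes (w : List Bool) (h : s.ok C) :
    Pg.Hv (pushes w) bl C s (2 * w.length + 1) () {s with qt := s.qt ++ w} := by
  induction w generalizing s with
  | nil => exact (hv_ret () h).cast rfl (by simp)
  | cons b w ih =>
    refine ((hv_seq (hv_push b h) (ih h)).mono (by simp; omega)).cast rfl (by simp)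

theorem hv_whl_stop {c : HP α β Γ ι κ X Bool} {b : HP α β Γ ι κ X Unit}
    (h : c.Hv bl C s t false s') : Pg.Hv (whl c b) bl C s (t + 3) () s' :=
  hv_iter_done (hv_bind h (hv_ret _ h.ok1))

theorem hv_whl_more {c : HP α β Γ ι κ X Bool} {b : HP α β Γ ι κ X Unit}
    (h : c.Hv bl C s t true s') (h1 : b.Hv bl C s' t₁ () s₁) (h2 : Pg.Hv (whl c b) bl C s₁ t₂ () s₂) :
    Pg.Hv (whl c b) bl C s (t + t₁ + t₂ + 4) () s₂ :=
  (hv_iter_more (hv_bind h (hv_seq h1 (hv_ret _ h1.ok1))) h2).mono (by omega)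

/-- loop along an explicit sequence of states: `n` rounds, test cost `a`, body cost `T` -/
theorem hv_whl {c : HP α β Γ ι κ X Bool} {b : HP α β Γ ι κ X Unit} (n a T : ℕ)
    (σ σ' : ℕ → HS β Γ ι κ X) (hc : ∀ i < n, c.Hv bl C (σ i) a true (σ' i))
    (hb : ∀ i < n, b.Hv bl C (σ' i) T () (σ (i + 1))) (he : c.Hv bl C (σ n) a false s') :
    Pg.Hv (whl c b) bl C (σ 0) (n * (a + T + 4) + a + 3) () s' := by
  induction n generalizing σ σ' with
  | zero => exact (hv_whl_stop he).mono (by omega)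
  | succ n ih =>
    refine (hv_whl_more (hc 0 (by omega)) (hb 0 (by omega)) (ih (fun i => σ (i + 1))
      (fun i => σ' (i + 1)) (fun i hi => hc _ (by omega)) (fun i hi => hb _ (by omega)) he)).mono ?_
    rw [Nat.succ_mul]; omega

end hv

/-- test on the input letter, test on an own tape -/
def testI [Finite α] (g : In α → Bool) : Pg α β Γ ι Bool := lookI.bind fun i => ret (g i)
def testT [Finite X] (k : κ) (g : Option X → Bool) : HP α β Γ ι κ X Bool :=
  (look k).bind fun i => ret (g i)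

theorem det_testI [Finite α] (g) : (testI g : Pg α β Γ ι Bool).Det :=
  det_bind det_lookI fun _ => det_ret _
theorem det_testT [Finite X] (k g) : (testT k g : HP α β Γ ι κ X Bool).Det :=
  det_bind (det_look k) fun _ => det_ret _

theorem hv_testI [Finite α] {bl : Γ} {C : Ctx α (ι ⊕ κ)} {s : HS β Γ ι κ X} (g) (h : s.ok C) :
    Pg.Hv (testI g) bl C s 3 (g (inp C.x s.ih)) s := 
  hv_bind (K := fun i => ret (g i)) (hv_lookI h) (hv_ret _ h)
theorem hv_testT [Finite X] {bl : Γ} {C : Ctx α (ι ⊕ κ)} {s : HS β Γ ι κ X} (k g) (h : s.ok C) :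
    Pg.Hv (testT k g) bl C s 3 (g (s.f k (s.p k))) s := 
  hv_bind (K := fun i => ret (g i)) (hv_look k h) (hv_ret _ h)

theorem inp_zero (x : List α) : inp x 0 = In.lend := by simp [inp]
theorem inp_succ (x : List α) (h : ℕ) : inp x (h + 1) = (x[h]?).elim In.rend In.sym := by simp [inp]
theorem inp_lt (x : List α) {h : ℕ} (hh : h < x.length) : inp x (h + 1) = In.sym x[h] := by
  simp [inp, hh]
theorem inp_end (x : List α) : inp x (x.length + 1) = In.rend := by simp [inp]
theorem inp_ne_lend (x : List α) (h : ℕ) : inp x (h + 1) ≠ In.lend := by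
  rw [inp_succ]; cases x[h]? <;> simp

/-- move the input head back to the left end marker -/
noncomputable def rewI [Finite α] : Pg α β Γ ι Unit :=
  whl (testI fun i => decide (i ≠ In.lend)) (mvI (-1))

theorem det_rewI [Finite α] : (rewI : Pg α β Γ ι Unit).Det := det_whl (det_testI _) (det_mvI _)

theorem hv_rewI [Finite α] {bl : Γ} {C : Ctx α (ι ⊕ κ)} {s : HS β Γ ι κ X} (h : s.ok C) :
    Pg.Hv rewI bl C s (8 * s.ih + 6) () {s with ih := 0} := by
  have := hv_whl (bl := bl) (C := C) (c := testI fun i => decide (i ≠ In.lend)) (b := mvI (-1))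
    s.ih 3 1 (fun i => {s with ih := s.ih - i}) (fun i => {s with ih := s.ih - i})
    (s' := {s with ih := 0}) (fun i hi => (hv_testI _ (by exact h)).cast (by
      obtain ⟨m, hm⟩ : ∃ m, s.ih - i = m + 1 := ⟨s.ih - i - 1, by omega⟩
      simp [hm, inp_ne_lend]) rfl)
    (fun i hi => (hv_left (by exact h)).cast rfl (by simp [Nat.sub_sub]))
    ((hv_testI _ (by exact h)).cast (by simp [inp_zero]) (by simp))
  exact this.mono (by omega)

/-- scan the whole input from the left end marker, appending `g a` to the query tape for each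
letter `a`, and come back to the left end marker -/
noncomputable def copyI [Finite α] (g : α → List Bool) : Pg α β Γ ι Unit :=
  (mvI 1).seq ((whl (testI fun i => decide (i ≠ In.rend))
    (lookI.bind fun i => (pushes (In.casesOn i [] [] g)).seq (mvI 1))).seq rewI)

theorem det_copyI [Finite α] (g) : (copyI g : Pg α β Γ ι Unit).Det :=
  det_seq (det_mvI _) (det_seq (det_whl (det_testI _)
    (det_bind det_lookI fun _ => det_seq (det_pushes _) (det_mvI _))) det_rewI)

theorem hv_copyI [Finite α] {bl : Γ} {C : Ctx α (ι ⊕ κ)} {s : HS β Γ ι κ X} (g : α → List Bool)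
    (c : ℕ) (hg : ∀ a, (g a).length ≤ c) (h : s.ok C) (h0 : s.ih = 0) :
    Pg.Hv (copyI g) bl C s ((2 * c + 30) * (C.x.length + 1)) ()
      {s with qt := s.qt ++ C.x.flatMap g} := by
  have := hv_whl (bl := bl) (C := C) (c := testI fun i => decide (i ≠ In.rend))
    (b := lookI.bind fun i => (pushes (In.casesOn i [] [] g)).seq (mvI 1))
    C.x.length 3 (2 * c + 5)
    (fun i => {s with ih := i + 1, qt := s.qt ++ (C.x.take i).flatMap g})
    (fun i => {s with ih := i + 1, qt := s.qt ++ (C.x.take i).flatMap g})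
    (s' := {s with ih := C.x.length + 1, qt := s.qt ++ C.x.flatMap g})
    (fun i hi => (hv_testI _ (by exact h)).cast (by simp [inp_lt _ hi]) rfl)
    (fun i hi => ((hv_bind (hv_lookI (by exact h)) (hv_seq (hv_pushes _ (by exact h))
      (hv_right (by exact h) (by simp; omega)))).mono (by
        have := hg C.x[i]
        simp [inp_lt _ hi]; omega)).cast rfl (by
        rw [List.take_add_one, List.getElem?_eq_getElem hi, List.flatMap_append]
        simp [inp_lt _ hi, -List.take_append_getElem]))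
    ((hv_testI _ (by exact h)).cast (by simp [inp_end]) (by simp))
  have h1 := hv_right (bl := bl) h (by omega)
  rw [h0] at h1
  refine ((hv_seq (h1.cast rfl (by simp)) (hv_seq this (hv_rewI (by exact h)))).mono ?_).cast rfl
    (by simp [← h0])
  dsimp only
  nlinarith

end Pool.Agent.P.MP_d0c5d0_lc
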