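import Pool.Agent.P.MP_d0c5d0_lc.VRun
import Pool.Agent.P.MP_d0c5d0_lc.Cod

/-! Guess the value, check the graph, run the second machine. -/

namespace Pool.Agent.P.MP_d0c5d0_lc

open Classical Function

section aux

variable {α β γ Γ ι X : Type}

/-- host states with blank simulated tapes and two lists on the own tapes -/
def ncompG (bl : Γ) (ih : ℕ) (a b : List X) (pa pb : ℤ) : HS Empty Γ ι Bool X :=
  ⟨ih, fun _ _ => bl, fun _ => 0, fun k => lay (cond k a b), fun k => cond k pa pb, [], []⟩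

/-- write a letter and move right -/
noncomputable def ncompApp (k : Bool) (c : X) : HP α Empty Γ ι Bool X Unit :=
  (wr k (some c)).seq (mv k 1)

theorem ncomp_det_app (k : Bool) (c : X) : (ncompApp k c : HP α Empty Γ ι Bool X Unit).Det :=
  det_seq (det_wr _ _) (det_mv _ _)

theorem ncomp_app1 {bl : Γ} {O : Set (List Bool)} {x : List α} (ih : ℕ) (a b : List X) (pb : ℤ)
    (c : X) : Pg.Hv (ncompApp true c) bl (cT O x) (ncompG (ι := ι) bl ih a b a.length pb) 3 ()
      (ncompG bl ih (a ++ [c]) b (a ++ [c]).length pb) := by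
  refine (hv_seq (hv_wr true (some c) (ok_cT _)) (hv_mv true 1 (ok_cT _) (ok_cT _))).cast rfl ?_
  simp only [ncompG, HS.mk.injEq, true_and, and_true]
  constructor
  · funext k
    cases k
    · simp
    · simp [update_lay_end]
  · funext k
    cases k
    · simp
    · simp

theorem ncomp_app2 {bl : Γ} {O : Set (List Bool)} {x : List α} (ih : ℕ) (a b : List X) (pa : ℤ)
    (c : X) : Pg.Hv (ncompApp false c) bl (cT O x) (ncompG (ι := ι) bl ih a b pa b.length) 3 ()
      (ncompG bl ih a (b ++ [c]) pa (b ++ [c]).length) := by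
  refine (hv_seq (hv_wr false (some c) (ok_cT _)) (hv_mv false 1 (ok_cT _) (ok_cT _))).cast rfl ?_
  simp only [ncompG, HS.mk.injEq, true_and, and_true]
  constructor
  · funext k
    cases k
    · simp [update_lay_end]
    · simp
  · funext k
    cases k
    · simp
    · simp

/-- move the head of an own tape back to the left end marker -/
noncomputable def ncompRew {κ : Type} [Finite γ] (k : κ) : HP α Empty Γ ι κ (In γ) Unit :=
  whl (testT k fun o => decide (o ≠ some In.lend)) (mv k (-1))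

theorem ncomp_det_rew {κ : Type} [Finite γ] (k : κ) :
    (ncompRew k : HP α Empty Γ ι κ (In γ) Unit).Det := det_whl (det_testT _ _) (det_mv _ _)

theorem ncomp_rew {κ : Type} [Finite γ] {bl : Γ} {O : Set (List Bool)} {x : List α} (k : κ)
    (s : HS Empty Γ ι κ (In γ)) (l : List (In γ)) (hl : In.lend ∉ l) (n : ℕ)
    (hf : s.f k = lay (In.lend :: l)) (hp : s.p k = n) :
    Pg.Hv (ncompRew k) bl (cT O x) s (8 * n + 6) () {s with p := update s.p k 0} := by
  have := hv_whl (bl := bl) (C := cT O x) (c := testT k fun o => decide (o ≠ some In.lend))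
    (b := mv k (-1)) n 3 1 (fun i => {s with p := update s.p k ((n - i : ℕ) : ℤ)})
    (fun i => {s with p := update s.p k ((n - i : ℕ) : ℤ)})
    (s' := {s with p := update s.p k 0})
    (fun i hi => (hv_testT _ _ (ok_cT _)).cast (by
      obtain ⟨m, hm⟩ : ∃ m, n - i = m + 1 := ⟨n - i - 1, by omega⟩
      simp only [update_self, hf, hm, lay_nat, List.getElem?_cons_succ, decide_eq_true_eq]
      intro h
      exact hl (List.mem_of_getElem? h)) rfl)
    (fun i hi => (hv_mv k (-1) (ok_cT _) (ok_cT _)).cast rfl (by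
      have e : ((n - i : ℕ) : ℤ) + ((-1 : SignType) : ℤ) = ((n - (i + 1) : ℕ) : ℤ) := by
        simp only [SignType.coe_neg, SignType.coe_one]
        omega
      simp only [update_self, update_idem, e]))
    ((hv_testT _ _ (ok_cT _)).cast (by
      simp only [update_self, hf, lay_nat, Nat.sub_self]
      simp) (by simp))
  have e0 : ({s with p := update s.p k ((n - 0 : ℕ) : ℤ)} : HS Empty Γ ι κ (In γ)) = s := by
    rw [Nat.sub_zero, ← hp, update_eq_self]
  rw [e0] at this
  exact this.mono (by omega)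

theorem ncomp_view {δ : Type} (vw : Option (In γ) → In δ) (g : δ → In γ)
    (h1 : vw (some In.lend) = In.lend) (h2 : vw (some In.rend) = In.rend)
    (h3 : ∀ a, vw (some (g a)) = In.sym a) (w : List δ) (h : ℕ) (hh : h ≤ w.length + 1) :
    vw (lay (In.lend :: (w.map g ++ [In.rend])) h) = inp w h := by
  rw [lay_nat]
  cases h with
  | zero => simpa [inp_zero] using h1
  | succ m =>
    rw [List.getElem?_cons_succ]
    by_cases hm : m < w.length
    · rw [inp_lt _ hm, List.getElem?_append_left (by simpa using hm)]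
      simp [hm, h3]
    · have e : m = w.length := by omega
      subst e
      rw [inp_end, List.getElem?_append_right (by simp)]
      simpa using h2

/-- input letters as letters of the first virtual tape -/
def ncompL (i : In α) : In (α ⊕ β) := In.casesOn i In.lend In.rend fun a => In.sym (Sum.inl a)

/-- what the second machine sees -/
def ncompV : Option (In (α ⊕ β)) → In β
  | some In.lend => In.lend
  | some (In.sym (Sum.inr d)) => In.sym d
  | _ => In.rend

/-- contents of the two own tapes -/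
def ncompA (x : List α) (y : List β) : List (In (α ⊕ β)) :=
  In.lend :: (x.map Sum.inl ++ y.map Sum.inr).map In.sym
def ncompB (α : Type) (y : List β) : List (In (α ⊕ β)) :=
  In.lend :: y.map fun d => In.sym (Sum.inr d)

/-- the state after copying the input and guessing `y` -/
def ncompS (bl : Γ) (x : List α) (y : List β) : HS Empty Γ ι Bool (In (α ⊕ β)) :=
  ncompG bl (x.length + 1) (ncompA x y) (ncompB α y) (ncompA x y).length (ncompB α y).length

/-- phase 0: copy the input -/
noncomputable def ncompP0 [Finite α] : HP α Empty Γ ι Bool (In (α ⊕ β)) Unit :=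
  (ncompApp true In.lend).seq ((ncompApp false In.lend).seq ((mvI 1).seq
    (whl (testI fun i => decide (i ≠ In.rend))
      (lookI.bind fun i => (ncompApp true (ncompL i)).seq (mvI 1)))))

theorem ncomp_det0 [Finite α] : (ncompP0 : HP α Empty Γ ι Bool (In (α ⊕ β)) Unit).Det :=
  det_seq (ncomp_det_app _ _) (det_seq (ncomp_det_app _ _) (det_seq (det_mvI _)
    (det_whl (det_testI _) (det_bind det_lookI fun _ => det_seq (ncomp_det_app _ _) (det_mvI _)))))

theorem ncomp_hv0 [Finite α] (bl : Γ) (O : Set (List Bool)) (x : List α) :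
    Pg.Hv (ncompP0 (β := β) (ι := ι)) bl (cT O x) (hs0 bl) (14 * x.length + 16) ()
      (ncompS bl x []) := by
  have hw := hv_whl (bl := bl) (C := cT O x) (c := testI fun i => decide (i ≠ In.rend))
    (b := lookI.bind fun i => (ncompApp true (ncompL (β := β) i)).seq (mvI 1))
    x.length 3 7
    (fun i => ncompG (ι := ι) bl (i + 1) (ncompA (x.take i) []) (ncompB α [])
      (ncompA (β := β) (x.take i) []).length (ncompB (β := β) α []).length)
    (fun i => ncompG (ι := ι) bl (i + 1) (ncompA (x.take i) []) (ncompB α [])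
      (ncompA (β := β) (x.take i) []).length (ncompB (β := β) α []).length)
    (s' := ncompS bl x [])
    (fun i hi => (hv_testI _ (ok_cT _)).cast (by simp [ncompG, cT, inp_lt _ hi]) rfl)
    (fun i hi => by
      have e : ncompA (β := β) (x.take i) [] ++ [ncompL (inp x (i + 1))]
          = ncompA (x.take (i + 1)) [] := by
        rw [List.take_add_one, List.getElem?_eq_getElem hi, inp_lt _ hi]
        simp [ncompA, ncompL, -List.take_append_getElem]
      refine (hv_bind (K := fun i => (ncompApp true (ncompL (β := β) i)).seq (mvI 1))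
        (hv_lookI (ok_cT _)) (hv_seq (ncomp_app1 _ _ _ _ _)
        (hv_right (ok_cT _) (show i + 1 ≤ x.length from hi)))).cast rfl ?_
      rw [← e]
      rfl)
    ((hv_testI _ (ok_cT _)).cast (by simp [ncompG, cT, inp_end]) (by simp [ncompS]))
  have e0 : (hs0 bl : HS Empty Γ ι Bool (In (α ⊕ β)))
      = ncompG bl 0 [] [] ([] : List (In (α ⊕ β))).length ([] : List (In (α ⊕ β))).length := by
    simp [hs0, ncompG, lay_nil]
  rw [e0]
  refine (hv_seq (ncomp_app1 _ _ _ _ _) (hv_seq (ncomp_app2 _ _ _ _ _)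
    (hv_seq (hv_right (ok_cT _) (Nat.zero_le _)) hw))).mono (by omega)

/-- one round of guessing -/
noncomputable def ncompK (o : Option β) : HP α Empty Γ ι Bool (In (α ⊕ β)) (Unit ⊕ Unit) :=
  o.elim (ret (Sum.inr ())) fun d => (ncompApp true (In.sym (Sum.inr d))).seq
    ((ncompApp false (In.sym (Sum.inr d))).seq (ret (Sum.inl ())))

theorem ncomp_detK (o : Option β) :
    (ncompK o : HP α Empty Γ ι Bool (In (α ⊕ β)) (Unit ⊕ Unit)).Det := by
  cases o with
  | none => exact det_ret _
  | some d => exact det_seq (ncomp_det_app _ _) (det_seq (ncomp_det_app _ _) (det_ret _))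

theorem ncomp_hvK (bl : Γ) (O : Set (List Bool)) (x : List α) (y : List β) (d : β) :
    Pg.Hv (ncompK (ι := ι) (some d)) bl (cT O x) (ncompS bl x y) 9 (Sum.inl ())
      (ncompS bl x (y ++ [d])) := by
  refine (hv_seq (ncomp_app1 _ _ _ _ _) (hv_seq (ncomp_app2 _ _ _ _ _)
    (hv_ret _ (ok_cT _)))).cast rfl ?_
  simp [ncompS, ncompA, ncompB]

/-- phase 1: guess a word -/
noncomputable def ncompP1 [Finite β] : HP α Empty Γ ι Bool (In (α ⊕ β)) Unit :=
  Pg.iter (fun _ : Unit => (guess (Option β)).bind ncompK) ()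

theorem ncomp_hv1 [Finite β] (bl : Γ) (O : Set (List Bool)) (x : List α) (y z : List β) :
    Pg.Hv (ncompP1 (ι := ι)) bl (cT O x) (ncompS bl x y) (12 * z.length + 4) ()
      (ncompS bl x (y ++ z)) := by
  induction z generalizing y with
  | nil =>
    rw [List.append_nil]
    exact (hv_iter_done (hv_bind (K := ncompK) (hv_guess none (ok_cT _))
      (hv_ret _ (ok_cT _)))).mono (by simp)
  | cons d z ih =>
    have h := ih (y ++ [d])
    rw [List.append_assoc, List.singleton_append] at h
    exact (hv_iter_more (hv_bind (K := ncompK) (hv_guess (some d) (ok_cT _))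
      (ncomp_hvK bl O x y d)) h).mono (by simp; omega)

theorem ncomp_inv1 [Finite β] (bl : Γ) (O : Set (List Bool)) (x : List α) (y : List β) {t e d'}
    (h : (ncompP1 (ι := ι)).Ev (cT O x) ((ncompS bl x y).dat bl) t e d') :
    ∃ z : List β, d' = (ncompS bl x z).dat bl := by
  refine iter_inv (fun _ d => ∃ z : List β, d = (ncompS (ι := ι) bl x z).dat bl) ?_ ⟨y, rfl⟩ h
  rintro s d t r d' ⟨z, rfl⟩ h1
  obtain ⟨o, d₁, t₁, t₂, h2, h3⟩ := bind_inv h1
  rw [guess_inv h2] at h3
  cases o with
  | none => exact ⟨z, (Pg.Hv.only (ncomp_detK none) (hv_ret _ (ok_cT _)) h3).2⟩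
  | some c => exact ⟨z ++ [c], (Pg.Hv.only (ncomp_detK _) (ncomp_hvK bl O x z c) h3).2⟩

/-- phase 2: right end markers, rewind -/
noncomputable def ncompP2 [Finite α] [Finite β] : HP α Empty Γ ι Bool (In (α ⊕ β)) Unit :=
  (ncompApp true In.rend).seq ((ncompApp false In.rend).seq ((ncompRew true).seq (ncompRew false)))

theorem ncomp_det2 [Finite α] [Finite β] :
    (ncompP2 : HP α Empty Γ ι Bool (In (α ⊕ β)) Unit).Det :=
  det_seq (ncomp_det_app _ _) (det_seq (ncomp_det_app _ _)
    (det_seq (ncomp_det_rew _) (ncomp_det_rew _)))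

/-- the state before the two virtual runs -/
def ncompT (bl : Γ) (x : List α) (y : List β) : HS Empty Γ ι Bool (In (α ⊕ β)) :=
  ncompG bl (x.length + 1) (ncompA x y ++ [In.rend]) (ncompB α y ++ [In.rend]) 0 0

theorem ncomp_hv2 [Finite α] [Finite β] (bl : Γ) (O : Set (List Bool)) (x : List α) (y : List β) :
    Pg.Hv (ncompP2 (ι := ι)) bl (cT O x) (ncompS bl x y) (8 * x.length + 16 * y.length + 53) ()
      (ncompT bl x y) := by
  refine ((hv_seq (ncomp_app1 _ _ _ _ _) (hv_seq (ncomp_app2 _ _ _ _ _) (hv_seq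
    (ncomp_rew true _ ((x.map Sum.inl ++ y.map Sum.inr).map In.sym ++ [In.rend]) (by simp)
      (x.length + y.length + 2) rfl (by simp [ncompG, ncompA]; omega))
    (ncomp_rew false _ ((y.map fun d => In.sym (Sum.inr d)) ++ [In.rend]) (by simp)
      (y.length + 2) rfl (by simp [ncompG, ncompB]; omega))))).mono (by omega)).cast rfl ?_
  simp only [ncompT, ncompG, HS.mk.injEq, true_and, and_true]
  funext k
  cases k <;> simp

theorem ncomp_split {x x' : List α} {y y' : List β}
    (h : x.map Sum.inl ++ y.map Sum.inr = x'.map Sum.inl ++ y'.map (Sum.inr : β → α ⊕ β)) :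
    x = x' ∧ y = y' := by
  have h1 := congrArg (List.filterMap Sum.getLeft?) h
  have h2 := congrArg (List.filterMap Sum.getRight?) h
  simp [List.filterMap_map] at h1 h2
  exact ⟨h1, h2⟩

end aux

theorem ncomp {α β : Type} [Finite α] [Finite β] {O : Set (List Bool)} {f : List α → List β} {k : ℕ}
    (hk : 1 ≤ k) (s : ℕ) (hs : ∀ x, (f x).length ≤ s * (x.length + 1)) {B : Set (List β)}
    (hG : NTIME O k (Graph f)) (hB : NTIME O k B) : NTIME O k {x | f x ∈ B} := by
  obtain ⟨M1, s1, h1⟩ := hG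
  obtain ⟨M2, s2, h2⟩ := hB
  have := M1.finΓ
  have := M2.finΓ
  have := M1.finι
  have := M2.finι
  obtain ⟨V1, -, hV1⟩ := vrun_ex (Γ := M1.Γ × M2.Γ) (ι := M1.ι ⊕ M2.ι) (κ := Bool)
    (X := In (α ⊕ β)) α Empty M1 Sum.inl Sum.inl_injective Prod.fst (fun a => (a, M2.blank))
    (fun _ => rfl) true (fun o => o.getD In.rend)
  obtain ⟨V2, -, hV2⟩ := vrun_ex (Γ := M1.Γ × M2.Γ) (ι := M1.ι ⊕ M2.ι) (κ := Bool)
    (X := In (α ⊕ β)) α Empty M2 Sum.inr Sum.inr_injective Prod.snd (fun a => (M1.blank, a))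
    (fun _ => rfl) false ncompV
  have hi1 : ∀ (x : List α) (y : List β), VInit M1 (Sum.inl : M1.ι → M1.ι ⊕ M2.ι) Prod.fst true
      (fun o => o.getD In.rend) (ncompT (M1.blank, M2.blank) x y)
      (x.map Sum.inl ++ y.map Sum.inr) := fun x y =>
    ⟨fun _ _ => rfl, fun _ => rfl, rfl,
      fun h hh => ncomp_view (fun o => o.getD In.rend) In.sym rfl rfl (fun _ => rfl) _ h hh, rfl⟩
  have hi2 : ∀ (x : List α) (y : List β) (s' : HS Empty (M1.Γ × M2.Γ) (M1.ι ⊕ M2.ι) Bool (In (α ⊕ β))),
      VFr (Sum.inl : M1.ι → M1.ι ⊕ M2.ι) true (ncompT (M1.blank, M2.blank) x y) s' →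
      VInit M2 (Sum.inr : M2.ι → M1.ι ⊕ M2.ι) Prod.snd false ncompV {s' with qt := []} y := by
    rintro x y s' ⟨-, hf, -, hp, ht⟩
    refine ⟨fun i z => ?_, fun i => ?_, ?_, fun h hh => ?_, rfl⟩
    · show (s'.tp (Sum.inr i) z).2 = M2.blank
      rw [(ht (Sum.inr i) (by simp)).1]
      rfl
    · show s'.hd (Sum.inr i) = 0
      rw [(ht (Sum.inr i) (by simp)).2]
      rfl
    · show s'.p false = 0
      rw [hp false (by simp)]
      rfl
    · show ncompV (s'.f false h) = inp y h
      rw [hf]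
      exact ncomp_view ncompV (fun d => In.sym (Sum.inr d)) rfl rfl (fun _ => rfl) y h hh
  refine ntime_of (ncompP0.seq (ncompP1.seq (ncompP2.seq (V1.bind fun r =>
    cond r (ask.bind fun _ => V2) (ret false))))) ((M1.blank, M2.blank), none)
    ((100 + 2 * s1 + 2 * s2) * (s + 1) ^ k) (fun x hx => ?_) (fun x t d' h => ?_)
  · obtain ⟨t1, ht1, c1, he1, ha1⟩ := (h1 (x.map Sum.inl ++ (f x).map Sum.inr)).1 ⟨x, rfl⟩
    obtain ⟨t2, ht2, c2, he2, ha2⟩ := (h2 (f x)).1 hx
    obtain ⟨s', hfr, hv1⟩ := (hV1 (M1.blank, M2.blank) O x _ _ (hi1 x (f x))).1 t1 c1 he1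
    obtain ⟨s'', -, hv2⟩ := (hV2 (M1.blank, M2.blank) O x _ _ (hi2 x (f x) s' hfr)).1 t2 c2 he2
    rw [decide_eq_true ha1] at hv1
    rw [decide_eq_true ha2] at hv2
    have hall := hv_seq (ncomp_hv0 (M1.blank, M2.blank) O x)
      (hv_seq (ncomp_hv1 (M1.blank, M2.blank) O x [] (f x))
        (hv_seq (ncomp_hv2 (M1.blank, M2.blank) O x (f x))
          (hv_bind (K := fun r => cond r (ask.bind fun _ => V2) (ret false)) hv1
            (hv_bind (K := fun _ => V2) (hv_ask (ok_cT _)) hv2))))
    refine ⟨s''.dat (M1.blank, M2.blank), ?_⟩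
    rw [← hs0_dat]
    refine Pg.Ev.mono hall ?_
    have hL : x.length + (f x).length + 1 ≤ (s + 1) * (x.length + 1) := by
      have := hs x
      nlinarith
    have hN : (s + 1) * (x.length + 1) ≤ ((s + 1) * (x.length + 1)) ^ k :=
      Nat.le_self_pow (by omega) _
    have hp1 : (x.length + (f x).length + 1) ^ k ≤ ((s + 1) * (x.length + 1)) ^ k :=
      Nat.pow_le_pow_left hL k
    have hp2 : ((f x).length + 1) ^ k ≤ ((s + 1) * (x.length + 1)) ^ k :=
      Nat.pow_le_pow_left (by omega) k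
    have ht1' : t1 ≤ s1 * ((s + 1) * (x.length + 1)) ^ k := by
      refine ht1.trans (Nat.mul_le_mul_left _ ?_)
      simpa using hp1
    have ht2' : t2 ≤ s2 * ((s + 1) * (x.length + 1)) ^ k := ht2.trans (Nat.mul_le_mul_left _ hp2)
    rw [mul_assoc, ← mul_pow, add_mul, add_mul, mul_assoc, mul_assoc]
    omega
  · rw [← hs0_dat] at h
    obtain ⟨e0, d0, t0, t0', h3, h4⟩ := bind_inv h
    rw [(Pg.Hv.only ncomp_det0 (ncomp_hv0 (M1.blank, M2.blank) O x) h3).2] at h4
    obtain ⟨e1, d1, t1, t1', h5, h6⟩ := bind_inv h4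
    obtain ⟨y, rfl⟩ := ncomp_inv1 _ O x [] h5
    obtain ⟨e2, d2, t2, t2', h7, h8⟩ := bind_inv h6
    rw [(Pg.Hv.only ncomp_det2 (ncomp_hv2 (M1.blank, M2.blank) O x y) h7).2] at h8
    obtain ⟨e3, d3, t3, t3', h9, h10⟩ := bind_inv h8
    obtain ⟨u1, c1, s', he1, hd1, rfl, hfr⟩ :=
      (hV1 (M1.blank, M2.blank) O x _ _ (hi1 x y)).2 _ _ _ h9
    cases e3 with
    | false => exact absurd (Pg.Hv.only (det_ret false) (hv_ret _ (ok_cT _)) h10).1 (by simp)
    | true =>
      obtain ⟨e4, d4, t4, t4', h11, h12⟩ := bind_inv h10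
      rw [(Pg.Hv.only det_ask (hv_ask (ok_cT _)) h11).2] at h12
      obtain ⟨u2, c2, s'', he2, hd2, -, -⟩ :=
        (hV2 (M1.blank, M2.blank) O x _ _ (hi2 x y s' hfr)).2 _ _ _ h12
      obtain ⟨x', hx'⟩ := (h1 _).2 u1 c1 he1 (of_decide_eq_true hd1.symm)
      obtain ⟨rfl, rfl⟩ := ncomp_split hx'
      exact (h2 _).2 u2 c2 he2 (of_decide_eq_true hd2.symm)

end Pool.Agent.P.MP_d0c5d0_lc
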