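import Pool.Agent.P.MP_d0c5d0_lc.Host
import Pool.Agent.P.MP_d0c5d0_lc.Cod

/-! Small facts on time classes. -/

namespace Pool.Agent.P.MP_d0c5d0_lc

open Classical Function

variable {α : Type} {O : Set (List Bool)} {A : Set (List α)} {k k' : ℕ}

theorem DTIME.mono (h : DTIME O k A) (hk : k ≤ k') : DTIME O k' A := by
  obtain ⟨M, hM, s, h⟩ := h
  refine ⟨M, hM, s, fun x => ?_⟩
  obtain ⟨t, ht, c, hc⟩ := h x
  exact ⟨t, ht.trans (Nat.mul_le_mul_left _ (Nat.pow_le_pow_right (by omega) hk)), c, hc⟩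

theorem NTIME.mono (h : NTIME O k A) (hk : k ≤ k') : NTIME O k' A := by
  obtain ⟨M, s, h⟩ := h
  refine ⟨M, s, fun x => ⟨fun hx => ?_, (h x).2⟩⟩
  obtain ⟨t, ht, c, hc⟩ := (h x).1 hx
  exact ⟨t, ht.trans (Nat.mul_le_mul_left _ (Nat.pow_le_pow_right (by omega) hk)), c, hc⟩

theorem small_halt {β : Type} {M : TM α β} (hM : M.Det) {x : List α} {c c₁ c₂ : M.Cfg} {t₁ t₂ : ℕ}
    (h₁ : M.Run O x c t₁ c₁) (h₂ : M.Run O x c t₂ c₂)
    (e₁ : M.δ c₁.1 (inp x c₁.2.ih) c₁.2.rd = ∅) (e₂ : M.δ c₂.1 (inp x c₂.2.ih) c₂.2.rd = ∅) :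
    c₁ = c₂ := by
  induction h₁ generalizing t₂ with
  | nil c =>
    cases h₂ with
    | nil => rfl
    | cons h _ => obtain ⟨a, ha, -⟩ := h; rw [e₁] at ha; cases ha
  | cons h _ ih =>
    obtain ⟨a, ha, rfl⟩ := h
    cases h₂ with
    | nil => rw [e₂] at ha; cases ha
    | cons h' h3 =>
      obtain ⟨b, hb, rfl⟩ := h'
      have := hM _ _ _ ha hb
      subst this
      exact ih h3 e₁

theorem DTIME.ntime (h : DTIME O k A) : NTIME O k A := by
  obtain ⟨M, hM, s, h⟩ := h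
  refine ⟨M, s, fun x => ?_⟩
  obtain ⟨t, ht, c, hc, ha⟩ := h x
  refine ⟨fun hx => ⟨t, ht, c, hc, ha.2 hx⟩, fun t' c' hc' ha' => ha.1 ?_⟩
  rw [small_halt hM hc.1 hc'.1 hc.2 hc'.2]
  exact ha'

theorem dtime_head [Finite α] (a : α) : DTIME O 1 {y : List α | y.head? = some a} := by
  refine dtime_of (Γ := Unit × Option Unit) (ι := Empty ⊕ Empty)
    ((mvI 1).seq (testI fun i => decide (i = In.sym a))) ((), none)
    (det_seq (det_mvI _) (det_testI _)) 5 fun x => ?_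
  have h1 := hv_seq (hv_right (bl := ()) (C := cT O x)
    (s := (hs0 () : HS Empty Unit Empty Empty Unit)) (ok_cT _) (Nat.zero_le _))
    (hv_testI (fun i => decide (i = In.sym a)) (ok_cT _))
  rw [Pg.Hv, hs0_dat] at h1
  refine ⟨_, _, h1.mono (by rw [pow_one]; omega), ?_⟩
  show decide (inp x (0 + 1) = In.sym a) = true ↔ x.head? = some a
  rw [inp_succ]
  cases x <;> simp

theorem dtime_bet : DTIME O 1 {y : List Bool | bet y ∈ O} := by
  refine dtime_of (Γ := Unit × Option Unit) (ι := Empty ⊕ Empty)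
    ((pushes [false, false]).seq ((copyI fun b => [b]).seq ask)) ((), none)
    (det_seq (det_pushes _) (det_seq (det_copyI _) det_ask)) 40 fun x => ?_
  have h1 := hv_seq (hv_pushes (bl := ()) (C := cT O x)
    (s := (hs0 () : HS Empty Unit Empty Empty Unit)) [false, false] (ok_cT _))
    (hv_seq (hv_copyI (fun b => [b]) 1 (fun _ => le_rfl) (ok_cT _) rfl) (hv_ask (ok_cT _)))
  rw [Pg.Hv, hs0_dat] at h1
  refine ⟨_, _, h1.mono ?_, ?_⟩
  · show 2 * 2 + 1 + ((2 * 1 + 30) * (x.length + 1) + 1 + 1) + 1 ≤ 40 * (x.length + 1) ^ 1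
    rw [pow_one]
    omega
  · show decide (([] ++ [false, false]) ++ x.flatMap (fun b => [b]) ∈ O) = true ↔ bet x ∈ O
    simp [bet]

end Pool.Agent.P.MP_d0c5d0_lc
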