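import Pool.Agent.P.MP_d0c5d0_lc.Graph
import Pool.Agent.P.MP_d0c5d0_lc.NComp
import Pool.Agent.P.MP_d0c5d0_lc.Small

/-! Nondeterministic time is closed iff it contains logarithmic space. -/

namespace Pool.Agent.P.MP_d0c5d0_lc

open Classical Function

variable {O : Set (List Bool)} {k : ℕ}

theorem loglin_ind {α : Type} {A : Set (List α)} (h : LOG O A) :
    LogLin O A {y : List Unit | y.head? = some ()} :=
  ⟨ind A, log_fun h, ⟨1, fun x => by unfold ind; split_ifs <;> simp⟩, fun x => by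
    unfold ind; split_ifs with hx <;> simp [hx]⟩

theorem n_iff (hk : 1 ≤ k) : Closed O (NTIME O k) ↔ HasLog O (NTIME O k) := by
  refine ⟨fun h α _ A hA => h α Unit A _ (loglin_ind hA) ((dtime_head ()).mono hk).ntime, ?_⟩
  rintro h α β _ _ A B ⟨f, hf, ⟨s, hs⟩, hA⟩ hB
  have : A = {x | f x ∈ B} := Set.ext hA
  rw [this]
  exact ncomp hk s hs (h _ _ (graph_log hf s hs)) hB

end Pool.Agent.P.MP_d0c5d0_lc
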