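import Pool.Agent.P.MP_d0c5d0_lc.QW

/-! Nondeterministic access to a stored bit in time O(n^j). -/

namespace Pool.Agent.P.MP_d0c5d0_lc

open Classical Function

section guessing

variable {α β Γ ι κ X : Type}

/-- one round of the guessing loop -/
def ncodeB : Option Bool → HP α β Γ ι κ X (Unit ⊕ Unit)
  | none => ret (Sum.inr ())
  | some b => (pushes [true, b]).seq (ret (Sum.inl ()))

/-- guess a bit string and append it, doubled, to the query tape -/
def ncodeG : HP α β Γ ι κ X Unit :=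
  Pg.iter (fun _ : Unit => (guess (Option Bool)).bind ncodeB) ()

theorem ncode_hv {bl : Γ} {O : Set (List Bool)} {x : List α} (p : List Bool) (s : HS β Γ ι κ X) :
    Pg.Hv ncodeG bl (cT O x) s (10 * p.length + 4) ()
      {s with qt := s.qt ++ p.flatMap fun b => [true, b]} := by
  induction p generalizing s with
  | nil =>
    exact (hv_iter_done (K := fun _ : Unit => (guess (Option Bool)).bind ncodeB)
      (hv_bind (hv_guess none (ok_cT _)) (hv_ret _ (ok_cT _)))).cast rfl (by simp)
  | cons b p ih =>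
    refine ((hv_iter_more (K := fun _ : Unit => (guess (Option Bool)).bind ncodeB)
      (hv_bind (hv_guess (some b) (ok_cT _))
        (hv_seq (hv_pushes [true, b] (ok_cT _)) (hv_ret _ (ok_cT _)))) (ih _)).mono ?_).cast rfl
      (by simp)
    simp
    omega

theorem ncode_inv {bl : Γ} {O : Set (List Bool)} {x : List α} {s : HS β Γ ι κ X} {t e d'}
    (h : (ncodeG : HP α β Γ ι κ X Unit).Ev (cT O x) (s.dat bl) t e d') :
    ∃ p : List Bool, d' = HS.dat bl {s with qt := s.qt ++ p.flatMap fun b => [true, b]} := by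
  refine iter_inv (fun _ d => ∃ p : List Bool,
    d = HS.dat bl {s with qt := s.qt ++ p.flatMap fun b => [true, b]}) ?_ ⟨[], by simp⟩ h
  rintro _ d t r d' ⟨p, rfl⟩ h1
  obtain ⟨g, d₁, t₁, t₂, h2, h3⟩ := bind_inv h1
  rw [guess_inv h2] at h3
  cases g with
  | none => exact ⟨p, (Pg.Hv.only (det_ret _) (hv_ret _ (ok_cT _)) h3).2⟩
  | some b =>
    refine ⟨p ++ [b], ?_⟩
    rw [(Pg.Hv.only (det_seq (det_pushes _) (det_ret _))
      (hv_seq (hv_pushes [true, b] (ok_cT _)) (hv_ret _ (ok_cT _))) h3).2]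
    simp

theorem ncode_cell (τ p w : List Bool) (m : ℕ) :
    cell τ m [] ++ (p.flatMap fun b => [true, b]) ++ false :: w = cell τ m (enc p ++ w) := by
  simp [cell, enc]

end guessing

theorem ncode {α : Type} [Finite α] {O : Set (List Bool)} {j e : ℕ} {idx : α → ℕ} {idy : Unit → ℕ}
    {A : Set (List α)} (hj : 1 ≤ j) (hc : Coded O j e idx idy (ind A)) : NTIME O j A := by
  obtain ⟨prep, qw, c, dp, dq, h⟩ := qw_ex (X := Unit) Empty Unit Empty Empty j e hj idx ()
  obtain ⟨c', hc'⟩ := idx_bdd idx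
  have h0 : (hs0 () : HS Empty Unit Empty (Fin j ⊕ Empty) Unit).pad () 0 = hs0 () := by
    simp only [HS.pad, hs0, HS.mk.injEq, true_and, and_true]
    constructor <;> (funext k; cases k <;> simp [lay_nil])
  refine ntime_of (prep.seq (qw.seq (ncodeG.seq ((pushes (false :: cod1 idy ())).seq ask))))
    ((), none) (2 * c + 40 * (e + c' + 2) + 2 * idy () + 50) (fun x hx => ?_) fun x t d' hd => ?_
  · obtain ⟨p, hp, hO⟩ := hc x
    obtain ⟨h1, h2⟩ := h () O x (hs0 ()) rfl
    rw [h0] at h1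
    have h3 := hv_seq h1 (hv_seq h2 (hv_seq (ncode_hv p _)
      (hv_seq (hv_pushes (false :: cod1 idy ()) (ok_cT _)) (hv_ask (ok_cT _)))))
    rw [← hs0_dat]
    refine ⟨_, (h3.mono ?_).cast ?_ rfl⟩
    · have h4 := code_len_le idx hc' x
      have h5 := tau_len e idx x
      have h6 : x.length + 1 ≤ (x.length + 1) ^ j := Nat.le_self_pow (by omega) _
      have h7 : (false :: cod1 idy ()).length = idy () + 2 := by simp [cod1]
      rw [h7]
      generalize (x.length + 1) ^ j = N at h6 ⊢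
      have h8 : c * (x.length + 1) ≤ c * N := Nat.mul_le_mul_left _ h6
      have h9 : (e + c' + 2) * (x.length + 1) ≤ (e + c' + 2) * N := Nat.mul_le_mul_left _ h6
      have h10 : (2 * idy () + 50) * 1 ≤ (2 * idy () + 50) * N := Nat.mul_le_mul_left _ (by omega)
      nlinarith [Nat.zero_le (e * x.length), Nat.zero_le x.length]
    · refine decide_eq_true ?_
      show [] ++ cell _ _ [] ++ _ ++ _ ∈ O
      rw [List.nil_append, ncode_cell, hO, ind, if_pos hx]
      simp [code]
  · obtain ⟨p, -, hO⟩ := hc x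
    obtain ⟨h1, h2⟩ := h () O x (hs0 ()) rfl
    rw [h0] at h1
    rw [← hs0_dat] at hd
    obtain ⟨_, d₁, _, _, k1, hd⟩ := bind_inv hd
    rw [(Pg.Hv.only dp h1 k1).2] at hd
    obtain ⟨_, d₂, _, _, k2, hd⟩ := bind_inv hd
    rw [(Pg.Hv.only dq h2 k2).2] at hd
    obtain ⟨_, d₃, _, _, k3, hd⟩ := bind_inv hd
    obtain ⟨p', rfl⟩ := ncode_inv k3
    have h3 := (Pg.Hv.only (det_seq (det_pushes _) det_ask)
      (hv_seq (hv_pushes (false :: cod1 idy ()) (ok_cT _)) (hv_ask (ok_cT _))) hd).1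
    have h4 : [] ++ cell _ _ [] ++ _ ++ _ ∈ O := of_decide_eq_true h3.symm
    rw [List.nil_append, ncode_cell, hO] at h4
    obtain ⟨z, hz⟩ := h4
    rw [List.append_assoc] at hz
    have h5 := (enc_app_inj hz).2
    by_contra hx
    rw [ind, if_neg hx, code_nil] at h5
    simp [cod1] at h5

end Pool.Agent.P.MP_d0c5d0_lc
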