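import Pool.Agent.P.MP_d0c5d0_lc.QSys
import Pool.Agent.P.MP_d0c5d0_lc.Trans
import Pool.Agent.P.MP_d0c5d0_lc.Cod

/-! One query system for all logarithmic space transducers. -/

namespace Pool.Agent.P.MP_d0c5d0_lc

open Classical Function

theorem univ_cube (L : ℕ) : (L + 1) ^ 3 ≤ 27 * 2 ^ L := by
  have h1 : L / 3 < 2 ^ (L / 3) := Nat.lt_two_pow_self
  have h2 : L + 1 ≤ 3 * 2 ^ (L / 3) := by omega
  calc (L + 1) ^ 3 ≤ (3 * 2 ^ (L / 3)) ^ 3 := Nat.pow_le_pow_left h2 3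
    _ = 27 * 2 ^ (L / 3 * 3) := by rw [mul_pow, ← pow_mul]; norm_num
    _ ≤ 27 * 2 ^ L := Nat.mul_le_mul_left _ (Nat.pow_le_pow_right two_pos (by omega))

theorem univ_num (K s : ℕ) : ∃ m, ∀ n, (n + 2) * K ^ (s * (Nat.log 2 (n + 1) + 1) + 1) ≤
    2 ^ Nat.sqrt (m + n) := by
  set c := 1 + K * (s + 1) with hc
  refine ⟨c ^ 2 * (27 * c ^ 2) ^ 2 + 1, fun n => ?_⟩
  set L := Nat.log 2 (n + 1)
  have h1 : n + 1 < 2 ^ (L + 1) := Nat.lt_pow_succ_log_self one_lt_two _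
  have h2 : 2 ^ L ≤ n + 1 := Nat.pow_log_le_self 2 (by omega)
  have h3 : K ≤ 2 ^ K := Nat.lt_two_pow_self.le
  have h4 : c * (L + 1) ≤ Nat.sqrt (c ^ 2 * (27 * c ^ 2) ^ 2 + 1 + n) := by
    rw [Nat.le_sqrt', mul_pow]
    rcases le_total (L + 1) (27 * c ^ 2) with h | h
    · have : c ^ 2 * (L + 1) ^ 2 ≤ c ^ 2 * (27 * c ^ 2) ^ 2 := by gcongr
      omega
    · have h5 := univ_cube L
      have h6 : 27 * c ^ 2 * (L + 1) ^ 2 ≤ (L + 1) * (L + 1) ^ 2 := by gcongr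
      have h7 : 27 * (c ^ 2 * (L + 1) ^ 2) ≤ 27 * 2 ^ L := by
        refine le_trans (le_of_eq (by ring)) (h6.trans (le_trans (le_of_eq (by ring)) h5))
      omega
  calc (n + 2) * K ^ (s * (L + 1) + 1) ≤ 2 ^ (L + 1) * (2 ^ K) ^ (s * (L + 1) + 1) := by
        gcongr
        omega
    _ = 2 ^ (L + 1 + K * (s * (L + 1) + 1)) := by rw [← pow_mul, ← pow_add]
    _ ≤ 2 ^ (c * (L + 1)) := Nat.pow_le_pow_right two_pos (by rw [hc]; nlinarith)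
    _ ≤ _ := Nat.pow_le_pow_right two_pos h4

/-- the empty system -/
def univ_empty : QS := ⟨∅, fun _ => [], fun _ _ _ => rfl⟩

theorem univ_qs {α β : Type} (M : TM α β) (g : List β → List Bool) (s : ℕ) :
    ∃ S : List α → QS, M.Det → ∃ m, ∀ x, (S x).Q.card ≤ 2 ^ Nat.sqrt (m + x.length) ∧
      ∀ O, (∀ t c, M.Run O x M.init t c → ∀ i,
        |c.2.hd i| ≤ ((s * (Nat.log 2 (x.length + 1) + 1) : ℕ) : ℤ)) →
        ∀ t c, M.Ends O x t c → (S x).a O = g c.2.out := by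
  by_cases hM : M.Det
  · obtain ⟨K, hK⟩ := qs_ex M hM g
    choose S h1 h2 using hK
    obtain ⟨m, hm⟩ := univ_num K s
    exact ⟨fun x => S x (s * (Nat.log 2 (x.length + 1) + 1)), fun _ =>
      ⟨m, fun x => ⟨(h1 x _).trans (hm _), h2 x _⟩⟩⟩
  · exact ⟨fun _ => univ_empty, fun h => absurd h hM⟩

theorem univ_code {α γ : Type} (i : γ → ℕ) (e : α → γ) (x : List α) :
    code (fun a => i (e a)) x = code i (x.map e) := by
  induction x with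
  | nil => rfl
  | cons a x ih => rw [List.map_cons, code_cons, code_cons, ih]

theorem univ_sys : ∃ sys : List Bool → QS, (∀ τ, (sys τ).Q.card ≤ 2 ^ Nat.sqrt τ.length) ∧
    ∀ (α β : Type) [Finite α] [Finite β] (O : Set (List Bool)) (f : List α → List β), LogFun O f →
      ∃ (e : ℕ) (idx : α → ℕ) (idy : β → ℕ), Injective idy ∧
        ∀ x, (sys (tau e idx x)).a O = code idy (f x) := by
  have hc : ∀ a b : ℕ, Countable (Std (Fin a) (Fin b)) := fun _ _ => std_countable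
  have hn : Nonempty (Σ p : ℕ × ℕ, Std (Fin p.1) (Fin p.2) × ℕ) :=
    ⟨⟨(0, 0), ⟨(1, 1, 0), 0, 0, ∅, fun _ _ _ => ∅⟩, 0⟩⟩
  obtain ⟨dec, hdec⟩ := exists_surjective_nat (Σ p : ℕ × ℕ, Std (Fin p.1) (Fin p.2) × ℕ)
  choose sy hsy using fun D : (Σ p : ℕ × ℕ, Std (Fin p.1) (Fin p.2) × ℕ) =>
    univ_qs D.2.1.tm (code Fin.val) D.2.2
  let R : List Bool → QS → Prop := fun τ S => ∃ (e : ℕ) (x : List (Fin (dec e.unpair.1).1.1)),
    τ = tau e Fin.val x ∧ S = sy (dec e.unpair.1) x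
  have hR : ∀ τ S S', R τ S → R τ S' → S = S' := by
    rintro τ S S' ⟨e, x, h1, rfl⟩ ⟨e', x', h2, rfl⟩
    obtain ⟨rfl, h3⟩ := rep_inj (h1.symm.trans h2)
    rw [code_inj Fin.val_injective h3]
  have hs : ∀ τ, ∃ S : QS, S.Q.card ≤ 2 ^ Nat.sqrt τ.length ∧
      ∀ S', R τ S' → S'.Q.card ≤ 2 ^ Nat.sqrt τ.length → S = S' := by
    intro τ
    by_cases h : ∃ S, R τ S ∧ S.Q.card ≤ 2 ^ Nat.sqrt τ.length
    · obtain ⟨S, h1, h2⟩ := h
      exact ⟨S, h2, fun S' h3 _ => hR τ S S' h1 h3⟩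
    · exact ⟨univ_empty, Nat.zero_le _, fun S' h1 h2 => absurd ⟨S', h1, h2⟩ h⟩
  choose sys h1 h2 using hs
  refine ⟨sys, h1, fun α β _ _ O f ⟨M, hM, ⟨s, hs⟩, hf⟩ => ?_⟩
  obtain ⟨a, ⟨eα⟩⟩ := Finite.exists_equiv_fin α
  obtain ⟨b, ⟨eβ⟩⟩ := Finite.exists_equiv_fin β
  obtain ⟨S, φ, t1, t2, t3, t4, -, t6, t7⟩ := trans_ex M eα eβ
  obtain ⟨e0, he⟩ := hdec ⟨(a, b), S, s⟩
  obtain ⟨m, hm⟩ := hsy ⟨(a, b), S, s⟩ (t1 hM)
  refine ⟨Nat.pair e0 m, fun u => (eα u).val, fun u => (eβ u).val,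
    Fin.val_injective.comp eβ.injective, fun x => ?_⟩
  have e1 : tau (Nat.pair e0 m) (fun u => (eα u).val) x = tau (Nat.pair e0 m) Fin.val (x.map eα) := by
    rw [tau, tau, univ_code]
  have e2 : R (tau (Nat.pair e0 m) Fin.val (x.map eα)) (sy ⟨(a, b), S, s⟩ (x.map eα)) := by
    have : ∀ (D : Σ p : ℕ × ℕ, Std (Fin p.1) (Fin p.2) × ℕ) (y : List (Fin D.1.1)),
        dec (Nat.pair e0 m).unpair.1 = D → R (tau (Nat.pair e0 m) Fin.val y) (sy D y) := by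
      rintro D y rfl
      exact ⟨_, y, rfl, rfl⟩
    exact this ⟨(a, b), S, s⟩ _ (by rw [Nat.unpair_pair, he])
  obtain ⟨m1, m2⟩ := hm (x.map eα)
  obtain ⟨t, c, hc1, hc2⟩ := hf x
  have l1 : m + (x.map eα).length ≤ (tau (Nat.pair e0 m) Fin.val (x.map eα)).length := by
    have := code_len_ge Fin.val (x.map eα)
    have := Nat.right_le_pair e0 m
    rw [tau_len]
    omega
  have l2 := m2 O (fun t' c' hr => by
    obtain ⟨c'', rfl⟩ := φ.surjective c'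
    rw [List.length_map]
    refine (t7 c'' _).1 (hs x t' c'' ((t3 O x _ t' c'').2 ?_))
    rwa [t2]) t (φ c) ((t4 O x t c).1 hc1)
  rw [e1, h2 _ _ e2 (m1.trans (Nat.pow_le_pow_right two_pos (Nat.sqrt_le_sqrt l1))), l2, t6, hc2]
  exact (univ_code Fin.val eβ (f x)).symm

end Pool.Agent.P.MP_d0c5d0_lc
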