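import Pool.Agent.P.MP_d0c5d0_lc.Iff
import Pool.Agent.P.MP_d0c5d0_lc.Hard
import Pool.Agent.P.MP_d0c5d0_lc.DCode
import Pool.Agent.P.MP_d0c5d0_lc.NCode
import Pool.Agent.P.MP_d0c5d0_lc.Univ
import Pool.Agent.P.MP_d0c5d0_lc.Diag

/-! Oracles with prescribed thresholds, and the deterministic gap. -/

namespace Pool.Agent.P.MP_d0c5d0_lc

open Classical Function

theorem loglin_hard (O : Set (List Bool)) (K : ℕ) (B : Set (List Bool)) :
    LogLin O {x | hardF O K x ∈ B} B :=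
  ⟨hardF O K, hard_fun O K, ⟨1, fun x => by rw [hardF_len]; omega⟩, fun _ => Iff.rfl⟩

theorem ev_pow {k j : ℕ} (h : k < j) (s : ℕ) :
    ∀ᶠ n in Filter.atTop, s * (n + 1) ^ k < (n / 4) ^ j := by
  filter_upwards [Filter.eventually_ge_atTop (4 * (s * 8 ^ k + 1))] with n hn
  have h1 : s * 8 ^ k + 1 ≤ n / 4 := by omega
  have h2 : (n + 1) ^ k ≤ 8 ^ k * (n / 4) ^ k := by
    rw [← mul_pow]; exact Nat.pow_le_pow_left (by omega) _
  have h3 : (n / 4) ^ (k + 1) ≤ (n / 4) ^ j := Nat.pow_le_pow_right (by omega) h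
  have h4 : 0 < (n / 4) ^ k := Nat.pow_pos (by omega)
  calc s * (n + 1) ^ k ≤ s * (8 ^ k * (n / 4) ^ k) := Nat.mul_le_mul_left _ h2
    _ < (s * 8 ^ k + 1) * (n / 4) ^ k := by nlinarith
    _ ≤ (n / 4) ^ (k + 1) := by rw [pow_succ, mul_comm]; exact Nat.mul_le_mul_left _ h1
    _ ≤ _ := h3

theorem ev_exp (k s : ℕ) : ∀ᶠ n in Filter.atTop, s * (n + 1) ^ k < 2 ^ (n / 4) := by
  have h := tendsto_pow_const_div_const_pow_of_one_lt (k + 1) (r := 2) (by norm_num)
  have h1 : ∀ᶠ m : ℕ in Filter.atTop, m ^ (k + 1) < 2 ^ m := by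
    filter_upwards [h.eventually (gt_mem_nhds one_pos)] with m hm
    rw [div_lt_one (by positivity)] at hm
    exact_mod_cast hm
  obtain ⟨a, ha⟩ := Filter.eventually_atTop.1 h1
  filter_upwards [ev_pow (Nat.lt_succ_self k) s, Filter.eventually_ge_atTop (4 * a)] with n h2 h3
  exact h2.trans (ha _ (by omega))

theorem thresholds_fin (j : ℕ) (hj : 1 ≤ j) : ∃ O : Set (List Bool), ∀ k, 1 ≤ k →
    (Closed O (DTIME O k) ↔ j < k) ∧ (Closed O (NTIME O k) ↔ j ≤ k) := by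
  obtain ⟨sys, h1, h2⟩ := univ_sys
  let R : Par := ⟨sys, h1, fun n => n ^ j, id⟩
  obtain ⟨ω, hω, hD, hN⟩ := diag R {(j + 1, j)} {(j + 1, j - 1)}
    (by rintro q rfl; exact ⟨j, by simp, hj, rfl, Or.inl le_rfl⟩)
    (by rintro q rfl
        exact ⟨by simp, fun a b h => Nat.pow_le_pow_left h _, ev_pow (by simp; omega)⟩)
  have hc : ∀ (α β : Type) [Finite α] [Finite β] (f : List α → List β), LogFun (R.O ω) f →
      ∃ (e : ℕ) (idx : α → ℕ) (idy : β → ℕ), Injective idy ∧ Coded (R.O ω) j e idx idy f := by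
    intro α β _ _ f hf
    obtain ⟨e, idx, idy, h3, h4⟩ := h2 α β _ f hf
    exact ⟨e, idx, idy, h3, coded_of hω rfl h4⟩
  refine ⟨R.O ω, fun k hk => ⟨⟨fun h => ?_, fun h => ?_⟩, ⟨fun h => ?_, fun h => ?_⟩⟩⟩
  · by_contra hlt
    exact hD _ rfl ((h _ _ _ _ (loglin_hard _ (j + 1) _) (dtime_bet.mono hk)).mono (by simp; omega))
  · rintro α β _ _ A B ⟨f, hf, ⟨s, hs⟩, hA⟩ hB
    obtain ⟨e, idx, idy, h3, h4⟩ := hc _ _ f hf
    rw [show A = {x | f x ∈ B} from Set.ext hA]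
    exact dcode h3 hj h h4 s hs hB
  · by_contra hlt
    exact hN _ rfl ((h _ _ _ _ (loglin_hard _ (j + 1) _) ((dtime_head true).mono hk).ntime).mono
      (by simp; omega))
  · refine (n_iff hk).2 fun α _ A hA => ?_
    obtain ⟨e, idx, idy, -, h4⟩ := hc _ _ _ (log_fun hA)
    exact (ncode hj h4).mono h

theorem thresholds_top : ∃ O : Set (List Bool), ∀ k, 1 ≤ k →
    ¬ Closed O (DTIME O k) ∧ ¬ Closed O (NTIME O k) := by
  obtain ⟨sys, h1, -⟩ := univ_sys
  let R : Par := ⟨sys, h1, fun n => 2 ^ n, id⟩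
  obtain ⟨ω, -, -, hN⟩ := diag R ∅ {q | q.1 = q.2 + 1} (by simp)
    (fun q hq => ⟨by simp at hq; omega, fun a b h => Nat.pow_le_pow_right (by norm_num) h, ev_exp _⟩)
  refine ⟨R.O ω, fun k hk => ⟨fun h => ?_, fun h => ?_⟩⟩
  · exact hN (k + 1, k) rfl (h _ _ _ _ (loglin_hard _ (k + 1) _) ((dtime_head true).mono hk)).ntime
  · exact hN (k + 1, k) rfl (h _ _ _ _ (loglin_hard _ (k + 1) {y | y.head? = some true})
      ((dtime_head true).mono hk).ntime)

theorem thresholds (j : ℕ∞) (hj : 1 ≤ j) : ∃ O : Set (List Bool), ∀ k : ℕ, 1 ≤ k →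
    (Closed O (DTIME O k) ↔ j < k) ∧ (Closed O (NTIME O k) ↔ j ≤ k) := by
  induction j using ENat.recTopCoe with
  | top =>
    obtain ⟨O, h⟩ := thresholds_top
    exact ⟨O, fun k hk => by simpa using h k hk⟩
  | coe j =>
    obtain ⟨O, h⟩ := thresholds_fin j (by exact_mod_cast hj)
    exact ⟨O, fun k hk => by simpa using h k hk⟩

theorem gap (k : ℕ) (hk : 2 ≤ k) :
    ∃ O : Set (List Bool), HasLog O (DTIME O k) ∧ ¬ Closed O (DTIME O k) := by
  obtain ⟨sys, h1, h2⟩ := univ_sys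
  let R : Par := ⟨sys, h1, fun n => n ^ (k - 1), fun a => if a = [] then [] else [false]⟩
  obtain ⟨ω, hω, hD, -⟩ := diag R {(k + 1, k)} ∅
    (by rintro q rfl
        refine ⟨k - 1, by simp, by omega, rfl, Or.inr ⟨by simp; omega, fun a => ?_⟩⟩
        by_cases h : a = [] <;> simp [R, h]) (by simp)
  refine ⟨R.O ω, fun α _ A hA => ?_, fun h => ?_⟩
  · obtain ⟨e, idx, idy, -, h4⟩ := h2 _ _ _ _ (log_fun hA)
    have hc : Coded (R.O ω) (k - 1) e idx (fun _ : Unit => 0) (ind A) := coded_of hω rfl fun x => by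
      show (if (sys _).a _ = [] then [] else [false]) = _
      rw [h4]; unfold ind; split_ifs with h5 h6 h6 <;> simp_all [code_cons, code_nil]
    have := dcode (k := k) (fun _ _ _ => rfl) (by omega) (by omega) hc 1
      (fun x => by unfold ind; split_ifs <;> simp) ((dtime_head ()).mono (by omega))
    have he : A = {x | ind A x ∈ {y : List Unit | y.head? = some ()}} := by
      ext x; unfold ind; by_cases hx : x ∈ A <;> simp [hx]
    rwa [he]
  · exact hD _ rfl (h _ _ _ _ (loglin_hard _ (k + 1) {y | bet y ∈ R.O ω})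
      (dtime_bet.mono (by omega)))

end Pool.Agent.P.MP_d0c5d0_lc
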