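import Pool.Agent.P.MP_d0c5d0_lc.QSys
import Pool.Agent.P.MP_d0c5d0_lc.Cod

/-! The oracle built from passwords and free bits. -/

namespace Pool.Agent.P.MP_d0c5d0_lc

open Classical Function

/-- parameters: query system, padding, truncation of the stored value -/
structure Par where
  sys : List Bool → QS
  small : ∀ τ, (sys τ).Q.card ≤ 2 ^ Nat.sqrt τ.length
  g : ℕ → ℕ
  tr : List Bool → List Bool

/-- a world: the password of each name and the bit of each free cell -/
abbrev World := List Bool → List Bool × Bool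

variable (R : Par)

/-- admissible passwords for the name `τ` -/
def Par.Adm (τ p : List Bool) : Prop :=
  p.length = 4 * τ.length + 3 ∧
    ∀ τ' : List Bool, τ'.length ≤ τ.length → ∀ m u, cell τ m u ∈ (R.sys τ').Q → ¬ enc p <+: u

def Par.AdmW (ω : World) : Prop := ∀ τ, R.Adm τ (ω τ).1

/-- the oracle for given stored values `a` -/
def Par.orc (ω : World) (a : List Bool → List Bool) : Set (List Bool) :=
  {w | (w.head? = some false ∧ (ω w).2 = true) ∨
    ∃ τ m u, w = cell τ m u ∧ R.g τ.length ≤ m ∧ u <+: enc (ω τ).1 ++ R.tr (a τ)}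

/-- stored values of names of length below `n` -/
noncomputable def Par.ansN (ω : World) (n : ℕ) : List Bool → List Bool :=
  Nat.rec (fun _ => []) (fun _ a τ => (R.sys τ).a (R.orc ω a)) n

/-- stored values -/
noncomputable def Par.ans (ω : World) (τ : List Bool) : List Bool := R.ansN ω (τ.length + 1) τ

/-- the oracle of a world -/
def Par.O (ω : World) : Set (List Bool) := R.orc ω (R.ans ω)

/-- two worlds agree up to length `N` -/
def Near (N : ℕ) (ω ω' : World) : Prop := ∀ w : List Bool, w.length ≤ N → ω w = ω' w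

/-- all potential queries of names of length below `m` -/
noncomputable def Par.Z (m : ℕ) : Finset (List Bool) :=
  (List.finite_length_lt Bool m).toFinset.biUnion fun τ => (R.sys τ).Q

variable {R} {ω ω' : World}

theorem pre_app_iff {u e z : List Bool} (h : ¬ e <+: u) : u <+: e ++ z ↔ u <+: e :=
  ⟨fun h1 => (List.prefix_or_prefix_of_prefix h1 (List.prefix_append e z)).resolve_right h,
    fun h1 => h1.trans (List.prefix_append e z)⟩

theorem mem_orc_cell {a τ m u} :
    cell τ m u ∈ R.orc ω a ↔ R.g τ.length ≤ m ∧ u <+: enc (ω τ).1 ++ R.tr (a τ) := by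
  constructor
  · rintro (⟨h, -⟩ | ⟨τ', m', u', h, h1⟩)
    · simp [cell] at h
    · obtain ⟨rfl, rfl, rfl⟩ := cell_inj h; exact h1
  · exact fun h => Or.inr ⟨τ, m, u, rfl, h⟩

theorem mem_orc_free {a w} (h : w.head? = some false) : w ∈ R.orc ω a ↔ (ω w).2 = true := by
  constructor
  · rintro (⟨-, h⟩ | ⟨τ', m', u', rfl, -⟩)
    · exact h
    · simp [cell] at h
  · exact fun h1 => Or.inl ⟨h, h1⟩

/-- comparison of two oracles at one word -/
theorem orc_agree {a a' w} (h1 : w.head? = some false → (ω w).2 = (ω' w).2)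
    (h2 : ∀ τ m u, w = cell τ m u → R.g τ.length ≤ m →
      (u <+: enc (ω τ).1 ++ R.tr (a τ) ↔ u <+: enc (ω' τ).1 ++ R.tr (a' τ))) :
    w ∈ R.orc ω a ↔ w ∈ R.orc ω' a' := by
  refine or_congr (and_congr_right fun h => by rw [h1 h]) ?_
  refine exists_congr fun τ => exists_congr fun m => exists_congr fun u => ?_
  exact and_congr_right fun h => and_congr_right fun h' => h2 τ m u h h'

theorem step_congr (hω : R.AdmW ω) {a a' τ} (h : ∀ τ' : List Bool, τ'.length < τ.length → a τ' = a' τ') :
    (R.sys τ).a (R.orc ω a) = (R.sys τ).a (R.orc ω a') := by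
  refine (R.sys τ).dep _ _ fun w hw => orc_agree (fun _ => rfl) ?_
  rintro τ' m u rfl -
  by_cases hl : τ'.length < τ.length
  · rw [h τ' hl]
  · have := (hω τ').2 τ (by omega) m u hw
    rw [pre_app_iff this, pre_app_iff this]

theorem ansN_stab (hω : R.AdmW ω) {n n' : ℕ} {τ : List Bool} (h : τ.length < n) (h' : τ.length < n') :
    R.ansN ω n τ = R.ansN ω n' τ := by
  induction n generalizing n' τ with
  | zero => omega
  | succ n ih =>
    obtain ⟨n', rfl⟩ : ∃ k, n' = k + 1 := ⟨n' - 1, by omega⟩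
    exact step_congr hω fun τ' h1 => ih (by omega) (by omega)

/-- the stored value is the value of the query system at the oracle itself -/
theorem ans_eq (hω : R.AdmW ω) (τ : List Bool) : R.ans ω τ = (R.sys τ).a (R.O ω) :=
  step_congr hω fun _ h1 => ansN_stab hω h1 (Nat.lt_succ_self _)

theorem mem_Z {m : ℕ} {w : List Bool} : w ∈ R.Z m ↔ ∃ τ : List Bool, τ.length < m ∧ w ∈ (R.sys τ).Q := by
  simp [Par.Z]

/-- short names get the same values -/
theorem short_agree (hω : R.AdmW ω) (hω' : R.AdmW ω') {m : ℕ}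
    (h0 : ∀ τ : List Bool, τ.length < m → (ω τ).1 = (ω' τ).1)
    (h1 : ∀ w ∈ R.Z m, w.head? = some false → (ω w).2 = (ω' w).2)
    (h2 : ∀ τ k u, cell τ k u ∈ R.Z m → m ≤ τ.length → (u <+: enc (ω τ).1 ↔ u <+: enc (ω' τ).1))
    {τ : List Bool} (hτ : τ.length < m) : R.ans ω τ = R.ans ω' τ := by
  induction hn : τ.length using Nat.strong_induction_on generalizing τ with
  | _ n ih =>
    rw [ans_eq hω, ans_eq hω']
    refine (R.sys τ).dep _ _ fun w hw => orc_agree (h1 w (mem_Z.2 ⟨τ, hτ, hw⟩)) ?_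
    rintro τ' k u rfl -
    by_cases hl : τ'.length < τ.length
    · rw [ih _ (hn ▸ hl) (by omega) rfl, h0 τ' (by omega)]
    · rw [pre_app_iff ((hω τ').2 τ (by omega) k u hw), pre_app_iff ((hω' τ').2 τ (by omega) k u hw)]
      by_cases hm : τ'.length < m
      · rw [h0 τ' hm]
      · exact h2 τ' k u (mem_Z.2 ⟨τ, hτ, hw⟩) (by omega)

/-- locality -/
theorem loc (R : Par) (T : ℕ) : ∃ N, ∀ ω ω', R.AdmW ω → R.AdmW ω' → Near N ω ω' →
    ∀ w : List Bool, w.length ≤ T → (w ∈ R.O ω ↔ w ∈ R.O ω') := by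
  refine ⟨max T ((R.Z T).sup List.length), fun ω ω' hω hω' h w hw => ?_⟩
  have hz : ∀ v ∈ R.Z T, v.length ≤ max T ((R.Z T).sup List.length) := fun v hv =>
    le_max_of_le_right (Finset.le_sup hv)
  refine orc_agree (fun _ => by rw [h w (le_max_of_le_left hw)]) ?_
  rintro τ m u rfl -
  rw [cell_len] at hw
  rw [h τ (le_max_of_le_left (by omega)), short_agree hω hω' (m := T)
    (fun τ hτ => by rw [h τ (le_max_of_le_left hτ.le)]) (fun v hv _ => by rw [h v (hz v hv)])
    (fun τ k u hv _ => by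
      have := hz _ hv
      rw [cell_len] at this
      rw [h τ (by omega)]) (by omega)]

theorem coded_of (hω : R.AdmW ω) {α β : Type} {j e : ℕ} {idx : α → ℕ} {idy : β → ℕ}
    {f : List α → List β} (hg : R.g = fun n => n ^ j)
    (h : ∀ x, R.tr ((R.sys (tau e idx x)).a (R.O ω)) = code idy (f x)) :
    Coded (R.O ω) j e idx idy f := fun x =>
  ⟨(ω (tau e idx x)).1, (hω _).1.le, fun u => by
    rw [Par.O, mem_orc_cell, hg, ans_eq hω, h]; simp⟩

end Pool.Agent.P.MP_d0c5d0_lc
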