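import Pool.Agent.P.MP_d0c5d0_lc.Defs

/-! Structured programs: finite controls with exit values, sequencing and iteration. -/

namespace Pool.Agent.P.MP_d0c5d0_lc

open Classical

/-- oracle, input, and the condition on the work heads that every configuration must meet -/
structure Ctx (α ι : Type) where
  O : Set (List Bool)
  x : List α
  ok : (ι → ℤ) → Prop

/-- a finite control with exits in `E` -/
structure Pg (α β Γ ι E : Type) where
  Q : Type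
  fin : Finite Q
  s : Q
  ex : Q → Option E
  δ : Q → In α → (ι → Γ) → Set (Eff β Γ ι × Q × Q)

variable {α β Γ ι E F S : Type}

/-- from state `q` and tapes `d` some path exits with `e` and tapes `d'` after exactly `t` steps -/
inductive Ex {Q : Type} (ex : Q → Option E) (δ : Q → In α → (ι → Γ) → Set (Eff β Γ ι × Q × Q))
    (C : Ctx α ι) : Q → Dat β Γ ι → ℕ → E → Dat β Γ ι → Prop where
  | done {q d e} : ex q = some e → C.ok d.hd → Ex ex δ C q d 0 e d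
  | step {q d a t e d'} : ex q = none → a ∈ δ q (inp C.x d.ih) d.rd → C.ok d.hd →
      Ex ex δ C (nxt C.O d a) (d.upd C.x.length a.1) t e d' → Ex ex δ C q d (t + 1) e d'

/-- evaluation within `t` steps -/
def Pg.Ev (P : Pg α β Γ ι E) (C : Ctx α ι) (d : Dat β Γ ι) (t : ℕ) (e : E) (d' : Dat β Γ ι) : Prop :=
  ∃ t' ≤ t, Ex P.ex P.δ C P.s d t' e d'

def Pg.Det (P : Pg α β Γ ι E) : Prop := ∀ q i g, (P.δ q i g).Subsingleton

/-- the effect that changes nothing -/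
def nop (g : ι → Γ) : Eff β Γ ι := ⟨g, fun _ => 0, 0, none, Qop.no⟩

theorem upd_nop (n : ℕ) (d : Dat β Γ ι) : d.upd n (nop d.rd) = d := by
  cases d
  simp [Dat.upd, nop, Dat.rd]

theorem nxt_same {Q : Type} (O : Set (List Bool)) (d : Dat β Γ ι) (e : Eff β Γ ι) (q : Q) :
    nxt O d (e, q, q) = q := by
  simp [nxt]

theorem nxt_map {Q Q' : Type} (O : Set (List Bool)) (d : Dat β Γ ι) (a : Eff β Γ ι × Q × Q)
    (f : Q → Q') : nxt O d (a.1, f a.2.1, f a.2.2) = f (nxt O d a) := by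
  unfold nxt; split_ifs <;> rfl

/-- relabel the states of a set of actions -/
def rel {Q Q' : Type} (f : Q → Q') (A : Set (Eff β Γ ι × Q × Q)) : Set (Eff β Γ ι × Q' × Q') :=
  (fun a => (a.1, f a.2.1, f a.2.2)) '' A

/-- one step chosen in `f`, exit with the chosen value (yes value, no value) -/
def Pg.one [Finite E] (f : In α → (ι → Γ) → Set (Eff β Γ ι × E × E)) : Pg α β Γ ι E where
  Q := Option E
  fin := inferInstance
  s := none
  ex := id
  δ := fun _ i g => rel some (f i g)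

def bindEx (P : Pg α β Γ ι E) (K : E → Pg α β Γ ι F) : P.Q ⊕ (Σ e, (K e).Q) → Option F
  | Sum.inl _ => none
  | Sum.inr q => (K q.1).ex q.2

def bindδ (P : Pg α β Γ ι E) (K : E → Pg α β Γ ι F) : P.Q ⊕ (Σ e, (K e).Q) → In α → (ι → Γ) →
    Set (Eff β Γ ι × (P.Q ⊕ (Σ e, (K e).Q)) × (P.Q ⊕ (Σ e, (K e).Q)))
  | Sum.inl q => fun i g => (P.ex q).elim (rel Sum.inl (P.δ q i g))
      (fun e => {(nop g, Sum.inr ⟨e, (K e).s⟩, Sum.inr ⟨e, (K e).s⟩)})
  | Sum.inr q => fun i g => rel (fun r => Sum.inr ⟨q.1, r⟩) ((K q.1).δ q.2 i g)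

/-- run `P`, then `K e` -/
def Pg.bind [Finite E] (P : Pg α β Γ ι E) (K : E → Pg α β Γ ι F) : Pg α β Γ ι F where
  Q := P.Q ⊕ (Σ e, (K e).Q)
  fin := by have := P.fin; have := fun e => (K e).fin; infer_instance
  s := Sum.inl P.s
  ex := bindEx P K
  δ := bindδ P K

def iterEx (K : S → Pg α β Γ ι (S ⊕ E)) : (Σ s, (K s).Q) ⊕ E → Option E
  | Sum.inl _ => none
  | Sum.inr e => some e

def iterGo (K : S → Pg α β Γ ι (S ⊕ E)) : S ⊕ E → (Σ s, (K s).Q) ⊕ E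
  | Sum.inl s => Sum.inl ⟨s, (K s).s⟩
  | Sum.inr e => Sum.inr e

def iterδ (K : S → Pg α β Γ ι (S ⊕ E)) : (Σ s, (K s).Q) ⊕ E → In α → (ι → Γ) →
    Set (Eff β Γ ι × ((Σ s, (K s).Q) ⊕ E) × ((Σ s, (K s).Q) ⊕ E))
  | Sum.inl q => fun i g => ((K q.1).ex q.2).elim (rel (fun r => Sum.inl ⟨q.1, r⟩) ((K q.1).δ q.2 i g))
      (fun r => {(nop g, iterGo K r, iterGo K r)})
  | Sum.inr _ => fun _ _ => ∅

/-- run `K s`; on exit `inl s'` continue with `K s'`, on exit `inr e` stop -/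
def Pg.iter [Finite S] [Finite E] (K : S → Pg α β Γ ι (S ⊕ E)) (s : S) : Pg α β Γ ι E where
  Q := (Σ s, (K s).Q) ⊕ E
  fin := by have := fun e => (K e).fin; infer_instance
  s := Sum.inl ⟨s, (K s).s⟩
  ex := iterEx K
  δ := iterδ K

section rules

variable {C : Ctx α ι} {d d' d₁ d₂ : Dat β Γ ι} {t t₁ t₂ : ℕ}

theorem Ex.ok0 {Q : Type} {ex : Q → Option E} {δ} {q : Q} {e : E}
    (h : Ex ex δ C q d t e d') : C.ok d.hd := by
  cases h <;> assumption

theorem Ex.ok1 {Q : Type} {ex : Q → Option E} {δ} {q : Q} {e : E}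
    (h : Ex ex δ C q d t e d') : C.ok d'.hd := by
  induction h <;> assumption

theorem Pg.Ev.ok0 {P : Pg α β Γ ι E} {e : E} (h : P.Ev C d t e d') : C.ok d.hd :=
  let ⟨_, _, h⟩ := h; h.ok0

theorem Pg.Ev.ok1 {P : Pg α β Γ ι E} {e : E} (h : P.Ev C d t e d') : C.ok d'.hd :=
  let ⟨_, _, h⟩ := h; h.ok1

theorem Pg.Ev.mono {P : Pg α β Γ ι E} {e : E} (h : P.Ev C d t₁ e d') (ht : t₁ ≤ t₂) :
    P.Ev C d t₂ e d' :=
  let ⟨t', h1, h⟩ := h; ⟨t', h1.trans ht, h⟩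

theorem rel_sub {Q Q' : Type} (f : Q → Q') {A : Set (Eff β Γ ι × Q × Q)} (h : A.Subsingleton) :
    (rel f A).Subsingleton := h.image _

theorem Ex.unique {Q : Type} {ex : Q → Option E} {δ : Q → In α → (ι → Γ) → Set (Eff β Γ ι × Q × Q)}
    (hd : ∀ q i g, (δ q i g).Subsingleton) {q : Q} {e e' : E}
    (h : Ex ex δ C q d t₁ e d₁) (h' : Ex ex δ C q d t₂ e' d₂) : e = e' ∧ d₁ = d₂ := by
  induction h generalizing t₂ with
  | done h1 _ =>
    cases h' with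
    | done h2 _ => rw [h1] at h2; exact ⟨Option.some.inj h2, rfl⟩
    | step h2 => rw [h1] at h2; cases h2
  | step h1 ha _ _ ih =>
    cases h' with
    | done h2 _ => rw [h1] at h2; cases h2
    | step _ hb _ h3 =>
      have := hd _ _ _ ha hb
      subst this
      exact ih h3

theorem Pg.Ev.unique {P : Pg α β Γ ι E} (hP : P.Det) {e e' : E} (h : P.Ev C d t₁ e d₁)
    (h' : P.Ev C d t₂ e' d₂) : e = e' ∧ d₁ = d₂ :=
  let ⟨_, _, h⟩ := h; let ⟨_, _, h'⟩ := h'; h.unique hP h'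

theorem det_one [Finite E] {f : In α → (ι → Γ) → Set (Eff β Γ ι × E × E)}
    (h : ∀ i g, (f i g).Subsingleton) : (Pg.one f).Det := fun _ i g => rel_sub _ (h i g)

theorem det_bind [Finite E] {P : Pg α β Γ ι E} {K : E → Pg α β Γ ι F} (hP : P.Det)
    (hK : ∀ e, (K e).Det) : (P.bind K).Det := by
  rintro (q | q) i g
  · show (Option.elim (P.ex q) _ _ : Set _).Subsingleton
    cases P.ex q with
    | none => exact rel_sub _ (hP q i g)
    | some e => exact Set.subsingleton_singleton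
  · exact rel_sub (fun r => (Sum.inr ⟨q.1, r⟩ : P.Q ⊕ (Σ e, (K e).Q))) (hK q.1 q.2 i g)

theorem det_iter [Finite S] [Finite E] {K : S → Pg α β Γ ι (S ⊕ E)} (hK : ∀ s, (K s).Det) (s : S) :
    (Pg.iter K s).Det := by
  rintro (q | q) i g
  · show (Option.elim ((K q.1).ex q.2) _ _ : Set _).Subsingleton
    cases (K q.1).ex q.2 with
    | none => exact rel_sub (fun r => (Sum.inl ⟨q.1, r⟩ : (Σ s, (K s).Q) ⊕ E)) (hK q.1 q.2 i g)
    | some e => exact Set.subsingleton_singleton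
  · exact Set.subsingleton_empty

theorem ev_one [Finite E] {f : In α → (ι → Γ) → Set (Eff β Γ ι × E × E)} {a}
    (ha : a ∈ f (inp C.x d.ih) d.rd) (h0 : C.ok d.hd) (h1 : C.ok (d.upd C.x.length a.1).hd) :
    (Pg.one f).Ev C d 1 (nxt C.O d a) (d.upd C.x.length a.1) := by
  refine ⟨1, le_rfl, Ex.step (a := (a.1, some a.2.1, some a.2.2)) rfl ⟨a, ha, rfl⟩ h0 ?_⟩
  exact Ex.done (nxt_map C.O d a some) h1

theorem one_inv [Finite E] {f : In α → (ι → Γ) → Set (Eff β Γ ι × E × E)} {e : E}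
    (h : (Pg.one f).Ev C d t e d') :
    ∃ a ∈ f (inp C.x d.ih) d.rd, e = nxt C.O d a ∧ d' = d.upd C.x.length a.1 := by
  obtain ⟨t', -, h⟩ := h
  cases h with
  | done h1 _ => cases h1
  | step _ ha _ h2 =>
    obtain ⟨a, ha, rfl⟩ := ha
    refine ⟨a, ha, ?_⟩
    have hq : (Pg.one f).ex (nxt C.O d (a.1, some a.2.1, some a.2.2)) = some (nxt C.O d a) :=
      nxt_map C.O d a some
    cases h2 with
    | done h3 _ => exact ⟨Option.some.inj (h3.symm.trans hq), rfl⟩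
    | step h3 => exact absurd (h3.symm.trans hq) (by simp)

theorem ex_bind_r {P : Pg α β Γ ι E} {K : E → Pg α β Γ ι F} {e : E} {q : (K e).Q} {f : F}
    (h : Ex (K e).ex (K e).δ C q d t f d') :
    Ex (bindEx P K) (bindδ P K) C (Sum.inr ⟨e, q⟩) d t f d' := by
  induction h with
  | done h1 h2 => exact Ex.done h1 h2
  | @step q d a t f d' h1 ha h2 _ ih =>
    refine Ex.step (a := (a.1, Sum.inr ⟨e, a.2.1⟩, Sum.inr ⟨e, a.2.2⟩)) h1 ⟨a, ha, rfl⟩ h2 ?_
    rw [nxt_map C.O d a (fun r => (Sum.inr ⟨e, r⟩ : P.Q ⊕ (Σ e, (K e).Q)))]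
    exact ih

theorem ex_bind_l {P : Pg α β Γ ι E} {K : E → Pg α β Γ ι F} {e : E} {q : P.Q} {f : F}
    (h : Ex P.ex P.δ C q d t₁ e d₁) (h' : Ex (K e).ex (K e).δ C (K e).s d₁ t₂ f d₂) :
    Ex (bindEx P K) (bindδ P K) C (Sum.inl q) d (t₁ + t₂ + 1) f d₂ := by
  induction h with
  | @done q d e h1 h2 =>
    rw [Nat.zero_add]
    refine Ex.step (a := (nop d.rd, Sum.inr ⟨e, (K e).s⟩, Sum.inr ⟨e, (K e).s⟩)) rfl ?_ h2 ?_
    · simp [bindδ, h1]
    · rw [nxt_same, upd_nop]; exact ex_bind_r h'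
  | @step q d a t e d' h1 ha h2 _ ih =>
    rw [show t + 1 + t₂ + 1 = (t + t₂ + 1) + 1 by omega]
    refine Ex.step (a := (a.1, Sum.inl a.2.1, Sum.inl a.2.2)) rfl ?_ h2 ?_
    · simp only [bindδ, h1, Option.elim]; exact ⟨a, ha, rfl⟩
    · rw [nxt_map C.O d a (Sum.inl : P.Q → P.Q ⊕ (Σ e, (K e).Q))]; exact ih h'

theorem ev_bind [Finite E] {P : Pg α β Γ ι E} {K : E → Pg α β Γ ι F} {e : E} {f : F}
    (h : P.Ev C d t₁ e d₁) (h' : (K e).Ev C d₁ t₂ f d₂) : (P.bind K).Ev C d (t₁ + t₂ + 1) f d₂ :=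
  let ⟨a, ha, h⟩ := h; let ⟨b, hb, h'⟩ := h'
  ⟨a + b + 1, by omega, ex_bind_l h h'⟩

theorem ex_bind_inv {P : Pg α β Γ ι E} {K : E → Pg α β Γ ι F} {f : F} {r}
    (h : Ex (bindEx P K) (bindδ P K) C r d t f d') :
    (∀ e q, r = Sum.inr ⟨e, q⟩ → Ex (K e).ex (K e).δ C q d t f d') ∧
    (∀ q, r = Sum.inl q → ∃ e d₁ t₁ t₂, Ex P.ex P.δ C q d t₁ e d₁ ∧
      Ex (K e).ex (K e).δ C (K e).s d₁ t₂ f d') := by
  induction h with
  | done h1 h2 =>
    refine ⟨?_, ?_⟩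
    · rintro e q rfl; exact Ex.done h1 h2
    · rintro q rfl; cases h1
  | @step r d a t f d' h1 ha h2 _ ih =>
    refine ⟨?_, ?_⟩
    · rintro e q rfl
      obtain ⟨b, hb, rfl⟩ := ha
      exact Ex.step h1 hb h2
        (ih.1 e _ (nxt_map C.O d b (fun r => (Sum.inr ⟨e, r⟩ : P.Q ⊕ (Σ e, (K e).Q)))))
    · rintro q rfl
      cases hq : P.ex q with
      | none =>
        simp only [bindδ, hq, Option.elim] at ha
        obtain ⟨b, hb, rfl⟩ := ha
        obtain ⟨e, d₁, t₁, t₂, h3, h4⟩ := ih.2 _ (nxt_map C.O d b _)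
        exact ⟨e, d₁, t₁ + 1, t₂, Ex.step hq hb h2 h3, h4⟩
      | some e =>
        simp only [bindδ, hq, Option.elim, Set.mem_singleton_iff] at ha
        subst ha
        have := ih.1 e _ (nxt_same _ _ _ _)
        rw [upd_nop] at this
        exact ⟨e, d, 0, t, Ex.done hq h2, this⟩

theorem bind_inv [Finite E] {P : Pg α β Γ ι E} {K : E → Pg α β Γ ι F} {f : F}
    (h : (P.bind K).Ev C d t f d') : ∃ e d₁ t₁ t₂, P.Ev C d t₁ e d₁ ∧ (K e).Ev C d₁ t₂ f d' := by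
  obtain ⟨t', -, h⟩ := h
  obtain ⟨e, d₁, t₁, t₂, h1, h2⟩ := (ex_bind_inv h).2 _ rfl
  exact ⟨e, d₁, t₁, t₂, ⟨_, le_rfl, h1⟩, ⟨_, le_rfl, h2⟩⟩

theorem ex_iter {K : S → Pg α β Γ ι (S ⊕ E)} {s : S} {q : (K s).Q} {r : S ⊕ E} {e : E}
    (h : Ex (K s).ex (K s).δ C q d t₁ r d₁)
    (h' : Ex (iterEx K) (iterδ K) C (iterGo K r) d₁ t₂ e d₂) :
    Ex (iterEx K) (iterδ K) C (Sum.inl ⟨s, q⟩) d (t₁ + t₂ + 1) e d₂ := by
  induction h with
  | @done q d r h1 h2 =>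
    rw [Nat.zero_add]
    refine Ex.step (a := (nop d.rd, iterGo K r, iterGo K r)) rfl ?_ h2 ?_
    · simp [iterδ, h1]
    · rw [nxt_same, upd_nop]; exact h'
  | @step q d a t r d' h1 ha h2 _ ih =>
    rw [show t + 1 + t₂ + 1 = (t + t₂ + 1) + 1 by omega]
    refine Ex.step (a := (a.1, Sum.inl ⟨s, a.2.1⟩, Sum.inl ⟨s, a.2.2⟩)) rfl ?_ h2 ?_
    · simp only [iterδ, h1, Option.elim]; exact ⟨a, ha, rfl⟩
    · rw [nxt_map C.O d a (fun r => (Sum.inl ⟨s, r⟩ : (Σ s, (K s).Q) ⊕ E))]; exact ih h'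

theorem ev_iter_done [Finite S] [Finite E] {K : S → Pg α β Γ ι (S ⊕ E)} {s : S} {e : E}
    (h : (K s).Ev C d t (Sum.inr e) d') : (Pg.iter K s).Ev C d (t + 1) e d' :=
  let ⟨a, ha, h⟩ := h
  ⟨a + 0 + 1, by omega, ex_iter h (Ex.done rfl h.ok1)⟩

theorem ev_iter_more [Finite S] [Finite E] {K : S → Pg α β Γ ι (S ⊕ E)} {s s' : S} {e : E}
    (h : (K s).Ev C d t₁ (Sum.inl s') d₁) (h' : (Pg.iter K s').Ev C d₁ t₂ e d₂) :
    (Pg.iter K s).Ev C d (t₁ + t₂ + 1) e d₂ :=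
  let ⟨a, ha, h⟩ := h; let ⟨b, hb, h'⟩ := h'
  ⟨a + b + 1, by omega, ex_iter h h'⟩

theorem ex_iter_inv {K : S → Pg α β Γ ι (S ⊕ E)} (I : S ⊕ E → Dat β Γ ι → Prop)
    (hI : ∀ s d t r d', I (Sum.inl s) d → (K s).Ev C d t r d' → I r d') {e : E} {r}
    (h : Ex (iterEx K) (iterδ K) C r d t e d') :
    (∀ e', r = Sum.inr e' → I (Sum.inr e') d → I (Sum.inr e) d') ∧
    (∀ s q, r = Sum.inl ⟨s, q⟩ →
      (∀ t r d', Ex (K s).ex (K s).δ C q d t r d' → I r d') → I (Sum.inr e) d') := by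
  induction h with
  | done h1 h2 =>
    refine ⟨?_, ?_⟩
    · rintro e' rfl h; cases h1; exact h
    · rintro s q rfl; cases h1
  | @step r d a t e d' h1 ha h2 _ ih =>
    refine ⟨?_, ?_⟩
    · rintro e' rfl; cases h1
    · rintro s q rfl H
      cases hq : (K s).ex q with
      | none =>
        simp only [iterδ, hq, Option.elim] at ha
        obtain ⟨b, hb, rfl⟩ := ha
        exact ih.2 s _ (nxt_map C.O d b (fun r => (Sum.inl ⟨s, r⟩ : (Σ s, (K s).Q) ⊕ E)))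
          fun t r d' h => H _ _ _ (Ex.step hq hb h2 h)
      | some r =>
        simp only [iterδ, hq, Option.elim, Set.mem_singleton_iff] at ha
        subst ha
        have h3 := H 0 r d (Ex.done hq h2)
        rw [nxt_same, upd_nop] at ih
        cases r with
        | inl s' => exact ih.2 s' _ rfl fun t r d' h => hI s' d t r d' h3 ⟨t, le_rfl, h⟩
        | inr e' => exact ih.1 e' rfl h3

/-- invariant rule for loops (all paths) -/
theorem iter_inv [Finite S] [Finite E] {K : S → Pg α β Γ ι (S ⊕ E)} (I : S ⊕ E → Dat β Γ ι → Prop)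
    (hI : ∀ s d t r d', I (Sum.inl s) d → (K s).Ev C d t r d' → I r d') {s : S} {e : E}
    (h0 : I (Sum.inl s) d) (h : (Pg.iter K s).Ev C d t e d') : I (Sum.inr e) d' := by
  obtain ⟨t', -, h⟩ := h
  exact (ex_iter_inv I hI h).2 s _ rfl fun t r d' h => hI s d t r d' h0 ⟨t, le_rfl, h⟩

end rules

end Pool.Agent.P.MP_d0c5d0_lc
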