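import Pool.Agent.P.MP_d0c5d0_lc.ToTM

/-! A space bounded machine has few potential queries, whatever the oracle. -/

namespace Pool.Agent.P.MP_d0c5d0_lc

open Classical Function

variable {α β : Type}

/-- a finite set of words and a value that depends only on the oracle on these words -/
structure QS where
  Q : Finset (List Bool)
  a : Set (List Bool) → List Bool
  dep : ∀ O O' : Set (List Bool), (∀ w ∈ Q, w ∈ O ↔ w ∈ O') → a O = a O'

/-- the next query asked from a configuration -/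
inductive QsysNq (M : TM α β) (x : List α) : M.Cfg → List Bool → Prop where
  | ask {c : M.Cfg} {a : Eff β M.Γ M.ι × M.Q × M.Q} :
      a ∈ M.δ c.1 (inp x c.2.ih) c.2.rd → a.1.qo = Qop.ask → QsysNq M x c c.2.qt
  | step {c : M.Cfg} {a : Eff β M.Γ M.ι × M.Q × M.Q} {w : List Bool} :
      a ∈ M.δ c.1 (inp x c.2.ih) c.2.rd → a.1.qo ≠ Qop.ask →
      QsysNq M x (a.2.2, c.2.upd x.length a.1) w → QsysNq M x c w

variable {M : TM α β} {x : List α} {O O' : Set (List Bool)} {B : ℕ}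

theorem qsys_out {c : M.Cfg} {w : List Bool} (h : QsysNq M x c w) (o : List β) :
    QsysNq M x (c.1, { c.2 with out := o }) w := by
  induction h generalizing o with
  | @ask c a h1 h2 => exact QsysNq.ask (c := (c.1, { c.2 with out := o })) h1 h2
  | @step c a w h1 h2 _ ih =>
    exact QsysNq.step (c := (c.1, { c.2 with out := o })) h1 h2 (ih (o ++ a.1.out.toList))

theorem qsys_uniq (hM : M.Det) {c : M.Cfg} {w w' : List Bool} (h : QsysNq M x c w)
    (h' : QsysNq M x c w') : w = w' := by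
  induction h with
  | ask h1 h2 =>
    cases h' with
    | ask _ _ => rfl
    | step h3 h4 _ => exact absurd (hM _ _ _ h1 h3 ▸ h2) h4
  | step h1 h2 _ ih =>
    cases h' with
    | ask h3 h4 => exact absurd (hM _ _ _ h3 h1 ▸ h4) h2
    | step h3 _ h5 =>
      have := hM _ _ _ h1 h3
      subst this
      exact ih h5

theorem qsys_halt (hM : M.Det) {c c₁ c₂ : M.Cfg} {t t' : ℕ} (h : M.Run O x c t c₁)
    (h' : M.Run O x c t' c₂) (e₁ : M.δ c₁.1 (inp x c₁.2.ih) c₁.2.rd = ∅)
    (e₂ : M.δ c₂.1 (inp x c₂.2.ih) c₂.2.rd = ∅) : c₁ = c₂ := by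
  induction h generalizing t' with
  | nil c =>
    cases h' with
    | nil => rfl
    | cons h3 _ => obtain ⟨a, ha, -⟩ := h3; rw [e₁] at ha; exact absurd ha (Set.notMem_empty _)
  | cons h1 _ ih =>
    obtain ⟨a, ha, rfl⟩ := h1
    cases h' with
    | nil => rw [e₂] at ha; exact absurd ha (Set.notMem_empty _)
    | cons h3 h4 =>
      obtain ⟨b, hb, rfl⟩ := h3
      have := hM _ _ _ ha hb
      subst this
      exact ih h4 e₁

/-- the next query of a reachable configuration is the next query of a reachable configuration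
with empty query tape -/
theorem qsys_back {t : ℕ} {c : M.Cfg} (h : M.Run O x M.init t c) :
    ∃ t₀ c₀, M.Run O x M.init t₀ c₀ ∧ c₀.2.qt = [] ∧ ∀ w, QsysNq M x c w → QsysNq M x c₀ w := by
  induction t generalizing c with
  | zero =>
    rw [h.zero_inv]
    exact ⟨0, _, .nil _, rfl, fun _ h => h⟩
  | succ t ih =>
    obtain ⟨c₁, h1, a, ha, e⟩ := h.succ_inv
    by_cases hq : a.1.qo = Qop.ask
    · refine ⟨t + 1, c, h, ?_, fun _ h => h⟩
      rw [e]
      simp only [Dat.upd, hq]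
    · obtain ⟨t₀, c₀, h2, h3, h4⟩ := ih h1
      refine ⟨t₀, c₀, h2, h3, fun w hw => h4 w (QsysNq.step ha hq ?_)⟩
      rw [e, nxt, if_neg (fun h => hq h.1)] at hw
      exact hw

/-- the run with oracle `O` stays within `B` cells -/
def QsysSp (M : TM α β) (x : List α) (B : ℕ) (O : Set (List Bool)) : Prop :=
  ∀ t c, M.Run O x M.init t c → ∀ i, |c.2.hd i| ≤ (B : ℤ)

theorem qsys_blank (hs : QsysSp M x B O) {t : ℕ} {c : M.Cfg} (h : M.Run O x M.init t c)
    (i : M.ι) (z : ℤ) (hz : ¬ |z| ≤ (B : ℤ)) : c.2.tp i z = M.blank := by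
  induction t generalizing c with
  | zero => rw [h.zero_inv]; rfl
  | succ t ih =>
    obtain ⟨c₁, h1, a, -, rfl⟩ := h.succ_inv
    have hne : z ≠ c₁.2.hd i := fun e => hz (e ▸ hs _ _ h1 i)
    simp only [Dat.upd, Function.update_of_ne hne]
    exact ih h1

/-- parameters of small configurations -/
abbrev QsysPar (M : TM α β) (n B : ℕ) : Type :=
  M.Q × Fin (n + 2) × (M.ι → Finset.Icc (-(B : ℤ)) B → M.Γ) × (M.ι → Finset.Icc (-(B : ℤ)) B)

/-- the configuration with given parameters -/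
noncomputable def qsysCfg (M : TM α β) {n B : ℕ} (p : QsysPar M n B) : M.Cfg :=
  (p.1, ⟨p.2.1, fun i z => if h : z ∈ Finset.Icc (-(B : ℤ)) B then p.2.2.1 i ⟨z, h⟩ else M.blank,
    fun i => p.2.2.2 i, [], []⟩)

theorem qsys_par (hs : QsysSp M x B O) {t : ℕ} {c : M.Cfg} (h : M.Run O x M.init t c)
    (hq : c.2.qt = []) :
    ∃ p : QsysPar M x.length B, qsysCfg M p = (c.1, { c.2 with out := [] }) := by
  have h1 := h.ih_le (Nat.zero_le _)
  refine ⟨(c.1, ⟨c.2.ih, by omega⟩, fun i z => c.2.tp i z,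
    fun i => ⟨c.2.hd i, Finset.mem_Icc.2 (abs_le.1 (hs _ _ h i))⟩), ?_⟩
  simp only [qsysCfg, hq, Prod.mk.injEq, Dat.mk.injEq, true_and, and_true]
  funext i z
  split_ifs with hz
  · rfl
  · exact (qsys_blank hs h i z fun e => hz (Finset.mem_Icc.2 (abs_le.1 e))).symm

/-- the potential queries -/
noncomputable def qsysQ (M : TM α β) (x : List α) (B : ℕ) : Finset (List Bool) :=
  haveI := M.finQ
  haveI := M.finΓ
  haveI := M.finι
  (Set.toFinite (Set.range fun p : QsysPar M x.length B =>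
    Classical.epsilon (QsysNq M x (qsysCfg M p)))).toFinset

theorem qsys_mem (hM : M.Det) (hs : QsysSp M x B O) {t : ℕ} {c : M.Cfg}
    (h : M.Run O x M.init t c) {w : List Bool} (hw : QsysNq M x c w) : w ∈ qsysQ M x B := by
  obtain ⟨t₀, c₀, h1, h2, h3⟩ := qsys_back h
  obtain ⟨p, hp⟩ := qsys_par hs h1 h2
  have h4 : QsysNq M x (qsysCfg M p) w := hp ▸ qsys_out (h3 w hw) []
  rw [qsysQ, Set.Finite.mem_toFinset]
  exact ⟨p, qsys_uniq hM (Classical.epsilon_spec ⟨w, h4⟩) h4⟩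

theorem qsys_step (hM : M.Det) (hs : QsysSp M x B O)
    (hO : ∀ w ∈ qsysQ M x B, w ∈ O ↔ w ∈ O') {t : ℕ} {c : M.Cfg}
    (h : M.Run O x M.init t c) (c' : M.Cfg) : M.Step O x c c' ↔ M.Step O' x c c' := by
  refine exists_congr fun a => and_congr_right fun ha => ?_
  have : nxt O c.2 a = nxt O' c.2 a := by
    by_cases hq : a.1.qo = Qop.ask
    · simp only [nxt, hO _ (qsys_mem hM hs h (QsysNq.ask ha hq))]
    · simp only [nxt, hq, false_and, if_false]
  rw [this]

theorem qsys_run (hM : M.Det) (hs : QsysSp M x B O)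
    (hO : ∀ w ∈ qsysQ M x B, w ∈ O ↔ w ∈ O') (t : ℕ) (c : M.Cfg) :
    M.Run O x M.init t c ↔ M.Run O' x M.init t c := by
  induction t generalizing c with
  | zero => exact ⟨fun h => h.zero_inv ▸ .nil _, fun h => h.zero_inv ▸ .nil _⟩
  | succ t ih =>
    constructor
    · intro h
      obtain ⟨c₁, h1, h2⟩ := h.succ_inv
      exact ((ih c₁).1 h1).snoc ((qsys_step hM hs hO h1 c).1 h2)
    · intro h
      obtain ⟨c₁, h1, h2⟩ := h.succ_inv
      exact ((ih c₁).2 h1).snoc ((qsys_step hM hs hO ((ih c₁).2 h1) c).2 h2)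

theorem qsys_card (M : TM α β) (x : List α) (B : ℕ) : (qsysQ M x B).card ≤ (x.length + 2) *
    (Nat.card M.Q * (Nat.card M.Γ ^ 2) ^ Nat.card M.ι * 2 ^ Nat.card M.ι) ^ (B + 1) := by
  have := M.finQ
  have := M.finΓ
  have := M.finι
  have : Nonempty M.Q := ⟨M.start⟩
  have : Nonempty M.Γ := ⟨M.blank⟩
  have h1 : (qsysQ M x B).card ≤ Nat.card (QsysPar M x.length B) := by
    rw [qsysQ, ← Set.ncard_eq_toFinset_card _ (Set.toFinite _), ← Nat.card_coe_set_eq]
    exact Finite.card_range_le _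
  have h2 : Nat.card (Finset.Icc (-(B : ℤ)) B) = 2 * B + 1 := by
    rw [Nat.card_eq_fintype_card, Fintype.card_coe, Int.card_Icc]
    omega
  refine h1.trans ?_
  rw [Nat.card_prod, Nat.card_prod, Nat.card_prod, Nat.card_fun, Nat.card_fun, Nat.card_fun, h2,
    Nat.card_eq_fintype_card (α := Fin _), Fintype.card_fin]
  have q1 : 1 ≤ Nat.card M.Q := Nat.card_pos
  have g1 : 1 ≤ Nat.card M.Γ := Nat.card_pos
  generalize Nat.card M.Q = q at q1
  generalize Nat.card M.Γ = g at g1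
  generalize Nat.card M.ι = i
  have a1 : q ≤ q ^ (B + 1) := Nat.le_self_pow (by omega) _
  have a2 : (g ^ (2 * B + 1)) ^ i ≤ ((g ^ 2) ^ i) ^ (B + 1) := by
    rw [← pow_mul, ← pow_mul, ← pow_mul]
    exact Nat.pow_le_pow_right g1 (by nlinarith)
  have a3 : (2 * B + 1) ^ i ≤ (2 ^ i) ^ (B + 1) := by
    rw [← pow_mul, mul_comm i, pow_mul]
    refine Nat.pow_le_pow_left ?_ _
    have := Nat.lt_two_pow_self (n := B)
    rw [pow_succ]
    omega
  rw [mul_pow, mul_pow, mul_left_comm, mul_assoc]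
  exact Nat.mul_le_mul_left _ (Nat.mul_le_mul a1 (Nat.mul_le_mul a2 a3))

/-- the value read off a halting relation -/
noncomputable def qsysVal (M : TM α β) (g : List β → List Bool) (R : ℕ → M.Cfg → Prop) :
    List Bool :=
  if h : ∃ p : ℕ × M.Cfg, R p.1 p.2 then g h.choose.2.2.out else []

theorem qsys_dep (hM : M.Det) (hs : QsysSp M x B O)
    (hO : ∀ w ∈ qsysQ M x B, w ∈ O ↔ w ∈ O') : QsysSp M x B O' ∧ M.Ends O x = M.Ends O' x := by
  refine ⟨fun t c h => hs t c ((qsys_run hM hs hO t c).2 h), ?_⟩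
  funext t c
  simp only [TM.Ends, qsys_run hM hs hO t c]

theorem qs_ex (M : TM α β) (hM : M.Det) (g : List β → List Bool) :
    ∃ K : ℕ, ∀ (x : List α) (B : ℕ), ∃ S : QS, S.Q.card ≤ (x.length + 2) * K ^ (B + 1) ∧
      ∀ O, (∀ t c, M.Run O x M.init t c → ∀ i, |c.2.hd i| ≤ (B : ℤ)) →
        ∀ t c, M.Ends O x t c → S.a O = g c.2.out := by
  refine ⟨_, fun x B => ⟨⟨qsysQ M x B,
    fun O => if QsysSp M x B O then qsysVal M g (M.Ends O x) else [], fun O O' hO => ?_⟩,
    qsys_card M x B, fun O hs t c h => ?_⟩⟩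
  · by_cases hs : QsysSp M x B O
    · obtain ⟨h1, h2⟩ := qsys_dep hM hs hO
      rw [if_pos hs, if_pos h1, h2]
    · have hs' : ¬ QsysSp M x B O' := fun h =>
        hs (qsys_dep hM h fun w hw => (hO w hw).symm).1
      rw [if_neg hs, if_neg hs']
  · have h1 : ∃ p : ℕ × M.Cfg, M.Ends O x p.1 p.2 := ⟨(t, c), h⟩
    have h2 := h1.choose_spec
    dsimp only
    rw [if_pos (show QsysSp M x B O from hs), qsysVal, dif_pos h1,
      qsys_halt hM h2.1 h.1 h2.2 h.2]

end Pool.Agent.P.MP_d0c5d0_lc
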