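import Pool.Agent.P.MP_d0c5d0_lc.Host
import Pool.Agent.P.MP_d0c5d0_lc.Cod

/-! Writing the fixed part of a coding cell on the query tape in time O(n^j). -/

namespace Pool.Agent.P.MP_d0c5d0_lc

open Classical Function

variable {α β Γ ι κ X : Type}

/-- the `j` padding tapes hold `m` marks each, heads on cell 0 -/
def HS.pad {j : ℕ} (s : HS β Γ ι (Fin j ⊕ κ) X) (x0 : X) (m : ℕ) : HS β Γ ι (Fin j ⊕ κ) X :=
  {s with f := Sum.elim (fun _ => lay (List.replicate m x0)) (fun k => s.f (Sum.inr k)),
          p := Sum.elim (fun _ => 0) (fun k => s.p (Sum.inr k))}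

/-- is the scanned cell of tape `k` marked -/
noncomputable def qw_tst [Finite X] (k : κ) : HP α β Γ ι κ X Bool :=
  testT k fun o => o.isSome

/-- from the right end of the marks back to cell 0 -/
noncomputable def qw_back [Finite X] (k : κ) : HP α β Γ ι κ X Unit :=
  (mv k (-1)).seq ((whl (qw_tst k) (mv k (-1))).seq (mv k 1))

/-- write `n` more marks -/
noncomputable def qw_marks (k : κ) (x0 : X) : ℕ → HP α β Γ ι κ X Unit
  | 0 => ret ()
  | n + 1 => (wr k (some x0)).seq ((mv k 1).seq (qw_marks k x0 n))

/-- write as many marks on tape `k` as the name of the input is long -/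
noncomputable def qw_one [Finite α] [Finite X] (x0 : X) (e : ℕ) (idx : α → ℕ) (k : κ) :
    HP α β Γ ι κ X Unit :=
  (qw_marks k x0 (e + 1)).seq ((mvI 1).seq ((whl (testI fun i => decide (i ≠ In.rend))
    (lookI.bind fun i => (qw_marks k x0 (In.casesOn i 0 0 fun a => idx a + 1)).seq (mvI 1))).seq
      (rewI.seq (qw_back k))))

/-- the same on every tape of a list -/
noncomputable def qw_all [Finite α] [Finite X] (x0 : X) (e : ℕ) (idx : α → ℕ) (l : List κ) :
    HP α β Γ ι κ X Unit :=
  l.foldr (fun k P => (qw_one x0 e idx k).seq P) (ret ())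

/-- nested loops over the tapes of a list -/
noncomputable def qw_pad [Finite X] (l : List κ) : HP α β Γ ι κ X Unit :=
  l.foldr (fun k P => (whl (qw_tst k) (P.seq (mv k 1))).seq (qw_back k)) (push true)

theorem qw_det_tst [Finite X] (k : κ) : (qw_tst k : HP α β Γ ι κ X Bool).Det := det_testT _ _

theorem qw_det_back [Finite X] (k : κ) : (qw_back k : HP α β Γ ι κ X Unit).Det :=
  det_seq (det_mv _ _) (det_seq (det_whl (qw_det_tst k) (det_mv _ _)) (det_mv _ _))

theorem qw_det_marks (k : κ) (x0 : X) (n : ℕ) : (qw_marks k x0 n : HP α β Γ ι κ X Unit).Det := by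
  induction n with
  | zero => exact det_ret _
  | succ n ih => exact det_seq (det_wr _ _) (det_seq (det_mv _ _) ih)

theorem qw_det_one [Finite α] [Finite X] (x0 : X) (e : ℕ) (idx : α → ℕ) (k : κ) :
    (qw_one x0 e idx k : HP α β Γ ι κ X Unit).Det :=
  det_seq (qw_det_marks _ _ _) (det_seq (det_mvI _) (det_seq (det_whl (det_testI _)
    (det_bind det_lookI fun _ => det_seq (qw_det_marks _ _ _) (det_mvI _)))
      (det_seq det_rewI (qw_det_back k))))

theorem qw_det_all [Finite α] [Finite X] (x0 : X) (e : ℕ) (idx : α → ℕ) (l : List κ) :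
    (qw_all x0 e idx l : HP α β Γ ι κ X Unit).Det := by
  induction l with
  | nil => exact det_ret _
  | cons k l ih => exact det_seq (qw_det_one x0 e idx k) ih

theorem qw_det_pad [Finite X] (l : List κ) : (qw_pad l : HP α β Γ ι κ X Unit).Det := by
  induction l with
  | nil => exact det_push _
  | cons k l ih => exact det_seq (det_whl (qw_det_tst k) (det_seq ih (det_mv _ _))) (qw_det_back k)

section hv

variable {bl : Γ} {O : Set (List Bool)} {x : List α}

theorem qw_lay_lt (x0 : X) {m i : ℕ} (h : i < m) :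
    lay (List.replicate m x0) (i : ℤ) = some x0 := by
  rw [lay_nat]; simp [h]

theorem qw_lay_end (x0 : X) (m : ℕ) : lay (List.replicate m x0) (m : ℤ) = none := by
  rw [lay_nat]; simp

theorem qw_hv_mv (k : κ) (m : SignType) (s : HS β Γ ι κ X) :
    Pg.Hv (mv k m) bl (cT O x) s 1 () {s with p := update s.p k (s.p k + m)} :=
  hv_mv k m (ok_cT _) (ok_cT _)

theorem qw_hv_tst [Finite X] (k : κ) (s : HS β Γ ι κ X) :
    Pg.Hv (qw_tst k) bl (cT O x) s 3 (s.f k (s.p k)).isSome s :=
  hv_testT k _ (ok_cT _)

theorem qw_hv_back [Finite X] (k : κ) (x0 : X) (m : ℕ) (s : HS β Γ ι κ X)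
    (hf : s.f k = lay (List.replicate m x0)) (hp : s.p k = m) :
    Pg.Hv (qw_back k) bl (cT O x) s (8 * m + 10) () {s with p := update s.p k 0} := by
  have h2 := hv_whl (bl := bl) (C := (cT O x : Ctx α (ι ⊕ κ))) (c := qw_tst k) (b := mv k (-1))
    m 3 1 (fun i => {s with p := update s.p k ((m : ℤ) - 1 - i)})
    (fun i => {s with p := update s.p k ((m : ℤ) - 1 - i)})
    (s' := {s with p := update s.p k (-1)})
    (fun i hi => (qw_hv_tst k _).cast (by
      have h : (m : ℤ) - 1 - i = ((m - 1 - i : ℕ) : ℤ) := by omega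
      simp only [update_self, hf, h]
      rw [qw_lay_lt x0 (by omega)]; rfl) rfl)
    (fun i hi => (qw_hv_mv k _ _).cast rfl (by
      simp only [update_self, update_idem, SignType.coe_neg_one, Nat.cast_add, Nat.cast_one]
      congr 2; ring))
    ((qw_hv_tst k _).cast (by
      simp only [update_self, hf]
      rw [lay_neg _ (by omega)]; rfl) (by congr 2; ring))
  have h1 := (qw_hv_mv (bl := bl) (O := O) (x := x) k (-1) s).cast rfl
    (show _ = ({s with p := update s.p k ((m : ℤ) - 1 - (0 : ℕ))} : HS β Γ ι κ X) by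
      simp only [hp, SignType.coe_neg_one]; congr 2; simp; ring)
  refine ((hv_seq h1 (hv_seq h2 (qw_hv_mv k 1 _))).mono (by omega)).cast rfl ?_
  simp

theorem qw_hv_marks (k : κ) (x0 : X) (n m : ℕ) (s : HS β Γ ι κ X)
    (hf : s.f k = lay (List.replicate m x0)) (hp : s.p k = m) :
    Pg.Hv (qw_marks k x0 n) bl (cT O x) s (4 * n + 1) ()
      {s with f := update s.f k (lay (List.replicate (m + n) x0)),
              p := update s.p k ((m + n : ℕ) : ℤ)} := by
  induction n generalizing m s with
  | zero => exact (hv_ret () (ok_cT _)).cast rfl (by simp [← hf, ← hp])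
  | succ n ih =>
    have h3 := ih (m + 1) ({s with f := update s.f k (update (s.f k) (s.p k) (some x0)),
                                   p := update s.p k (s.p k + (1 : SignType))})
      (by
        have := update_lay_end (List.replicate m x0) x0
        simp only [List.length_replicate] at this
        simp only [update_self, hf, hp, this, List.replicate_succ'])
      (by simp [hp])
    refine ((hv_seq (hv_wr k (some x0) (ok_cT _)) (hv_seq (qw_hv_mv k 1 _) h3)).mono
      (by omega)).cast rfl ?_
    simp only [update_idem, Nat.add_assoc, Nat.add_comm 1 n]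

theorem qw_code_take (idx : α → ℕ) (x : List α) {i : ℕ} (hi : i < x.length) :
    (code idx (x.take (i + 1))).length = (code idx (x.take i)).length + (idx x[i] + 1) := by
  rw [List.take_add_one, List.getElem?_eq_getElem hi, code_append]
  simp [code, cod1, -List.take_append_getElem]

theorem qw_hv_one [Finite α] [Finite X] (x0 : X) (e : ℕ) (idx : α → ℕ) (c : ℕ)
    (hc : ∀ a, idx a ≤ c) (k : κ) (s : HS β Γ ι κ X) (h0 : s.ih = 0)
    (hf : s.f k = lay (List.replicate 0 x0)) (hp : s.p k = 0) :
    Pg.Hv (qw_one x0 e idx k) bl (cT O x) s ((12 * c + 12 * e + 60) * (x.length + 1)) ()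
      {s with f := update s.f k (lay (List.replicate (tau e idx x).length x0))} := by
  have h1 := qw_hv_marks (bl := bl) (O := O) (x := x) k x0 (e + 1) 0 s hf (by simpa using hp)
  let σ : ℕ → HS β Γ ι κ X := fun i =>
    {s with ih := i + 1,
            f := update s.f k (lay (List.replicate (e + 1 + (code idx (x.take i)).length) x0)),
            p := update s.p k ((e + 1 + (code idx (x.take i)).length : ℕ) : ℤ)}
  have h3 := hv_whl (bl := bl) (C := (cT O x : Ctx α (ι ⊕ κ)))
    (c := testI fun i => decide (i ≠ In.rend))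
    (b := lookI.bind fun i =>
      (qw_marks k x0 (In.casesOn i 0 0 fun a => idx a + 1)).seq (mvI 1))
    x.length 3 (4 * c + 9) σ σ (s' := σ x.length)
    (fun i hi => (hv_testI _ (ok_cT _)).cast (by simp [σ, cT, inp_lt _ hi]) rfl)
    (fun i hi => by
      have ha : inp (cT O x : Ctx α (ι ⊕ κ)).x (σ i).ih = In.sym x[i] := inp_lt x hi
      have hl := hv_lookI (bl := bl) (C := (cT O x : Ctx α (ι ⊕ κ))) (s := σ i) (ok_cT _)
      rw [ha] at hl
      have hm := qw_hv_marks (bl := bl) (O := O) (x := x) k x0 (idx x[i] + 1)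
        (e + 1 + (code idx (x.take i)).length) (σ i) (by simp [σ]) (by simp [σ])
      refine ((hv_bind (K := fun i =>
        (qw_marks k x0 (In.casesOn i 0 0 fun a => idx a + 1)).seq (mvI 1)) hl
        (hv_seq hm (hv_right (ok_cT _) (by simp only [σ, cT]; omega)))).mono ?_).cast rfl ?_
      · have := hc x[i]; omega
      · simp only [σ, update_idem, qw_code_take idx x hi, Nat.add_assoc])
    ((hv_testI _ (ok_cT _)).cast (by simp [σ, cT, inp_end]) rfl)
  have h2 := (hv_right (bl := bl) (C := (cT O x : Ctx α (ι ⊕ κ)))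
    (s := {s with f := update s.f k (lay (List.replicate (0 + (e + 1)) x0)),
                  p := update s.p k ((0 + (e + 1) : ℕ) : ℤ)}) (ok_cT _) (by simp [h0])).cast rfl
    (show _ = σ 0 by simp [σ, h0, code_nil])
  have h4 := hv_rewI (bl := bl) (C := (cT O x : Ctx α (ι ⊕ κ))) (s := σ x.length) (ok_cT _)
  have h5 := qw_hv_back (bl := bl) (O := O) (x := x) k x0 (tau e idx x).length
    ({σ x.length with ih := 0}) (by simp [σ, tau_len]) (by simp [σ, tau_len])
  have hl := code_len_le idx hc x
  refine ((hv_seq h1 (hv_seq h2 (hv_seq h3 (hv_seq h4 h5)))).mono ?_).cast rfl ?_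
  · simp only [σ, tau_len]
    nlinarith [Nat.zero_le (e * x.length), Nat.zero_le (c * x.length)]
  · simp only [σ, update_idem, List.take_length, tau_len]
    rw [← hp, update_eq_self, ← h0]

theorem qw_hv_all [Finite α] [Finite X] (x0 : X) (e : ℕ) (idx : α → ℕ) (c : ℕ)
    (hc : ∀ a, idx a ≤ c) (l : List κ) (hl : l.Nodup) (s : HS β Γ ι κ X) (h0 : s.ih = 0)
    (hf : ∀ k ∈ l, s.f k = lay (List.replicate 0 x0) ∧ s.p k = 0) :
    Pg.Hv (qw_all x0 e idx l) bl (cT O x) s
      (l.length * ((12 * c + 12 * e + 60) * (x.length + 1) + 1) + 1) ()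
      {s with f := fun k => if k ∈ l then lay (List.replicate (tau e idx x).length x0)
        else s.f k} := by
  induction l generalizing s with
  | nil => exact ((hv_ret () (ok_cT _)).mono (by simp)).cast rfl (by simp)
  | cons k l ih =>
    rw [List.nodup_cons] at hl
    have h1 := qw_hv_one (bl := bl) (O := O) (x := x) x0 e idx c hc k s h0
      (hf k (by simp)).1 (hf k (by simp)).2
    have h2 := ih hl.2 {s with f := update s.f k (lay (List.replicate (tau e idx x).length x0))}
      h0 (fun k' hk' => by
        have hne : k' ≠ k := fun h => hl.1 (h ▸ hk')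
        simpa [update_of_ne hne] using hf k' (by simp [hk']))
    refine ((hv_seq h1 h2).mono ?_).cast rfl ?_
    · rw [List.length_cons, Nat.succ_mul l.length]; omega
    · simp only [HS.mk.injEq, true_and, and_true]
      funext k'
      by_cases h : k' = k
      · subst h; simp
      · simp [h]

theorem qw_hv_pad [Finite X] (x0 : X) (l : List κ) (hl : l.Nodup) :
    ∃ c : ℕ, ∀ (bl : Γ) (O : Set (List Bool)) (x : List α) (m : ℕ) (s : HS β Γ ι κ X),
      (∀ k ∈ l, s.f k = lay (List.replicate m x0) ∧ s.p k = 0) →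
      Pg.Hv (qw_pad l) bl (cT O x) s (c * (m + 1) ^ l.length) ()
        {s with qt := s.qt ++ List.replicate (m ^ l.length) true} := by
  induction l with
  | nil => exact ⟨1, fun bl O x m s _ => ((hv_push true (ok_cT _)).mono (by simp)).cast rfl (by simp)⟩
  | cons k l ih =>
    rw [List.nodup_cons] at hl
    obtain ⟨c, hc⟩ := ih hl.2
    refine ⟨c + 30, fun bl O x m s hf => ?_⟩
    obtain ⟨hf1, hp1⟩ := hf k (by simp)
    let σ : ℕ → HS β Γ ι κ X := fun i =>
      {s with qt := s.qt ++ List.replicate (i * m ^ l.length) true, p := update s.p k (i : ℤ)}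
    have h1 := hv_whl (bl := bl) (C := (cT O x : Ctx α (ι ⊕ κ))) (c := qw_tst k)
      (b := (qw_pad l).seq (mv k 1)) m 3 (c * (m + 1) ^ l.length + 2) σ σ (s' := σ m)
      (fun i hi => (qw_hv_tst k _).cast (by
        simp only [σ, update_self, hf1]
        rw [qw_lay_lt x0 hi]; rfl) rfl)
      (fun i hi => by
        have h2 := hc bl O x m (σ i) (fun k' hk' => by
          have hne : k' ≠ k := fun h => hl.1 (h ▸ hk')
          simpa [σ, update_of_ne hne] using hf k' (by simp [hk']))
        refine ((hv_seq h2 (qw_hv_mv k 1 _)).mono (by omega)).cast rfl ?_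
        simp only [σ, update_self, update_idem, List.append_assoc, ← List.replicate_add,
          Nat.succ_mul, SignType.coe_one, Nat.cast_add, Nat.cast_one])
      ((qw_hv_tst k _).cast (by
        simp only [σ, update_self, hf1]
        rw [qw_lay_end]; rfl) rfl)
    have h2 := qw_hv_back (bl := bl) (O := O) (x := x) k x0 m (σ m) (by simp [σ, hf1])
      (by simp [σ])
    have h0 : σ 0 = s := by simp [σ, ← hp1]
    rw [h0] at h1
    refine ((hv_seq h1 h2).mono ?_).cast rfl ?_
    · have hp : 1 ≤ (m + 1) ^ l.length := Nat.one_le_pow _ _ (by omega)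
      rw [List.length_cons, pow_succ]
      generalize (m + 1) ^ l.length = P at hp ⊢
      nlinarith [Nat.mul_le_mul_left m hp, Nat.zero_le (c * P)]
    · simp only [σ, update_idem, List.length_cons, pow_succ, Nat.mul_comm m]
      rw [← hp1, update_eq_self]

end hv

theorem qw_flat (g : Bool → List Bool) (idx : α → ℕ) (x : List α) :
    (code idx x).flatMap g = x.flatMap fun a => (cod1 idx a).flatMap g := by
  simp [code, List.flatMap_assoc]

theorem qw_dlen (u : List Bool) : (u.flatMap fun b => [true, b]).length = 2 * u.length := by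
  have := enc_len u
  simp only [enc, List.length_append, List.length_singleton] at this
  omega

theorem qw_ex (β Γ ι κ : Type) [Finite α] [Finite X] (j e : ℕ) (hj : 1 ≤ j) (idx : α → ℕ) (x0 : X) :
    ∃ (prep qw : HP α β Γ ι (Fin j ⊕ κ) X Unit) (c : ℕ), prep.Det ∧ qw.Det ∧
      ∀ (bl : Γ) (O : Set (List Bool)) (x : List α) (s : HS β Γ ι (Fin j ⊕ κ) X), s.ih = 0 →
        Pg.Hv prep bl (cT O x) (s.pad x0 0) (c * (x.length + 1)) ()
          (s.pad x0 (tau e idx x).length) ∧
        Pg.Hv qw bl (cT O x) (s.pad x0 (tau e idx x).length) (c * (x.length + 1) ^ j) ()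
          (HS.pad {s with qt := s.qt ++ cell (tau e idx x) ((tau e idx x).length ^ j) []} x0
            (tau e idx x).length) := by
  obtain ⟨c, hc⟩ := idx_bdd idx
  let l : List (Fin j ⊕ κ) := (List.finRange j).map Sum.inl
  have hl : l.Nodup := (List.nodup_finRange j).map Sum.inl_injective
  have hlen : l.length = j := by simp [l]
  have hmem : ∀ k ∈ l, ∃ i, k = Sum.inl i := fun k hk => by
    obtain ⟨i, -, rfl⟩ := List.mem_map.1 hk; exact ⟨i, rfl⟩
  obtain ⟨d, hd⟩ := qw_hv_pad (α := α) (β := β) (Γ := Γ) (ι := ι) x0 l hl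
  let w : List Bool := true :: (List.replicate e true ++ [false]).flatMap fun b => [true, b]
  have hw : w.length = 2 * e + 3 := by simp only [w, List.length_cons, qw_dlen]; simp; omega
  refine ⟨qw_all x0 e idx l,
    (pushes w).seq ((copyI fun a => (cod1 idx a).flatMap fun b => [true, b]).seq
      ((push false).seq ((qw_pad l).seq (push false)))),
    j * (12 * c + 12 * e + 61) + (4 * e + 4 * c + 50) + d * (e + c + 3) ^ j,
    qw_det_all _ _ _ _, det_seq (det_pushes _) (det_seq (det_copyI _) (det_seq (det_push _)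
      (det_seq (qw_det_pad _) (det_push _)))), fun bl O x s h0 => ⟨?_, ?_⟩⟩
  · have h1 := qw_hv_all (bl := bl) (O := O) (x := x) x0 e idx c hc l hl (s.pad x0 0) h0
      (fun k hk => by obtain ⟨i, rfl⟩ := hmem k hk; exact ⟨rfl, rfl⟩)
    refine (h1.mono ?_).cast rfl ?_
    · rw [hlen]
      generalize d * (e + c + 3) ^ j = D
      generalize 12 * c + 12 * e = A
      nlinarith [Nat.zero_le (j * x.length), Nat.zero_le (D * x.length),
        Nat.zero_le ((4 * e + 4 * c + 50) * x.length)]
    · simp only [HS.pad, HS.mk.injEq, true_and, and_true]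
      funext k
      rcases k with i | k
      · simp [l]
      · simp [l]
  · have h1 := hv_pushes (bl := bl) (C := (cT O x : Ctx α (ι ⊕ (Fin j ⊕ κ))))
      (s := s.pad x0 (tau e idx x).length) w (ok_cT _)
    have h2 := hv_copyI (bl := bl) (C := (cT O x : Ctx α (ι ⊕ (Fin j ⊕ κ))))
      (s := {s.pad x0 (tau e idx x).length with qt := (s.pad x0 (tau e idx x).length).qt ++ w})
      (fun a => (cod1 idx a).flatMap fun b => [true, b]) (2 * c + 2)
      (fun a => by have := hc a; rw [qw_dlen]; simp [cod1]; omega) (ok_cT _) h0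
    have h4 := hd bl O x (tau e idx x).length
      {s.pad x0 (tau e idx x).length with
        qt := (s.pad x0 (tau e idx x).length).qt ++ w ++
          x.flatMap (fun a => (cod1 idx a).flatMap fun b => [true, b]) ++ [false]}
      (fun k hk => by obtain ⟨i, rfl⟩ := hmem k hk; exact ⟨rfl, rfl⟩)
    refine ((hv_seq h1 (hv_seq h2 (hv_seq (hv_push false (ok_cT _))
      (hv_seq h4 (hv_push false (ok_cT _)))))).mono ?_).cast rfl ?_
    · rw [hlen, hw]
      have e1 : (tau e idx x).length + 1 ≤ (e + c + 3) * (x.length + 1) := by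
        have := code_len_le idx hc x
        rw [tau_len]
        nlinarith [Nat.zero_le (e * x.length)]
      have e2 : ((tau e idx x).length + 1) ^ j ≤ (e + c + 3) ^ j * (x.length + 1) ^ j := by
        rw [← mul_pow]; exact Nat.pow_le_pow_left e1 j
      have e3 : x.length + 1 ≤ (x.length + 1) ^ j := Nat.le_self_pow (by omega) _
      have e4 := Nat.mul_le_mul_left d e2
      have e5 := Nat.mul_le_mul_left (4 * e + 4 * c + 50) e3
      simp only [cT]
      generalize (x.length + 1) ^ j = P at *
      generalize (e + c + 3) ^ j = Q at *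
      generalize ((tau e idx x).length + 1) ^ j = R at *
      nlinarith [Nat.zero_le (j * (12 * c + 12 * e + 61) * P), Nat.zero_le (e * x.length)]
    · simp only [HS.pad, HS.mk.injEq, true_and, hlen, cT]
      simp [w, cell, enc, tau, qw_flat]

end Pool.Agent.P.MP_d0c5d0_lc
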