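import Pool.Agent.P.MP_d0c5d0_lc.Pg

/-! From programs to machines; basic facts on runs. -/

namespace Pool.Agent.P.MP_d0c5d0_lc

open Classical

variable {α β Γ ι E F S : Type}

/-- the machine of a program with Boolean exit -/
def Pg.toTM [Finite Γ] [Finite ι] (P : Pg α β Γ ι Bool) (bl : Γ) : TM α β where
  Q := P.Q
  Γ := Γ
  ι := ι
  finQ := P.fin
  finΓ := inferInstance
  finι := inferInstance
  start := P.s
  blank := bl
  acc := {q | P.ex q = some true}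
  δ := fun q i g => {a | P.ex q = none ∧ a ∈ P.δ q i g}

/-- initial tapes -/
def dat0 (bl : Γ) : Dat β Γ ι := ⟨0, fun _ _ => bl, fun _ => 0, [], []⟩

/-- context without space condition -/
def cT (O : Set (List Bool)) (x : List α) : Ctx α ι := ⟨O, x, fun _ => True⟩

/-- context with all heads bounded by `B` -/
def cS (O : Set (List Bool)) (x : List α) (B : ℕ) : Ctx α ι := ⟨O, x, fun h => ∀ i, |h i| ≤ (B : ℤ)⟩

theorem TM.Run.snoc {M : TM α β} {O x} {c c₁ c₂ : M.Cfg} {t : ℕ} (h : M.Run O x c t c₁)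
    (h' : M.Step O x c₁ c₂) : M.Run O x c (t + 1) c₂ := by
  induction h with
  | nil c => exact .cons h' (.nil _)
  | cons h1 _ ih => exact .cons h1 (ih h')

theorem TM.Run.trans {M : TM α β} {O x} {c c₁ c₂ : M.Cfg} {t t' : ℕ} (h : M.Run O x c t c₁)
    (h' : M.Run O x c₁ t' c₂) : M.Run O x c (t + t') c₂ := by
  induction h with
  | nil c => rwa [Nat.zero_add]
  | @cons _ _ _ t h1 _ ih => rw [show t + 1 + t' = t + t' + 1 by omega]; exact .cons h1 (ih h')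

theorem TM.Run.zero_inv {M : TM α β} {O x} {c c' : M.Cfg} (h : M.Run O x c 0 c') : c' = c := by
  cases h; rfl

theorem TM.Run.succ_inv {M : TM α β} {O x} {c c' : M.Cfg} {t : ℕ} (h : M.Run O x c (t + 1) c') :
    ∃ c₁, M.Run O x c t c₁ ∧ M.Step O x c₁ c' := by
  induction t generalizing c with
  | zero => cases h with | cons h1 h2 => cases h2; exact ⟨c, .nil _, h1⟩
  | succ t ih =>
    cases h with
    | cons h1 h2 => obtain ⟨c₁, h3, h4⟩ := ih h2; exact ⟨c₁, .cons h1 h3, h4⟩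

theorem upd_ih_le {n : ℕ} {d : Dat β Γ ι} (e : Eff β Γ ι) (h : d.ih ≤ n + 1) :
    (d.upd n e).ih ≤ n + 1 := by
  simp only [Dat.upd]; split_ifs <;> omega

theorem TM.Run.ih_le {M : TM α β} {O x} {c c' : M.Cfg} {t : ℕ} (h : M.Run O x c t c')
    (h0 : c.2.ih ≤ x.length + 1) : c'.2.ih ≤ x.length + 1 := by
  induction h with
  | nil c => exact h0
  | cons h1 _ ih => obtain ⟨a, -, rfl⟩ := h1; exact ih (upd_ih_le _ h0)

theorem upd_qt_le (n : ℕ) (d : Dat β Γ ι) (e : Eff β Γ ι) :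
    (d.upd n e).qt.length ≤ d.qt.length + 1 := by
  obtain ⟨_, _, _, _, qo⟩ := e
  cases qo <;> simp [Dat.upd]

/-- a run of `t` steps only depends on the oracle on short words -/
theorem TM.Run.congr {M : TM α β} {O O' : Set (List Bool)} {x} {c c' : M.Cfg} {t T : ℕ}
    (hO : ∀ w : List Bool, w.length ≤ T → (w ∈ O ↔ w ∈ O')) (h : M.Run O x c t c')
    (ht : c.2.qt.length + t ≤ T) : M.Run O' x c t c' := by
  induction h with
  | nil c => exact .nil _
  | @cons c c₁ c' t h1 _ ih =>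
    obtain ⟨a, ha, rfl⟩ := h1
    refine .cons ⟨a, ha, ?_⟩ (ih ?_)
    · simp only [nxt, hO c.2.qt (by omega)]
    · have := upd_qt_le x.length c.2 a.1
      dsimp only; omega

theorem TM.Ends.congr {M : TM α β} {O O' : Set (List Bool)} {x} {c : M.Cfg} {t T : ℕ}
    (hO : ∀ w : List Bool, w.length ≤ T → (w ∈ O ↔ w ∈ O')) (h : M.Ends O x t c) (ht : t ≤ T) :
    M.Ends O' x t c :=
  ⟨h.1.congr hO (by simpa [TM.init] using ht), h.2⟩

variable [Finite Γ] [Finite ι] {P : Pg α β Γ ι Bool} {bl : Γ} {C : Ctx α ι}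

theorem det_toTM (h : P.Det) : (P.toTM bl).Det := fun q i g _ ha _ hb => h q i g ha.2 hb.2

theorem run_of_ex {q d t e d'} (h : Ex P.ex P.δ C q d t e d') :
    ∃ q', (P.toTM bl).Run C.O C.x (q, d) t (q', d') ∧ P.ex q' = some e := by
  induction h with
  | done h1 _ => exact ⟨_, .nil _, h1⟩
  | step h1 ha _ _ ih =>
    obtain ⟨q', h2, h3⟩ := ih
    exact ⟨q', .cons ⟨_, ⟨h1, ha⟩, rfl⟩ h2, h3⟩

theorem ends_of_ev {t e d'} (h : P.Ev C (dat0 bl) t e d') :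
    ∃ t' ≤ t, ∃ c, (P.toTM bl).Ends C.O C.x t' c ∧ (c.1 ∈ (P.toTM bl).acc ↔ e = true) ∧ c.2 = d' := by
  obtain ⟨t', ht, h⟩ := h
  obtain ⟨q', h2, h3⟩ := run_of_ex (bl := bl) h
  refine ⟨t', ht, (q', d'), ⟨h2, ?_⟩, ?_, rfl⟩
  · exact Set.eq_empty_of_forall_notMem fun a ha => absurd (h3.symm.trans ha.1) (by simp)
  · show P.ex q' = some true ↔ _
    rw [h3]; simp

theorem ex_of_run {O x} {c c' : (P.toTM bl).Cfg} {t e} (h : (P.toTM bl).Run O x c t c')
    (he : P.ex c'.1 = some e) : Ex P.ex P.δ (cT O x) c.1 c.2 t e c'.2 := by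
  induction h with
  | nil c => exact .done he trivial
  | cons h1 _ ih => obtain ⟨a, ha, rfl⟩ := h1; exact .step ha.1 ha.2 trivial (ih he)

theorem ok_of_ex (hP : P.Det) {q d t e d'} (h : Ex P.ex P.δ C q d t e d') {s c}
    (hr : (P.toTM bl).Run C.O C.x (q, d) s c) : C.ok c.2.hd := by
  induction h generalizing s with
  | done h1 h2 =>
    cases hr with
    | nil => exact h2
    | cons h3 _ => obtain ⟨a, ha, -⟩ := h3; exact absurd (h1.symm.trans ha.1) (by simp)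
  | step h1 ha h2 _ ih =>
    cases hr with
    | nil => exact h2
    | cons h3 h4 =>
      obtain ⟨b, hb, rfl⟩ := h3
      have := hP _ _ _ ha hb.2
      subst this
      exact ih h4

theorem dtime_of {O k} {A : Set (List α)} (P : Pg α Empty Γ ι Bool) (bl : Γ) (hP : P.Det) (s : ℕ)
    (h : ∀ x, ∃ e d', P.Ev (cT O x) (dat0 bl) (s * (x.length + 1) ^ k) e d' ∧ (e = true ↔ x ∈ A)) :
    DTIME O k A := by
  refine ⟨P.toTM bl, det_toTM hP, s, fun x => ?_⟩
  obtain ⟨e, d', h1, h2⟩ := h x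
  obtain ⟨t', ht, c, h3, h4, -⟩ := ends_of_ev h1
  exact ⟨t', ht, c, h3, h4.trans h2⟩

theorem ntime_of {O k} {A : Set (List α)} (P : Pg α Empty Γ ι Bool) (bl : Γ) (s : ℕ)
    (h : ∀ x ∈ A, ∃ d', P.Ev (cT O x) (dat0 bl) (s * (x.length + 1) ^ k) true d')
    (h' : ∀ x t d', P.Ev (cT O x) (dat0 bl) t true d' → x ∈ A) : NTIME O k A := by
  refine ⟨P.toTM bl, s, fun x => ⟨fun hx => ?_, fun t c hc ha => ?_⟩⟩
  · obtain ⟨d', h1⟩ := h x hx
    obtain ⟨t', ht, c, h3, h4, -⟩ := ends_of_ev h1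
    exact ⟨t', ht, c, h3, h4.2 rfl⟩
  · exact h' x t c.2 ⟨t, le_rfl, ex_of_run hc.1 ha⟩

theorem logsp_of {O} (hP : P.Det) (s : ℕ)
    (h : ∀ x, ∃ t e d', P.Ev (cS O x (s * (Nat.log 2 (x.length + 1) + 1))) (dat0 bl) t e d') :
    (P.toTM bl).LogSp O := by
  refine ⟨s, fun x t c hc => ?_⟩
  obtain ⟨t', e, d', t'', -, h1⟩ := h x
  exact ok_of_ex (bl := bl) hP h1 hc

theorem log_of {O} {A : Set (List α)} {P : Pg α Empty Γ ι Bool} (bl : Γ) (hP : P.Det) (s : ℕ)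
    (h : ∀ x, ∃ t e d', P.Ev (cS O x (s * (Nat.log 2 (x.length + 1) + 1))) (dat0 bl) t e d' ∧
      (e = true ↔ x ∈ A)) : LOG O A := by
  refine ⟨P.toTM bl, det_toTM hP, logsp_of hP s fun x => ?_, fun x => ?_⟩
  · obtain ⟨t, e, d', h1, -⟩ := h x; exact ⟨t, e, d', h1⟩
  · obtain ⟨t, e, d', h1, h2⟩ := h x
    obtain ⟨t', -, c, h3, h4, -⟩ := ends_of_ev h1
    exact ⟨t', c, h3, h4.trans h2⟩

theorem logfun_of {O} {f : List α → List β} (bl : Γ) (hP : P.Det) (s : ℕ)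
    (h : ∀ x, ∃ t e d', P.Ev (cS O x (s * (Nat.log 2 (x.length + 1) + 1))) (dat0 bl) t e d' ∧
      d'.out = f x) : LogFun O f := by
  refine ⟨P.toTM bl, det_toTM hP, logsp_of hP s fun x => ?_, fun x => ?_⟩
  · obtain ⟨t, e, d', h1, -⟩ := h x; exact ⟨t, e, d', h1⟩
  · obtain ⟨t, e, d', h1, h2⟩ := h x
    obtain ⟨t', -, c, h3, -, h4⟩ := ends_of_ev h1
    exact ⟨t', c, h3, h4 ▸ h2⟩

end Pool.Agent.P.MP_d0c5d0_lc
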